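import Pool.Agent.Lib.MP_5e5727_lc.FA.MDefs

/-!
# FA-AA: the algebra `AA k M` of a `k[X]`-module `M`

`AA k M` is the `k`-algebra generated by `tt` and the elements `inc m`, `m ∈ M`, with the relations
`inc (m + m') = inc m + inc m'`, `inc (c m) = c inc m`, `inc (X m) = inc m * tt`.
-/

universe u

open Cardinal Polynomial

namespace Pool.Agent.Lib.MP_5e5727_lc.FA

variable (k : Type u) [Field k] (M : Type u) [AddCommGroup M] [Module k[X] M]

/-- The relations of `AA k M`. -/
inductive Rel : FreeAlgebra k (Option M) → FreeAlgebra k (Option M) → Prop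
  | add (m m' : M) : Rel (FreeAlgebra.ι k (some (m + m')))
      (FreeAlgebra.ι k (some m) + FreeAlgebra.ι k (some m'))
  | smul (c : k) (m : M) : Rel (FreeAlgebra.ι k (some ((C c : k[X]) • m)))
      (c • FreeAlgebra.ι k (some m))
  | act (m : M) : Rel (FreeAlgebra.ι k (some ((X : k[X]) • m)))
      (FreeAlgebra.ι k (some m) * FreeAlgebra.ι k none)

/-- The algebra of a `k[X]`-module. -/
def AA : Type u := RingQuot (Rel k M)

noncomputable instance : Ring (AA k M) := inferInstanceAs (Ring (RingQuot (Rel k M)))

noncomputable instance : Algebra k (AA k M) := inferInstanceAs (Algebra k (RingQuot (Rel k M)))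

namespace AA

/-- the quotient map -/
noncomputable def qm : FreeAlgebra k (Option M) →ₐ[k] AA k M := RingQuot.mkAlgHom k (Rel k M)

/-- the generator acting as `X` -/
noncomputable def tt : AA k M := qm k M (FreeAlgebra.ι k none)

theorem qm_rel {a b : FreeAlgebra k (Option M)} (h : Rel k M a b) : qm k M a = qm k M b :=
  RingQuot.mkAlgHom_rel k h

/-- the generators coming from the module -/
noncomputable def inc : M →+ AA k M :=
  AddMonoidHom.mk' (fun m => qm k M (FreeAlgebra.ι k (some m))) (by
    intro m m'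
    rw [qm_rel k M (Rel.add m m'), map_add])

theorem inc_C (c : k) (m : M) : inc k M ((C c : k[X]) • m) = c • inc k M m := by
  change qm k M _ = c • qm k M _
  rw [qm_rel k M (Rel.smul c m), map_smul]

theorem inc_X (m : M) : inc k M ((X : k[X]) • m) = inc k M m * tt k M := by
  change qm k M _ = qm k M _ * qm k M _
  rw [qm_rel k M (Rel.act m), map_mul]

variable {k M} {B : Type*} [Ring B] [Algebra k B]

/-- the universal property -/
noncomputable def lift (b : B) (φ : M →+ B) (h1 : ∀ (c : k) m, φ ((C c : k[X]) • m) = c • φ m)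
    (h2 : ∀ m, φ ((X : k[X]) • m) = φ m * b) : AA k M →ₐ[k] B :=
  RingQuot.liftAlgHom k ⟨FreeAlgebra.lift k (fun o => o.elim b φ), by
    intro x y h
    induction h with
    | add m m' => simp
    | smul c m => simp [h1]
    | act m => simp [h2]⟩

theorem lift_tt (b : B) (φ : M →+ B) (h1 h2) : lift (k := k) b φ h1 h2 (tt k M) = b := by
  unfold lift tt qm
  erw [RingQuot.liftAlgHom_mkAlgHom_apply]
  simp

theorem lift_inc (b : B) (φ : M →+ B) (h1 h2) (m : M) :
    lift (k := k) b φ h1 h2 (inc k M m) = φ m := by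
  change lift (k := k) b φ h1 h2 (RingQuot.mkAlgHom k (Rel k M) (FreeAlgebra.ι k (some m))) = φ m
  unfold lift
  erw [RingQuot.liftAlgHom_mkAlgHom_apply]
  simp

theorem hom_ext {f g : AA k M →ₐ[k] B} (h0 : f (tt k M) = g (tt k M))
    (h1 : ∀ m, f (inc k M m) = g (inc k M m)) : f = g := by
  apply RingQuot.ringQuot_ext' (S := k)
  apply FreeAlgebra.hom_ext
  funext o
  cases o with
  | none => exact h0
  | some m => exact h1 m

/-- induction principle: a subalgebra containing the generators is everything -/
theorem mem_of (S : Subalgebra k (AA k M)) (h0 : tt k M ∈ S) (h1 : ∀ m, inc k M m ∈ S)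
    (a : AA k M) : a ∈ S := by
  obtain ⟨x, rfl⟩ : ∃ x, qm k M x = a := RingQuot.mkAlgHom_surjective k (Rel k M) a
  induction x using FreeAlgebra.induction with
  | grade0 r => rw [AlgHom.commutes]; exact S.algebraMap_mem r
  | grade1 o =>
    cases o with
    | none => exact h0
    | some m => exact h1 m
  | mul a b ha hb => rw [map_mul]; exact S.mul_mem ha hb
  | add a b ha hb => rw [map_add]; exact S.add_mem ha hb

/-- an additive map with the two properties satisfies `φ (r m) = φ m * r(b)` -/
theorem act_all (b : B) (φ : M →+ B) (h1 : ∀ (c : k) m, φ ((C c : k[X]) • m) = c • φ m)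
    (h2 : ∀ m, φ ((X : k[X]) • m) = φ m * b) (r : k[X]) (m : M) :
    φ (r • m) = φ m * aeval b r := by
  have hpow : ∀ (n : ℕ) (m : M), φ ((X ^ n : k[X]) • m) = φ m * b ^ n := by
    intro n
    induction n with
    | zero => intro m; simp
    | succ n ih => intro m; rw [pow_succ', mul_smul, h2, ih, mul_assoc, pow_succ]
  induction r using Polynomial.induction_on' generalizing m with
  | add p q hp hq => rw [add_smul, map_add, hp, hq, map_add, mul_add]
  | monomial n c =>
    rw [← C_mul_X_pow_eq_monomial, mul_smul, h1, map_mul, aeval_C, map_pow, aeval_X, hpow,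
      Algebra.smul_def, ← mul_assoc, ← mul_assoc, Algebra.commutes]

theorem inc_smul (r : k[X]) (m : M) : inc k M (r • m) = inc k M m * aeval (tt k M) r :=
  act_all (tt k M) (inc k M) (inc_C k M) (inc_X k M) r m

variable {N P : Type u} [AddCommGroup N] [Module k[X] N] [AddCommGroup P] [Module k[X] P]

/-- functoriality -/
noncomputable def map (f : M →ₗ[k[X]] N) : AA k M →ₐ[k] AA k N :=
  lift (tt k N) ((inc k N).comp f.toAddMonoidHom)
    (by intro c m; simp [inc_C]) (by intro m; simp [inc_X])

@[simp] theorem map_tt (f : M →ₗ[k[X]] N) : map f (tt k M) = tt k N := lift_tt _ _ _ _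

@[simp] theorem map_inc (f : M →ₗ[k[X]] N) (m : M) : map f (inc k M m) = inc k N (f m) :=
  lift_inc _ _ _ _ _

theorem map_comp (g : N →ₗ[k[X]] P) (f : M →ₗ[k[X]] N) (a : AA k M) :
    map g (map f a) = map (g ∘ₗ f) a := by
  have : (map g).comp (map f) = map (g ∘ₗ f) := by
    apply hom_ext
    · simp
    · intro m; simp
  rw [← this]; rfl

theorem map_id (a : AA k M) : map (LinearMap.id : M →ₗ[k[X]] M) a = a := by
  have : map (LinearMap.id : M →ₗ[k[X]] M) = AlgHom.id k _ := by
    apply hom_ext
    · simp
    · intro m; simp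
  rw [this]; rfl

/-- an isomorphism of modules gives an isomorphism of algebras -/
noncomputable def equiv (e : M ≃ₗ[k[X]] N) : AA k M ≃ₐ[k] AA k N :=
  AlgEquiv.ofAlgHom (map e.toLinearMap) (map e.symm.toLinearMap)
    (by apply hom_ext <;> simp) (by apply hom_ext <;> simp)

/-- every element is built from finitely many elements of the module -/
theorem exists_finset (a : AA k M) : ∃ s : Set M, s.Finite ∧
    ∀ (N : Type u) [AddCommGroup N] [Module k[X] N] (f : N →ₗ[k[X]] M),
      s ⊆ Set.range f → a ∈ Set.range (map f) := by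
  let S : Subalgebra k (AA k M) :=
    { carrier := {a | ∃ s : Set M, s.Finite ∧
        ∀ (N : Type u) [AddCommGroup N] [Module k[X] N] (f : N →ₗ[k[X]] M),
          s ⊆ Set.range f → a ∈ Set.range (map f)}
      mul_mem' := by
        rintro a b ⟨s, hs, h⟩ ⟨s', hs', h'⟩
        refine ⟨s ∪ s', hs.union hs', ?_⟩
        intro N _ _ f hf
        obtain ⟨x, rfl⟩ := h N f (Set.subset_union_left.trans hf)
        obtain ⟨y, rfl⟩ := h' N f (Set.subset_union_right.trans hf)
        exact ⟨x * y, map_mul _ _ _⟩
      add_mem' := by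
        rintro a b ⟨s, hs, h⟩ ⟨s', hs', h'⟩
        refine ⟨s ∪ s', hs.union hs', ?_⟩
        intro N _ _ f hf
        obtain ⟨x, rfl⟩ := h N f (Set.subset_union_left.trans hf)
        obtain ⟨y, rfl⟩ := h' N f (Set.subset_union_right.trans hf)
        exact ⟨x + y, map_add _ _ _⟩
      algebraMap_mem' := by
        intro c
        refine ⟨∅, Set.finite_empty, ?_⟩
        intro N _ _ f _
        exact ⟨algebraMap k _ c, AlgHom.commutes _ _⟩ }
  refine mem_of S ?_ ?_ a
  · refine ⟨∅, Set.finite_empty, ?_⟩
    intro N _ _ f _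
    exact ⟨tt k N, map_tt f⟩
  · intro m
    refine ⟨{m}, Set.finite_singleton m, ?_⟩
    intro N _ _ f hf
    obtain ⟨n, hn⟩ := hf (Set.mem_singleton m)
    exact ⟨inc k N n, by rw [map_inc, hn]⟩

end AA

end Pool.Agent.Lib.MP_5e5727_lc.FA
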