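import Pool.Agent.Lib.MP_5e5727_lc.FA.MDefs

/-!
# FA-BA: the base presentation, `κ = ℵ₀`

`G = Q = ULift ℕ`, `r j = e_j - X e_{j+1}` (`R = k[X]`).
* `basic`: `J` finite (`Cardinal.lt_aleph0_iff_finite`), all its elements below `n`.  The family
  `w_j = e_j - X e_{j+1}` for `j < n` (or only for `j ∈ J`), `w_j = e_j` otherwise, is a basis
  (triangular: `w_j = e_j + (multiple of e_{j+1})`, only finitely many changed; use a bijective
  linear map, e.g. `e_j ↦ w_j` with inverse `e_j ↦ ∑_{i} X^i e_{j+i}` up to the first unchanged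
  index; or by induction on `n`: `Module.Basis` through `LinearEquiv`; or prove linear independence
  and span directly).  The rank for a triangular lemma would be `n - j`.
* `nonemb`: suppose `f : (ℕ →₀ k[X]) →ₗ (B →₀ k[X])` has kernel `span (range r)`.  Then
  `f e_0 = X ^ n f e_n` for all `n`, so every coordinate of `f e_0` is divisible by all `X ^ n`,
  hence `0` (`Polynomial` degrees), so `e_0 ∈ span (range r)`.  But the linear functional
  `ℓ : (ℕ →₀ k[X]) → k(X)` (`RatFunc k` or `LaurentPolynomial k` or `FractionRing k[X]`),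
  `ℓ e_j = X ^ (-j)`, kills all `r j`, and `ℓ e_0 = 1 ≠ 0`.  Or: `e_0 = ∑ d_j (e_j - X e_{j+1})`
  implies (look at the largest `j` with `d_j ≠ 0`, the coordinate `j + 1` is `-X d_j ≠ 0`, so
  `j + 1 = 0`, impossible).
-/

universe u

open Cardinal Polynomial

namespace Pool.Agent.Lib.MP_5e5727_lc.FA

section Base

variable (k : Type u) [Field k]

/-- the index type -/
private abbrev BQ : Type u := ULift.{u} ℕ

/-- the shift of the index -/
private def nx (j : BQ.{u}) : BQ.{u} := ULift.up (j.down + 1)

/-- the relations -/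
private noncomputable def br (j : BQ.{u}) : BQ.{u} →₀ k[X] :=
  Finsupp.single j 1 - Finsupp.single (nx j) (X : k[X])

open Classical in
/-- the nilpotent part -/
private noncomputable def bN (J : Set BQ.{u}) : Module.End k[X] (BQ.{u} →₀ k[X]) :=
  Finsupp.linearCombination k[X] fun j : BQ.{u} =>
    if j ∈ J then Finsupp.single (nx j) (X : k[X]) else 0

private theorem bN_single (J : Set BQ.{u}) (j : BQ.{u}) (c : k[X]) :
    bN k J (Finsupp.single j c) = c • bN k J (Finsupp.single j 1) := by
  unfold bN
  rw [Finsupp.linearCombination_single, Finsupp.linearCombination_single, one_smul]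

private theorem bN_mem {J : Set BQ.{u}} {j : BQ.{u}} (h : j ∈ J) :
    bN k J (Finsupp.single j 1) = Finsupp.single (nx j) (X : k[X]) := by
  unfold bN
  rw [Finsupp.linearCombination_single, one_smul, if_pos h]

private theorem bN_notMem {J : Set BQ.{u}} {j : BQ.{u}} (h : j ∉ J) :
    bN k J (Finsupp.single j 1) = 0 := by
  unfold bN
  rw [Finsupp.linearCombination_single, one_smul, if_neg h]

private theorem bN_pow {J : Set BQ.{u}} {n : ℕ} (hn : ∀ j ∈ J, j.down < n) (i : ℕ) :
    ∀ (j : BQ.{u}) (c : k[X]), n ≤ j.down + i → ((bN k J) ^ (i + 1)) (Finsupp.single j c) = 0 := by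
  induction i with
  | zero =>
    intro j c hj
    rw [zero_add, pow_one, bN_single, bN_notMem k (fun h => by have := hn j h; omega), smul_zero]
  | succ i ih =>
    intro j c hj
    rw [pow_succ, Module.End.mul_apply, bN_single]
    by_cases h : j ∈ J
    · rw [bN_mem k h, Finsupp.smul_single]
      exact ih (nx j) _ (by show n ≤ j.down + 1 + i; omega)
    · rw [bN_notMem k h, smul_zero, map_zero]

private theorem bN_nilpotent {J : Set BQ.{u}} {n : ℕ} (hn : ∀ j ∈ J, j.down < n) :
    IsNilpotent (bN k J) := by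
  refine ⟨n + 1, ?_⟩
  refine Finsupp.lhom_ext fun j c => ?_
  rw [bN_pow k hn n j c (by omega)]
  rfl

private theorem base_basic (J : Set BQ.{u}) (hJ : #J < ℵ₀) :
    ∃ (D : Type u) (b : Module.Basis (J ⊕ D) k[X] (BQ.{u} →₀ k[X])),
      ∀ j : J, b (Sum.inl j) = br k j := by
  classical
  have hfin : J.Finite := Cardinal.lt_aleph0_iff_set_finite.1 hJ
  obtain ⟨n, hn⟩ : ∃ n : ℕ, ∀ j ∈ J, j.down < n := by
    obtain ⟨m, hm⟩ := (hfin.image ULift.down).bddAbove
    exact ⟨m + 1, fun j hj => Nat.lt_succ_of_le (hm (Set.mem_image_of_mem _ hj))⟩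
  have hu : IsUnit (1 - bN k J) :=
    IsNilpotent.isUnit_one_sub (R := Module.End k[X] (BQ.{u} →₀ k[X])) (bN_nilpotent k hn)
  have hbij := (Module.End.isUnit_iff _).1 hu
  refine ⟨(Jᶜ : Set BQ.{u}), ((Finsupp.basisSingleOne (R := k[X]) (ι := BQ.{u})).map
    (LinearEquiv.ofBijective _ hbij)).reindex (Equiv.Set.sumCompl J).symm, fun j => ?_⟩
  rw [Module.Basis.reindex_apply, Equiv.symm_symm, Equiv.Set.sumCompl_apply_inl,
    Module.Basis.map_apply, Finsupp.coe_basisSingleOne, LinearEquiv.ofBijective_apply,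
    LinearMap.sub_apply, Module.End.one_apply, bN_mem k j.2]
  rfl

private theorem base_nonemb (B : Type u) (f : (BQ.{u} →₀ k[X]) →ₗ[k[X]] (B →₀ k[X])) :
    LinearMap.ker f ≠ Submodule.span k[X] (Set.range (br k)) := by
  intro h
  have h1 : ∀ n : ℕ, f (Finsupp.single (ULift.up 0) 1) =
      (X : k[X]) ^ n • f (Finsupp.single (ULift.up n) 1) := by
    intro n
    induction n with
    | zero => rw [pow_zero, one_smul]
    | succ n ih =>
      have h2 : br k (ULift.up n) ∈ LinearMap.ker f := by
        rw [h]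
        exact Submodule.subset_span ⟨_, rfl⟩
      rw [LinearMap.mem_ker, br, map_sub, sub_eq_zero] at h2
      have h3 : (Finsupp.single (nx (ULift.up n)) (X : k[X]) : BQ.{u} →₀ k[X]) =
          (X : k[X]) • Finsupp.single (ULift.up (n + 1)) 1 := by
        rw [Finsupp.smul_single, smul_eq_mul, mul_one]
        rfl
      rw [h3, map_smul] at h2
      rw [ih, h2, smul_smul, pow_succ]
  have h4 : f (Finsupp.single (ULift.up 0) 1) = 0 := by
    ext1 b
    rw [Finsupp.zero_apply]
    by_contra hne
    have h5 : (X : k[X]) ^ ((f (Finsupp.single (ULift.up 0) 1) b).natDegree + 1) ∣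
        f (Finsupp.single (ULift.up 0) 1) b := by
      conv_rhs => rw [h1 ((f (Finsupp.single (ULift.up 0) 1) b).natDegree + 1)]
      rw [Finsupp.smul_apply, smul_eq_mul]
      exact dvd_mul_right _ _
    have h6 := Polynomial.natDegree_le_of_dvd h5 hne
    rw [Polynomial.natDegree_X_pow] at h6
    omega
  have h7 : (Finsupp.single (ULift.up 0) 1 : BQ.{u} →₀ k[X]) ∈
      Submodule.span k[X] (Set.range (br k)) := by
    rw [← h, LinearMap.mem_ker]
    exact h4
  have hx : algebraMap k[X] (FractionRing k[X]) X ≠ 0 := by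
    rw [Ne, IsFractionRing.to_map_eq_zero_iff]
    exact X_ne_zero
  have h8 : Submodule.span k[X] (Set.range (br k)) ≤ LinearMap.ker
      (Finsupp.linearCombination k[X] fun j : BQ.{u} =>
        ((algebraMap k[X] (FractionRing k[X]) X)⁻¹) ^ j.down) := by
    rw [Submodule.span_le]
    rintro w ⟨j, rfl⟩
    rw [SetLike.mem_coe, LinearMap.mem_ker, br, map_sub, Finsupp.linearCombination_single,
      Finsupp.linearCombination_single, one_smul, Algebra.smul_def, sub_eq_zero]
    show _ = _ * _ ^ (j.down + 1)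
    rw [pow_succ', ← mul_assoc, mul_inv_cancel₀ hx, one_mul]
  have h9 := h8 h7
  rw [LinearMap.mem_ker, Finsupp.linearCombination_single, one_smul] at h9
  simp at h9

end Base

theorem exists_pres_base (k : Type u) [Field k] : Nonempty (Pres k[X] ℵ₀) :=
  ⟨{ G := BQ.{u}
     Q := BQ.{u}
     r := br k
     hG := by simp
     hQ := by simp
     basic := base_basic k
     nonemb := base_nonemb k }⟩

end Pool.Agent.Lib.MP_5e5727_lc.FA
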