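import Pool.Agent.Lib.MP_5e5727_lc.FA.AA

/-!
# FA-NF: normal form of `AA k M`; `AA.map` preserves injectivity

Let `M` be a `k[X]`-module; view it as a `k`-module by `Module.compHom M (C : k →+* k[X])` (a local
instance, `letI`), let `T = TensorAlgebra k M` and `W M = k[X] ⊗[k] T`.
1. The regular representation `ρ : AA k M →ₐ[k] Module.End k (W M)` (`AA.lift`):
   `ρ tt (r ⊗ u) = (X r) ⊗ u`, `ρ (inc m) (r ⊗ u) = 1 ⊗ (ι (r • m) * u)`.  The two conditions of
   `AA.lift`: `ρ (inc (c m)) = c ρ (inc m)` and `ρ (inc (X m)) (r ⊗ u) = 1 ⊗ ι (r X m) u =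
   ρ (inc m) (ρ tt (r ⊗ u))`, so `ρ (inc (X m)) = ρ (inc m) * ρ tt`.  (linear maps on tensor
   products: check on pure tensors, `TensorProduct.ext'`.)
2. `s : W M →ₗ[k] AA k M`, `s (r ⊗ u) = aeval tt r * (TensorAlgebra.lift k inc) u`.  For all
   `a` and `w`: `s (ρ a w) = a * s w` (the set of such `a` is a subalgebra containing `tt` and
   `inc m`, `AA.mem_of`; use `AA.inc_smul`: `inc (r m) = inc m * aeval tt r`).  With `w = 1 ⊗ 1`:
   `s (ρ a (1 ⊗ 1)) = a`, so `a ↦ ρ a (1 ⊗ 1)` is injective.
3. Naturality: for `f : M →ₗ[k[X]] N` let `W f = id ⊗ TensorAlgebra.map f`.  Then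
   `W f (ρ a w) = ρ (map f a) (W f w)` for all `a`, `w` (again a subalgebra of `a`'s).  So
   `W f (ρ a (1 ⊗ 1)) = ρ (map f a) (1 ⊗ 1)`.
4. If `f` is injective, it has a `k`-linear left inverse `r : N → M`
   (`LinearMap.exists_leftInverse_of_injective`), and `id ⊗ TensorAlgebra.map r` is a left inverse
   of `W f`.  So `map f a = 0` implies `ρ a (1 ⊗ 1) = 0`, `a = 0`.
You may change the internal lemmas (also avoid tensor products, e.g. use another model of the
regular representation); only the last statement is used elsewhere.
-/

universe u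

open Cardinal Polynomial TensorProduct

namespace Pool.Agent.Lib.MP_5e5727_lc.FA

variable {k : Type u} [Field k] {M N : Type u} [AddCommGroup M] [Module k[X] M]
  [AddCommGroup N] [Module k[X] N]

namespace AA

section reg

variable (k M) [Module k M] [IsScalarTower k k[X] M]

/-- the tensor algebra -/
private abbrev TA : Type u := TensorAlgebra k M

private abbrev WW : Type u := k[X] ⊗[k] TA k M

/-- `r ⊗ u ↦ 1 ⊗ (ι (r m) u)` -/
private noncomputable def bet (m : M) : WW k M →ₗ[k] WW k M :=
  (TensorProduct.mk k k[X] (TA k M) 1).comp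
    (TensorProduct.lift ((LinearMap.mul k (TA k M)).comp ((TensorAlgebra.ι k).comp
      ((LinearMap.toSpanSingleton k[X] M m).restrictScalars k))))

private theorem bet_apply (m : M) (r : k[X]) (u : TA k M) :
    bet k M m (r ⊗ₜ u) = (1 : k[X]) ⊗ₜ (TensorAlgebra.ι k (r • m) * u) := by
  simp [bet]

private noncomputable def phi : M →+ Module.End k (WW k M) :=
  AddMonoidHom.mk' (fun m => bet k M m) (by
    intro m m'
    apply TensorProduct.ext'
    intro r u
    rw [LinearMap.add_apply, bet_apply, bet_apply, bet_apply, smul_add, map_add, add_mul,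
      TensorProduct.tmul_add])

private theorem phi_apply (m : M) (r : k[X]) (u : TA k M) :
    phi k M m (r ⊗ₜ u) = (1 : k[X]) ⊗ₜ (TensorAlgebra.ι k (r • m) * u) := bet_apply k M m r u

private noncomputable def rtt : Module.End k (WW k M) :=
  LinearMap.rTensor (TA k M) (LinearMap.mulLeft k (X : k[X]))

private theorem rtt_apply (r : k[X]) (u : TA k M) :
    rtt k M (r ⊗ₜ u) = (X * r) ⊗ₜ u := by
  simp [rtt]

/-- the regular representation -/
private noncomputable def rho : AA k M →ₐ[k] Module.End k (WW k M) :=
  lift (rtt k M) (phi k M)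
    (by
      intro c m
      apply TensorProduct.ext'
      intro r u
      rw [LinearMap.smul_apply, phi_apply, phi_apply, smul_comm r (C c : k[X]) m,
        show (C c : k[X]) • (r • m) = c • (r • m) from by
          rw [← Polynomial.algebraMap_eq, algebraMap_smul],
        map_smul, smul_mul_assoc, TensorProduct.tmul_smul])
    (by
      intro m
      apply TensorProduct.ext'
      intro r u
      rw [Module.End.mul_apply, rtt_apply, phi_apply, phi_apply, smul_smul, mul_comm r X])

private theorem rho_tt : rho k M (tt k M) = rtt k M := lift_tt _ _ _ _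

private theorem rho_inc (m : M) : rho k M (inc k M m) = phi k M m := lift_inc _ _ _ _ m

private noncomputable def incL : M →ₗ[k] AA k M :=
  { inc k M with
    map_smul' := by
      intro c m
      change inc k M (c • m) = c • inc k M m
      rw [← inc_C, ← Polynomial.algebraMap_eq, algebraMap_smul] }

private theorem incL_apply (m : M) : incL k M m = inc k M m := rfl

/-- `r ⊗ u ↦ r(tt) * u` -/
private noncomputable def sec : WW k M →ₗ[k] AA k M :=
  TensorProduct.lift (((LinearMap.mul k (AA k M)).comp (aeval (tt k M)).toLinearMap).compl₂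
    (TensorAlgebra.lift k (incL k M)).toLinearMap)

private theorem sec_apply (r : k[X]) (u : TA k M) :
    sec k M (r ⊗ₜ u) = aeval (tt k M) r * TensorAlgebra.lift k (incL k M) u := by
  simp [sec]

private theorem sec_rho (a : AA k M) (w : WW k M) : sec k M (rho k M a w) = a * sec k M w := by
  let S : Subalgebra k (AA k M) :=
    { carrier := {a | ∀ w, sec k M (rho k M a w) = a * sec k M w}
      mul_mem' := by
        intro a b ha hb w
        rw [map_mul, Module.End.mul_apply, ha, hb, mul_assoc]
      add_mem' := by
        intro a b ha hb w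
        rw [map_add, LinearMap.add_apply, map_add, ha, hb, add_mul]
      algebraMap_mem' := by
        intro c w
        rw [AlgHom.commutes, Module.algebraMap_end_apply, map_smul, Algebra.smul_def] }
  have h : a ∈ S := by
    refine mem_of S ?_ ?_ a
    · intro w
      rw [rho_tt]
      have : (sec k M).comp (rtt k M) = (LinearMap.mulLeft k (tt k M)).comp (sec k M) := by
        apply TensorProduct.ext'
        intro r u
        rw [LinearMap.comp_apply, LinearMap.comp_apply, rtt_apply, sec_apply, sec_apply,
          LinearMap.mulLeft_apply, map_mul, aeval_X, mul_assoc]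
      exact LinearMap.congr_fun this w
    · intro m w
      rw [rho_inc]
      have : (sec k M).comp (phi k M m) = (LinearMap.mulLeft k (inc k M m)).comp (sec k M) := by
        apply TensorProduct.ext'
        intro r u
        rw [LinearMap.comp_apply, LinearMap.comp_apply, phi_apply, sec_apply, sec_apply,
          LinearMap.mulLeft_apply, map_one, one_mul, map_mul, TensorAlgebra.lift_ι_apply,
          incL_apply, inc_smul, mul_assoc]
      exact LinearMap.congr_fun this w
  exact h w

private theorem sec_one : sec k M (1 ⊗ₜ 1) = 1 := by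
  rw [sec_apply, map_one, map_one, mul_one]

private theorem eq_zero_of_rho (a : AA k M) (h : rho k M a (1 ⊗ₜ 1) = 0) : a = 0 := by
  have h1 := sec_rho k M a (1 ⊗ₜ 1)
  rw [h, map_zero, sec_one, mul_one] at h1
  exact h1.symm

end reg

section nat

variable [Module k M] [IsScalarTower k k[X] M] [Module k N] [IsScalarTower k k[X] N]

private noncomputable def tmap (g : M →ₗ[k] N) : TensorAlgebra k M →ₐ[k] TensorAlgebra k N :=
  TensorAlgebra.lift k ((TensorAlgebra.ι k).comp g)

omit [Module k[X] M] [Module k[X] N] [IsScalarTower k k[X] M] [IsScalarTower k k[X] N] in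
private theorem tmap_ι (g : M →ₗ[k] N) (m : M) :
    tmap g (TensorAlgebra.ι k m) = TensorAlgebra.ι k (g m) := by
  simp [tmap]

omit [Module k[X] M] [Module k[X] N] [IsScalarTower k k[X] M] [IsScalarTower k k[X] N] in
private theorem tmap_injective (g : M →ₗ[k] N) (hg : Function.Injective g) :
    Function.Injective (tmap g) := by
  obtain ⟨r, hr⟩ := LinearMap.exists_leftInverse_of_injective g (LinearMap.ker_eq_bot.2 hg)
  have h : (tmap r).comp (tmap g) = AlgHom.id k (TensorAlgebra k M) := by
    apply TensorAlgebra.hom_ext
    apply LinearMap.ext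
    intro m
    have h1 : r (g m) = m := LinearMap.congr_fun hr m
    simp [tmap_ι, h1]
  intro a b hab
  have h2 := congrArg (tmap r) hab
  have h3 : ∀ c, tmap r (tmap g c) = c := fun c => AlgHom.congr_fun h c
  rwa [h3, h3] at h2

private noncomputable def Wmap (f : M →ₗ[k[X]] N) : WW k M →ₗ[k] WW k N :=
  LinearMap.lTensor k[X] (tmap (f.restrictScalars k)).toLinearMap

private theorem Wmap_apply (f : M →ₗ[k[X]] N) (r : k[X]) (u : TA k M) :
    Wmap f (r ⊗ₜ u) = r ⊗ₜ (tmap (f.restrictScalars k) u) := rfl

private theorem Wmap_injective (f : M →ₗ[k[X]] N) (hf : Function.Injective f) :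
    Function.Injective (Wmap (k := k) f) :=
  Module.Flat.lTensor_preserves_injective_linearMap _ (tmap_injective _ hf)

private theorem Wmap_rho (f : M →ₗ[k[X]] N) (a : AA k M) (w : WW k M) :
    Wmap f (rho k M a w) = rho k N (map f a) (Wmap f w) := by
  let S : Subalgebra k (AA k M) :=
    { carrier := {a | ∀ w, Wmap f (rho k M a w) = rho k N (map f a) (Wmap f w)}
      mul_mem' := by
        intro a b ha hb w
        rw [map_mul, map_mul, map_mul, Module.End.mul_apply, Module.End.mul_apply, ha, hb]
      add_mem' := by
        intro a b ha hb w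
        rw [map_add, map_add, map_add, LinearMap.add_apply, LinearMap.add_apply, map_add, ha, hb]
      algebraMap_mem' := by
        intro c w
        rw [AlgHom.commutes, AlgHom.commutes, AlgHom.commutes, Module.algebraMap_end_apply,
          Module.algebraMap_end_apply, map_smul] }
  have h : a ∈ S := by
    refine mem_of S ?_ ?_ a
    · intro w
      rw [rho_tt, map_tt, rho_tt]
      have : (Wmap f).comp (rtt k M) = (rtt k N).comp (Wmap f) := by
        apply TensorProduct.ext'
        intro r u
        rw [LinearMap.comp_apply, LinearMap.comp_apply, rtt_apply, Wmap_apply, Wmap_apply,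
          rtt_apply]
      exact LinearMap.congr_fun this w
    · intro m w
      rw [rho_inc, map_inc, rho_inc]
      have : (Wmap f).comp (phi k M m) = (phi k N (f m)).comp (Wmap f) := by
        apply TensorProduct.ext'
        intro r u
        rw [LinearMap.comp_apply, LinearMap.comp_apply, phi_apply, Wmap_apply, Wmap_apply,
          phi_apply, map_mul, tmap_ι, LinearMap.restrictScalars_apply, map_smul]
      exact LinearMap.congr_fun this w
  exact h w

end nat

end AA

theorem AA.map_injective (f : M →ₗ[k[X]] N) (hf : Function.Injective f) :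
    Function.Injective (AA.map (k := k) f) := by
  let _ : Module k M := Module.compHom M (algebraMap k k[X])
  let _ : Module k N := Module.compHom N (algebraMap k k[X])
  have : IsScalarTower k k[X] M := IsScalarTower.of_algebraMap_smul fun _ _ => rfl
  have : IsScalarTower k k[X] N := IsScalarTower.of_algebraMap_smul fun _ _ => rfl
  rw [injective_iff_map_eq_zero]
  intro a ha
  apply AA.eq_zero_of_rho
  apply AA.Wmap_injective f hf
  rw [AA.Wmap_rho, ha, map_zero, map_zero, LinearMap.zero_apply]

end Pool.Agent.Lib.MP_5e5727_lc.FA
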