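import Pool.Agent.Lib.MP_5e5727_lc.FA.LG
import Pool.Agent.Lib.MP_5e5727_lc.FA.NF

/-!
# FA-BB: two modules with systems of frames have `L_{∞,lam}`-equivalent algebras

Notation: for `p : T → N` let `lin p = Finsupp.linearCombination k[X] p : (T →₀ k[X]) →ₗ N`.
`I V a b` iff there are `T : Type u`, frames `p : T → N`, `q : T → N'` and `c : V → AA k (T →₀ k[X])`
with `a v = AA.map (lin p) (c v)`, `b v = AA.map (lin q) (c v)` for all `v`.
* `atomic`: `s.eval a = AA.map (lin p) (s.eval c)` (`Tm.eval_map`), and `AA.map (lin p)`,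
  `AA.map (lin q)` are injective (`AA.map_injective`, `FrameSystem.inj`), so both equations are
  equivalent to `s.eval c = t.eval c`.
* `forth`: given `a' : W → AA k N`, `#W < lam`.  For each `w` let `s w` be the finite set of
  `AA.exists_finset (a' w)`; `X = ⋃ w, s w` has `#X < lam` (`lam ≥ ℵ₀`: if `lam = ℵ₀`, a finite
  union of finite sets is finite; otherwise `#X ≤ max ℵ₀ #W`).  `ext` gives a frame
  `p' : T ⊕ T' → N` extending `p` with `X ⊆ span (range p') = range (lin p')`, so `a' w =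
  AA.map (lin p') (c' w)`.  `#T' ≤ #(T ⊕ T') < lam` (`small`), so `stretch` gives a frame
  `q' : T ⊕ T' → N'` extending `q`.  Put `b' w = AA.map (lin q') (c' w)`, and
  `c'' = Sum.elim (fun v => AA.map j (c v)) c'` with `j = Finsupp.lmapDomain _ _ Sum.inl`;
  `lin p' ∘ j = lin p` because `p' (inl t) = p t` (`AA.map_comp`).
* `back`: the same with the roles of `N` and `N'` exchanged (prove `forth` as a lemma for general
  `N`, `N'` and use it twice).
Start: `T = PEmpty`, `nil`.
-/

universe u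

open Cardinal Polynomial

namespace Pool.Agent.Lib.MP_5e5727_lc.FA

variable {k : Type u} [Field k]

private def BI (N N' : Type u) [AddCommGroup N] [Module k[X] N] [AddCommGroup N']
    [Module k[X] N'] (Fr : (T : Type u) → (T → N) → Prop) (Fr' : (T : Type u) → (T → N') → Prop) :
    (V : Type u) → (V → AA k N) → (V → AA k N') → Prop :=
  fun V a b => ∃ (T : Type u) (p : T → N) (q : T → N') (c : V → AA k (T →₀ k[X])),
    Fr T p ∧ Fr' T q ∧
    (∀ v, a v = AA.map (Finsupp.linearCombination k[X] p) (c v)) ∧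
    ∀ v, b v = AA.map (Finsupp.linearCombination k[X] q) (c v)

private theorem BI_symm {N N' : Type u} [AddCommGroup N] [Module k[X] N] [AddCommGroup N']
    [Module k[X] N'] {Fr : (T : Type u) → (T → N) → Prop} {Fr' : (T : Type u) → (T → N') → Prop}
    {V : Type u} {a : V → AA k N} {b : V → AA k N'} (h : BI N N' Fr Fr' V a b) :
    BI N' N Fr' Fr V b a := by
  obtain ⟨T, p, q, c, h1, h2, h3, h4⟩ := h
  exact ⟨T, q, p, c, h2, h1, h4, h3⟩

private theorem bb_card {N W : Type u} {lam : Cardinal.{u}} (hlam : ℵ₀ ≤ lam) (hW : #W < lam)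
    (s : W → Set N) (hs : ∀ w, (s w).Finite) : #(⋃ w, s w) < lam := by
  rcases lt_or_ge (#W) ℵ₀ with h1 | h1
  · have : Finite W := Cardinal.lt_aleph0_iff_finite.1 h1
    exact (Set.finite_iUnion hs).lt_aleph0.trans_le hlam
  · refine lt_of_le_of_lt ?_ hW
    refine (Cardinal.mk_iUnion_le s).trans ?_
    have h2 : ⨆ w, #(s w) ≤ ℵ₀ := ciSup_le' fun w => (hs w).lt_aleph0.le
    calc #W * ⨆ w, #(s w) ≤ #W * ℵ₀ := mul_le_mul' le_rfl h2
      _ = #W := Cardinal.mul_aleph0_eq h1

private theorem bb_old {N : Type u} [AddCommGroup N] [Module k[X] N] {T T' : Type u} (p : T → N)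
    (p' : T ⊕ T' → N) (h : ∀ t, p' (Sum.inl t) = p t) (x : AA k (T →₀ k[X])) :
    AA.map (Finsupp.linearCombination k[X] p) x =
      AA.map (Finsupp.linearCombination k[X] p')
        (AA.map (Finsupp.lmapDomain k[X] k[X] (Sum.inl : T → T ⊕ T')) x) := by
  rw [AA.map_comp]
  congr 2
  rw [Finsupp.linearCombination_comp_lmapDomain]
  congr 1
  funext t
  exact (h t).symm

private theorem bb_forth {N N' : Type u} [AddCommGroup N] [Module k[X] N] [AddCommGroup N']
    [Module k[X] N'] {lam : Cardinal.{u}} (hlam : ℵ₀ ≤ lam)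
    {Fr : (T : Type u) → (T → N) → Prop} (hFr : FrameSystem k[X] N lam Fr)
    {Fr' : (T : Type u) → (T → N') → Prop} (hFr' : FrameSystem k[X] N' lam Fr')
    {V : Type u} {a : V → AA k N} {b : V → AA k N'} (h : BI N N' Fr Fr' V a b)
    (W : Type u) (hW : #W < lam) (a' : W → AA k N) :
    ∃ b' : W → AA k N', BI N N' Fr Fr' (V ⊕ W) (Sum.elim a a') (Sum.elim b b') := by
  obtain ⟨T, p, q, c, hp, hq, hac, hbc⟩ := h
  choose s hs hs2 using fun w => AA.exists_finset (a' w)
  obtain ⟨T', p', hp', hpe, hX⟩ := hFr.ext T p hp (⋃ w, s w) (bb_card hlam hW s hs)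
  have hT' : #T' < lam :=
    (Cardinal.mk_le_of_injective (Sum.inr_injective (α := T))).trans_lt (hFr.small _ _ hp')
  obtain ⟨q', hq', hqe⟩ := hFr'.stretch T q hq T' hT'
  have h1 : ∀ w, ∃ c' : AA k ((T ⊕ T') →₀ k[X]),
      AA.map (Finsupp.linearCombination k[X] p') c' = a' w := by
    intro w
    apply hs2 w
    intro x hx
    have h2 : x ∈ Submodule.span k[X] (Set.range p') := hX (Set.mem_iUnion.2 ⟨w, hx⟩)
    rw [← Finsupp.range_linearCombination] at h2
    exact h2
  choose c' hc' using h1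
  refine ⟨fun w => AA.map (Finsupp.linearCombination k[X] q') (c' w), T ⊕ T', p', q',
    Sum.elim (fun v => AA.map (Finsupp.lmapDomain k[X] k[X] (Sum.inl : T → T ⊕ T')) (c v)) c',
    hp', hq', ?_, ?_⟩
  · rintro (v | w)
    · rw [Sum.elim_inl, Sum.elim_inl, hac v]
      exact bb_old p p' hpe (c v)
    · rw [Sum.elim_inr, Sum.elim_inr]
      exact (hc' w).symm
  · rintro (v | w)
    · rw [Sum.elim_inl, Sum.elim_inl, hbc v]
      exact bb_old q q' hqe (c v)
    · rw [Sum.elim_inr, Sum.elim_inr]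

theorem sat_iff_of_rich {N N' : Type u} [AddCommGroup N] [Module k[X] N] [AddCommGroup N']
    [Module k[X] N'] {lam : Cardinal.{u}} (hlam : ℵ₀ ≤ lam) (h : Rich k[X] N lam)
    (h' : Rich k[X] N' lam) (φ : Fm k PEmpty.{u + 1}) (hφ : φ.InL lam) :
    φ.Sat (AA k N) PEmpty.elim ↔ φ.Sat (AA k N') PEmpty.elim := by
  obtain ⟨Fr, hFr⟩ := h
  obtain ⟨Fr', hFr'⟩ := h'
  have hBF : BF k (AA k N) (AA k N') lam (BI N N' Fr Fr') := by
    refine ⟨?_, ?_, ?_⟩
    · rintro V a b ⟨T, p, q, c, hp, hq, hac, hbc⟩ s t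
      obtain rfl : a = fun v => AA.map (Finsupp.linearCombination k[X] p) (c v) := funext hac
      obtain rfl : b = fun v => AA.map (Finsupp.linearCombination k[X] q) (c v) := funext hbc
      rw [Tm.eval_map, Tm.eval_map, Tm.eval_map, Tm.eval_map,
        (AA.map_injective _ (hFr.inj T p hp)).eq_iff,
        (AA.map_injective _ (hFr'.inj T q hq)).eq_iff]
    · intro V a b hI W hW a'
      exact bb_forth hlam hFr hFr' hI W hW a'
    · intro V a b hI W hW b'
      obtain ⟨a', ha'⟩ := bb_forth hlam hFr' hFr (BI_symm hI) W hW b'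
      exact ⟨a', BI_symm ha'⟩
  refine sat_iff_of_bf hBF φ hφ _ _ ⟨PEmpty, PEmpty.elim, PEmpty.elim, PEmpty.elim, hFr.nil,
    hFr'.nil, fun v => v.elim, fun v => v.elim⟩

end Pool.Agent.Lib.MP_5e5727_lc.FA
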