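import Pool.Agent.Lib.MP_5e5727_lc.FA.MDefs

/-!
# FA-CL: `κ⁺` is good, and points with a ladder which are closed under a function

`exists_good`: `Λ = (Order.succ κ).ord.ToType` with its linear well-order.  `card`:
`Cardinal.mk_toType`, `card_ord`.  `few`: an initial segment of `lam.ord.ToType` has fewer than
`lam = κ⁺` elements, so at most `κ` (`Order.lt_succ_iff`); adding one point does not matter as
`κ ≥ ℵ₀`.  `bdd`: `κ⁺` is regular (`Cardinal.isRegular_succ`), a set of at most `κ < cof` elements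
is bounded, and there is no largest element (a successor cardinal's ordinal is a limit).

`exists_closed`: let `K = κ.ord.ToType` (well-order, proper initial segments `{j | j ≤ i}` have fewer
than `κ` elements, `#K = κ`, no largest element).  `#Q ≤ κ` gives an injection `j : Q → K`.
For `Good`, define `d : K → Λ` by well-founded recursion with `d i > d i'` and `d i > f γ` for all
`i' < i`, `γ ≤ d i'` (possible by `bdd`: there are at most `κ · κ = κ` such elements, `few`).  Let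
`a` be the least element of `{b | ∀ i, d i < b}` (nonempty by `bdd`).
* closed: `γ < a` is not an upper bound, so `γ ≤ d i` for some `i`; take `i < i₁`; then
  `f γ < d i₁ < a`.
* ladder `c = d ∘ j`: injective as `d` is strictly increasing; `c q < a`; for `ξ < a` there is `i₀`
  with `ξ ≤ d i₀`, so `{q | c q ≤ ξ} ⊆ {q | j q ≤ i₀}` has fewer than `κ` elements.
-/

universe u

open Cardinal

namespace Pool.Agent.Lib.MP_5e5727_lc.FA

theorem exists_good {κ : Cardinal.{u}} (hκ : ℵ₀ ≤ κ) :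
    ∃ (Λ : Type u) (_ : LinearOrder Λ), Good κ Λ := by
  have hcof : Order.cof (Order.succ κ).ord.ToType = Order.succ κ := by
    rw [Ordinal.cof_toType, (isRegular_succ hκ).cof_ord]
  refine ⟨(Order.succ κ).ord.ToType, inferInstance, inferInstance, by simp, ?_, ?_⟩
  · intro a
    have h1 : #(Set.Iio a) ≤ κ := by
      have h2 := mk_Iio_lt a (by simp)
      rw [mk_ord_toType] at h2
      exact Order.lt_succ_iff.mp h2
    have h3 : Set.Iic a = insert a (Set.Iio a) := by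
      rw [Set.Iio_insert]
    calc #{b : (Order.succ κ).ord.ToType // b ≤ a} = #(Set.Iic a) := rfl
      _ = #(insert a (Set.Iio a) : Set (Order.succ κ).ord.ToType) := by rw [h3]
      _ ≤ #(Set.Iio a) + 1 := mk_insert_le
      _ ≤ κ + 1 := by gcongr
      _ = κ := add_one_eq hκ
  · intro A hA
    have h1 : ¬ IsCofinal A := by
      intro h2
      have h3 := Order.cof_le h2
      rw [hcof] at h3
      exact absurd (h3.trans hA) (not_le.mpr (Order.lt_succ κ))
    exact not_isCofinal_iff.mp h1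

theorem CL_step {κ : Cardinal.{u}} (hκ : ℵ₀ ≤ κ) {Λ K : Type u} [LinearOrder Λ]
    (h : Good κ Λ) (f : Λ → Λ) (s : Set K) (hs : #s ≤ κ) (e : s → Λ) :
    #({x : Λ | ∃ i : s, x = e i ∨ ∃ γ ≤ e i, x = f γ} : Set Λ) ≤ κ := by
  have hsub : ({x : Λ | ∃ i : s, x = e i ∨ ∃ γ ≤ e i, x = f γ} : Set Λ) ⊆
      ⋃ i : s, insert (e i) (f '' Set.Iic (e i)) := by
    rintro x ⟨i, hx | ⟨γ, hγ, hx⟩⟩
    · exact Set.mem_iUnion.mpr ⟨i, Set.mem_insert_iff.mpr (Or.inl hx)⟩
    · exact Set.mem_iUnion.mpr ⟨i, Set.mem_insert_iff.mpr (Or.inr ⟨γ, hγ, hx.symm⟩)⟩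
  refine (mk_le_mk_of_subset hsub).trans ((mk_iUnion_le_sum_mk).trans ?_)
  have h1 : ∀ i : s, #(insert (e i) (f '' Set.Iic (e i)) : Set Λ) ≤ κ := by
    intro i
    calc #(insert (e i) (f '' Set.Iic (e i)) : Set Λ) ≤ #(f '' Set.Iic (e i)) + 1 := mk_insert_le
      _ ≤ #(Set.Iic (e i)) + 1 := by
        gcongr
        exact mk_image_le
      _ ≤ κ + 1 := by
        gcongr
        exact h.few (e i)
      _ = κ := add_one_eq hκ
  calc Cardinal.sum (fun i : s => #(insert (e i) (f '' Set.Iic (e i)) : Set Λ))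
      ≤ Cardinal.sum (fun _ : s => κ) := sum_le_sum _ _ h1
    _ = #s * κ := by rw [sum_const']
    _ ≤ κ * κ := by gcongr
    _ = κ := mul_eq_self hκ

theorem exists_closed {κ : Cardinal.{u}} (hκ : κ.IsRegular) {Λ Q : Type u} [LinearOrder Λ]
    (h : Good κ Λ) (hQ : #Q ≤ κ) (f : Λ → Λ) : ∃ a ∈ LS κ Λ Q, ∀ γ < a, f γ < a := by
  have hκ0 : ℵ₀ ≤ κ := hκ.1
  have hmax : NoMaxOrder κ.ord.ToType := noMaxOrder hκ0
  have hKc : #κ.ord.ToType = κ := mk_ord_toType κ
  have hIio : ∀ i : κ.ord.ToType, #(Set.Iio i) < κ := by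
    intro i
    have h2 := mk_Iio_lt i (by simp)
    rwa [mk_ord_toType] at h2
  -- the injection
  obtain ⟨j⟩ : Nonempty (Q ↪ κ.ord.ToType) := by
    rw [← Cardinal.le_def, hKc]
    exact hQ
  -- the recursion
  have hA : ∀ (i : κ.ord.ToType) (ih : ∀ i' : κ.ord.ToType, i' < i → Λ),
      #({x : Λ | ∃ i' : Set.Iio i, x = ih i'.1 i'.2 ∨ ∃ γ ≤ ih i'.1 i'.2, x = f γ} : Set Λ) ≤ κ :=
    fun i ih => CL_step hκ0 h f (Set.Iio i) (hIio i).le (fun i' => ih i'.1 i'.2)
  choose F hF using fun (i : κ.ord.ToType) (ih : ∀ i' : κ.ord.ToType, i' < i → Λ) => h.bdd _ (hA i ih)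
  let d : κ.ord.ToType → Λ := WellFounded.fix (wellFounded_lt (α := κ.ord.ToType)) F
  have hd : ∀ i, d i = F i (fun i' _ => d i') := fun i => WellFounded.fix_eq _ _ i
  have hd1 : ∀ i' i, i' < i → d i' < d i := by
    intro i' i hi
    rw [hd i]
    exact hF i _ _ ⟨⟨i', hi⟩, Or.inl rfl⟩
  have hd2 : ∀ i' i, i' < i → ∀ γ ≤ d i', f γ < d i := by
    intro i' i hi γ hγ
    rw [hd i]
    exact hF i _ _ ⟨⟨i', hi⟩, Or.inr ⟨γ, hγ, rfl⟩⟩
  have hmono : StrictMono d := fun i' i hi => hd1 i' i hi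
  -- the supremum
  have hne : ({b : Λ | ∀ i, d i < b} : Set Λ).Nonempty := by
    obtain ⟨b, hb⟩ := h.bdd (Set.range d) (mk_range_le.trans hKc.le)
    exact ⟨b, fun i => hb _ ⟨i, rfl⟩⟩
  obtain ⟨a, ha, hamin⟩ : ∃ a ∈ ({b : Λ | ∀ i, d i < b} : Set Λ), ∀ b ∈ ({b : Λ | ∀ i, d i < b} : Set Λ), ¬ b < a :=
    h.wf.wf.has_min _ hne
  have hbelow : ∀ γ < a, ∃ i, γ ≤ d i := by
    intro γ hγ
    by_contra hcon
    push Not at hcon
    exact hamin γ hcon hγ
  refine ⟨a, ⟨fun q => d (j q), ?_, ?_, ?_⟩, ?_⟩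
  · exact hmono.injective.comp j.injective
  · intro q
    exact ha _
  · intro ξ hξ
    obtain ⟨i0, hi0⟩ := hbelow ξ hξ
    obtain ⟨i1, hi1⟩ := exists_gt i0
    refine lt_of_le_of_lt ?_ (hIio i1)
    refine mk_le_of_injective (f := fun q : {q // d (j q) ≤ ξ} => (⟨j q.1, ?_⟩ : Set.Iio i1)) ?_
    · have h3 : d (j q.1) ≤ d i0 := q.2.trans hi0
      exact lt_of_le_of_lt (hmono.le_iff_le.mp h3) hi1
    · intro q q' hqq
      have h4 : j q.1 = j q'.1 := congrArg Subtype.val hqq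
      exact Subtype.ext (j.injective h4)
  · intro γ hγ
    obtain ⟨i, hi⟩ := hbelow γ hγ
    obtain ⟨i1, hi1⟩ := exists_gt i
    exact (hd2 i i1 hi1 γ hi).trans (ha i1)

end Pool.Agent.Lib.MP_5e5727_lc.FA
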