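import Mathlib

/-!
# MP_5e5727_lc: the class of free associative algebras and `L_{∞,κ}`

Definitions used in the statement: terms and formulas of `L_{∞,∞}` over the language of
`k`-algebras, satisfaction, the sublogics `L_{∞,κ}`, axiomatizability.
-/

universe u

open Cardinal

namespace Pool.Agent.Lib.MP_5e5727_lc

/-- Terms in the language of `k`-algebras (binary `+` and `·`, constants `0` and `1`, a unary
operation for every scalar) with variables in `V`. -/
inductive Tm (k V : Type u) : Type u
  | var : V → Tm k V
  | zero : Tm k V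
  | one : Tm k V
  | add : Tm k V → Tm k V → Tm k V
  | mul : Tm k V → Tm k V → Tm k V
  | smul : k → Tm k V → Tm k V

/-- The value of a term in a `k`-algebra. -/
def Tm.eval {k V A : Type u} [Field k] [Ring A] [Algebra k A] (v : V → A) : Tm k V → A
  | .var x => v x
  | .zero => 0
  | .one => 1
  | .add s t => s.eval v + t.eval v
  | .mul s t => s.eval v * t.eval v
  | .smul c t => c • t.eval v

/-- Formulas of `L_{∞,∞}` over the language of `k`-algebras with free variables in `V`: equations,
negations, conjunctions of arbitrary sets of formulas, universal quantification over an arbitrary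
set `W` of variables. -/
inductive Fm (k : Type u) : Type u → Type (u + 1)
  | eq {V : Type u} : Tm k V → Tm k V → Fm k V
  | neg {V : Type u} : Fm k V → Fm k V
  | conj {V : Type u} (ι : Type u) : (ι → Fm k V) → Fm k V
  | all {V : Type u} (W : Type u) : Fm k (V ⊕ W) → Fm k V

/-- Satisfaction of a formula in a `k`-algebra `A` under an assignment of the free variables. -/
def Fm.Sat {k : Type u} [Field k] (A : Type u) [Ring A] [Algebra k A] :
    {V : Type u} → Fm k V → (V → A) → Prop
  | _, .eq s t, v => s.eval v = t.eval v
  | _, .neg φ, v => ¬ φ.Sat A v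
  | _, .conj _ φ, v => ∀ i, (φ i).Sat A v
  | _, .all W φ, v => ∀ w : W → A, φ.Sat A (Sum.elim v w)

/-- The formulas of `L_{∞,κ}`: every quantifier binds fewer than `κ` variables. -/
def Fm.InL {k : Type u} (κ : Cardinal.{u}) : {V : Type u} → Fm k V → Prop
  | _, .eq _ _ => True
  | _, .neg φ => φ.InL κ
  | _, .conj _ φ => ∀ i, (φ i).InL κ
  | _, .all W φ => #W < κ ∧ φ.InL κ

/-- `A` is a free associative `k`-algebra. -/
def IsFreeAlg (k A : Type u) [Field k] [Ring A] [Algebra k A] : Prop :=
  ∃ X : Type u, Nonempty (A ≃ₐ[k] FreeAlgebra k X)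

/-- The class of free associative `k`-algebras is the class of models of a set (or even a proper
class) of sentences of `L_{∞,κ}`. -/
def AxiomatizableIn (k : Type u) [Field k] (κ : Cardinal.{u}) : Prop :=
  ∃ T : Set (Fm k PEmpty.{u + 1}), (∀ φ ∈ T, φ.InL κ) ∧
    ∀ (A : Type u) [Ring A] [Algebra k A],
      (∀ φ ∈ T, φ.Sat A PEmpty.elim) ↔ IsFreeAlg k A

end Pool.Agent.Lib.MP_5e5727_lc
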