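import Pool.Agent.Lib.MP_5e5727_lc.FA.AA

/-!
# FA-FI: the algebra of a free module is free

`AA k (L →₀ k[X]) ≃ₐ[k] FreeAlgebra k (Option L)`:
* forward: `AA.lift (ι none) φ` with `φ : (L →₀ k[X]) →+ FreeAlgebra k (Option L)`,
  `φ (single l f) = ι (some l) * aeval (ι none) f` (`Finsupp.liftAddHom`); conditions on singles:
  `φ (C c • single l f) = c • φ (single l f)`, `φ (X • single l f) = φ (single l f) * ι none`
  (`aeval (X * f) = aeval f * ι none` as polynomials in one element commute).
* backward: `FreeAlgebra.lift k (fun o => o.elim tt (fun l => inc (single l 1)))`.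
* the compositions: `AA.hom_ext` (on `inc (single l f)` use `AA.inc_smul` with
  `single l f = f • single l 1`, and additivity: `Finsupp.addHom_ext`), `FreeAlgebra.hom_ext`.
-/

universe u

open Cardinal Polynomial

namespace Pool.Agent.Lib.MP_5e5727_lc.FA

variable {k : Type u} [Field k]

/-- the additive map of the forward direction -/
noncomputable def FIphi (k : Type u) [Field k] (L : Type u) :
    (L →₀ k[X]) →+ FreeAlgebra k (Option L) :=
  Finsupp.liftAddHom (fun l =>
    (AddMonoidHom.mulLeft (FreeAlgebra.ι k (some l) : FreeAlgebra k (Option L))).comp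
      (aeval (FreeAlgebra.ι k (none : Option L))).toRingHom.toAddMonoidHom)

theorem FIphi_single (L : Type u) (l : L) (f : k[X]) :
    FIphi k L (Finsupp.single l f) =
      FreeAlgebra.ι k (some l) * aeval (FreeAlgebra.ι k (none : Option L)) f := by
  unfold FIphi
  rw [Finsupp.liftAddHom_apply_single]
  rfl

theorem FIphi_C (L : Type u) (c : k) (m : L →₀ k[X]) :
    FIphi k L ((C c : k[X]) • m) = c • FIphi k L m := by
  induction m using Finsupp.induction_linear with
  | zero => simp
  | add f g hf hg => rw [smul_add, map_add, hf, hg, map_add, smul_add]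
  | single l f =>
    rw [Finsupp.smul_single, smul_eq_mul, FIphi_single, FIphi_single, map_mul, aeval_C,
      Algebra.smul_def, ← mul_assoc, ← mul_assoc, Algebra.commutes]

theorem FIphi_X (L : Type u) (m : L →₀ k[X]) :
    FIphi k L ((X : k[X]) • m) = FIphi k L m * FreeAlgebra.ι k none := by
  induction m using Finsupp.induction_linear with
  | zero => simp
  | add f g hf hg => rw [smul_add, map_add, hf, hg, map_add, add_mul]
  | single l f =>
    rw [Finsupp.smul_single, smul_eq_mul, FIphi_single, FIphi_single, mul_comm X f, map_mul,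
      aeval_X, mul_assoc]

theorem AA.free_iso (L : Type u) : Nonempty (AA k (L →₀ k[X]) ≃ₐ[k] FreeAlgebra k (Option L)) := by
  refine ⟨AlgEquiv.ofAlgHom
    (AA.lift (FreeAlgebra.ι k none) (FIphi k L) (FIphi_C L) (FIphi_X L))
    (FreeAlgebra.lift k (fun o => o.elim (AA.tt k (L →₀ k[X]))
      (fun l => AA.inc k (L →₀ k[X]) (Finsupp.single l 1)))) ?_ ?_⟩
  · apply FreeAlgebra.hom_ext
    funext o
    cases o with
    | none =>
      simp only [Function.comp_apply, AlgHom.comp_apply, FreeAlgebra.lift_ι_apply, Option.elim,
        AA.lift_tt, AlgHom.id_apply]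
    | some l =>
      simp only [Function.comp_apply, AlgHom.comp_apply, FreeAlgebra.lift_ι_apply, Option.elim,
        AA.lift_inc, AlgHom.id_apply, FIphi_single, map_one, mul_one]
  · apply AA.hom_ext
    · simp only [AlgHom.comp_apply, AA.lift_tt, FreeAlgebra.lift_ι_apply, Option.elim,
        AlgHom.id_apply]
    · intro m
      simp only [AlgHom.comp_apply, AA.lift_inc, AlgHom.id_apply]
      induction m using Finsupp.induction_linear with
      | zero => simp
      | add f g hf hg => rw [map_add, map_add, hf, hg, map_add]
      | single l f =>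
        rw [FIphi_single, map_mul, FreeAlgebra.lift_ι_apply]
        have h1 : (Finsupp.single l f : L →₀ k[X]) = f • Finsupp.single l 1 := by
          rw [Finsupp.smul_single, smul_eq_mul, mul_one]
        rw [h1, AA.inc_smul, ← Polynomial.aeval_algHom_apply, FreeAlgebra.lift_ι_apply]
        rfl

end Pool.Agent.Lib.MP_5e5727_lc.FA
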