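import Pool.Agent.Lib.MP_5e5727_lc.FA.MDefs

/-!
# FA-LA: disjointification of ladders

`κ` regular, `S = LS κ Λ Q`, `c_a = lad κ a`.
1. Almost disjointness: for `a ≠ a'` in `S`, `#{q | c_a q ∈ range c_{a'}} < κ`.  If `a' < a`: it is
   contained in `{q | c_a q ≤ a'}` (`c_{a'} q' < a'`), use `few` for `a` with `ξ = a'`.  If `a < a'`:
   the set injects (choose `q'` with `c_{a'} q' = c_a q`; injective because `c_a` is) into
   `{q' | c_{a'} q' ≤ a}`, use `few` for `a'`.
2. Let `A ⊆ S` with `#A ≤ κ`; take an injection `e : A → κ.ord.ToType` (a well-order in which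
   every proper initial segment has fewer than `κ` elements: `Cardinal.mk_Iio_ord_toType` or
   similar).  For `a ∈ A` let
   `E a = {q | c_a q ≤ β} ∪ ⋃ (a' ∈ A, e a' < e a), {q | c_a q ∈ range c_{a'}}`
   (`β : WithBot Λ`, `β < a`): a union of fewer than `κ` sets of size `< κ`, so `#(E a) < κ`
   (`κ` regular, `Cardinal.card_biUnion_lt_iff_forall_of_isRegular` or `Cardinal.mk_iUnion_le` and
   `Cardinal.sum_lt_of_isRegular` / `iSup_lt_of_isRegular`).
   `T a = {q | ∃ q₀ ∈ E a, c_a q ≤ c_a q₀}`: again fewer than `κ` (union over `q₀ ∈ E a` of sets of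
   size `< κ` by `few` with `ξ = c_a q₀ < a`).  For `a ∉ A` put `T a = ∅`.
3. `disj`: if `a ≠ a'` in `A`, `q ∉ T a`, `q' ∉ T a'` and `c_a q = c_{a'} q'`: say `e a' < e a`; then
   `q ∈ E a ⊆ T a`, contradiction.
-/

universe u

open Cardinal

namespace Pool.Agent.Lib.MP_5e5727_lc.FA

private theorem LA_ad {κ : Cardinal.{u}} {Λ Q : Type u} [LinearOrder Λ] (a a' : LS κ Λ Q)
    (h : a ≠ a') : #{q : Q | ∃ q', lad κ a q = lad κ a' q'} < κ := by
  have ha := lad_spec κ a
  have ha' := lad_spec κ a'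
  rcases lt_or_gt_of_ne (fun hh => h (Subtype.ext hh) : (a : Λ) ≠ (a' : Λ)) with hlt | hlt
  · refine lt_of_le_of_lt ?_ (ha'.few a hlt)
    refine mk_le_of_injective
      (f := fun q : {q : Q | ∃ q', lad κ a q = lad κ a' q'} =>
        (⟨q.2.choose, by
          rw [← q.2.choose_spec]
          exact (ha.lt _).le⟩ : {q' // lad κ a' q' ≤ (a : Λ)})) ?_
    intro q1 q2 h12
    have h3 : q1.2.choose = q2.2.choose := congrArg Subtype.val h12
    have h4 := q1.2.choose_spec
    have h5 := q2.2.choose_spec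
    rw [h3, ← h5] at h4
    exact Subtype.ext (ha.inj h4)
  · refine lt_of_le_of_lt ?_ (ha.few a' hlt)
    refine mk_le_of_injective
      (f := fun q : {q : Q | ∃ q', lad κ a q = lad κ a' q'} =>
        (⟨q.1, by
          obtain ⟨q', hq'⟩ := q.2
          rw [hq']
          exact (ha'.lt _).le⟩ : {q // lad κ a q ≤ (a' : Λ)})) ?_
    intro q1 q2 h12
    have h3 := congrArg Subtype.val h12
    exact Subtype.ext h3

theorem exists_thresholds {κ : Cardinal.{u}} (hκ : κ.IsRegular) {Λ Q : Type u} [LinearOrder Λ]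
    (A : Set (LS κ Λ Q)) (hA : #A ≤ κ) (β : WithBot Λ)
    (hβ : ∀ a ∈ A, β < ((a : Λ) : WithBot Λ)) :
    ∃ T : LS κ Λ Q → Set Q, (∀ a, #(T a) < κ) ∧ (∀ a, a ∉ A → T a = ∅) ∧
      (∀ a, ∀ q ∈ T a, ∀ q', lad κ a q' ≤ lad κ a q → q' ∈ T a) ∧
      (∀ a ∈ A, ∀ q, ((lad κ a q : Λ) : WithBot Λ) ≤ β → q ∈ T a) ∧
      (∀ a ∈ A, ∀ a' ∈ A, a ≠ a' → ∀ q q', q ∉ T a → q' ∉ T a' → lad κ a q ≠ lad κ a' q') := by
  classical
  have hκ0 : 0 < κ := hκ.pos
  obtain ⟨e⟩ : Nonempty (A ↪ κ.ord.ToType) := by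
    rw [← Cardinal.le_def, mk_ord_toType]
    exact hA
  -- the exceptional sets
  let E : A → Set Q := fun x => {q | ((lad κ x.1 q : Λ) : WithBot Λ) ≤ β} ∪
    ⋃ y : {y : A // e y < e x}, {q | ∃ q', lad κ x.1 q = lad κ y.1.1 q'}
  have hE : ∀ x, #(E x) < κ := by
    intro x
    refine lt_of_le_of_lt (mk_union_le _ _) (add_lt_of_lt hκ.aleph0_le ?_ ?_)
    · have hb := hβ x.1 x.2
      induction β using WithBot.recBotCoe with
      | bot =>
        have : {q : Q | ((lad κ x.1 q : Λ) : WithBot Λ) ≤ ⊥} = ∅ := by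
          ext q
          simp
        rw [this]
        simpa using hκ0
      | coe b =>
        have hb' : b < (x.1 : Λ) := WithBot.coe_lt_coe.1 hb
        refine lt_of_le_of_lt ?_ ((lad_spec κ x.1).few b hb')
        refine mk_le_of_injective
          (f := fun q : {q : Q | ((lad κ x.1 q : Λ) : WithBot Λ) ≤ (b : WithBot Λ)} =>
            (⟨q.1, WithBot.coe_le_coe.1 q.2⟩ : {q // lad κ x.1 q ≤ b})) ?_
        intro q1 q2 h12
        have h3 := congrArg Subtype.val h12
        exact Subtype.ext h3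
    · have hι : #{y : A // e y < e x} < κ := by
        have h1 : #(Set.Iio (e x)) < #κ.ord.ToType := mk_Iio_lt (e x) (by simp)
        rw [mk_ord_toType] at h1
        refine lt_of_le_of_lt ?_ h1
        refine mk_le_of_injective (f := fun y : {y : A // e y < e x} =>
          (⟨e y.1, y.2⟩ : Set.Iio (e x))) ?_
        intro y1 y2 h12
        exact Subtype.ext (e.injective (congrArg Subtype.val h12))
      rw [card_iUnion_lt_iff_forall_of_isRegular hκ hι]
      intro y
      refine LA_ad x.1 y.1.1 ?_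
      intro hxy
      have hxy' : x = y.1 := Subtype.ext hxy
      have hlt := y.2
      have h2 : e y.1 = e x := congrArg e hxy'.symm
      exact absurd hlt (not_lt_of_ge h2.ge)
  let T' : A → Set Q := fun x => {q | ∃ q₀ ∈ E x, lad κ x.1 q ≤ lad κ x.1 q₀}
  have hT' : ∀ x, #(T' x) < κ := by
    intro x
    have h1 : T' x = ⋃ q₀ : E x, {q | lad κ x.1 q ≤ lad κ x.1 q₀.1} := by
      ext q
      simp only [T', Set.mem_ofPred_eq, Set.mem_iUnion]
      constructor
      · rintro ⟨q₀, h, h'⟩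
        exact ⟨⟨q₀, h⟩, h'⟩
      · rintro ⟨q₀, h⟩
        exact ⟨q₀.1, q₀.2, h⟩
    rw [h1, card_iUnion_lt_iff_forall_of_isRegular hκ (hE x)]
    intro q₀
    exact (lad_spec κ x.1).few _ ((lad_spec κ x.1).lt q₀.1)
  refine ⟨fun a => if h : a ∈ A then T' ⟨a, h⟩ else ∅, ?_, ?_, ?_, ?_, ?_⟩
  · intro a
    by_cases h : a ∈ A
    · simp only [h, dif_pos]
      exact hT' _
    · simp only [h, dif_neg, not_false_eq_true]
      simpa using hκ0
  · intro a h
    simp only [h, dif_neg, not_false_eq_true]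
  · intro a q hq q' hq'
    by_cases h : a ∈ A
    · simp only [h, dif_pos] at hq ⊢
      obtain ⟨q₀, h1, h2⟩ := hq
      exact ⟨q₀, h1, hq'.trans h2⟩
    · simp only [h, dif_neg, not_false_eq_true] at hq
      exact absurd hq (Set.notMem_empty _)
  · intro a h q hq
    simp only [h, dif_pos]
    exact ⟨q, Or.inl hq, le_refl _⟩
  · intro a ha a' ha' hne q q' hq hq' heq
    simp only [ha, dif_pos] at hq
    simp only [ha', dif_pos] at hq'
    rcases lt_trichotomy (e ⟨a, ha⟩) (e ⟨a', ha'⟩) with hlt | he | hlt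
    · apply hq'
      refine ⟨q', Or.inr ?_, le_refl _⟩
      rw [Set.mem_iUnion]
      exact ⟨⟨⟨a, ha⟩, hlt⟩, ⟨q, heq.symm⟩⟩
    · have := e.injective he
      exact hne (congrArg Subtype.val this)
    · apply hq
      refine ⟨q, Or.inr ?_, le_refl _⟩
      rw [Set.mem_iUnion]
      exact ⟨⟨⟨a', ha'⟩, hlt⟩, ⟨q', heq⟩⟩

end Pool.Agent.Lib.MP_5e5727_lc.FA
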