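import Pool.Agent.Lib.MP_5e5727_lc.FA.Defs

/-!
# FA-LG: Karp's theorem for `L_{∞,κ}` (back-and-forth systems)
-/

universe u

open Cardinal

namespace Pool.Agent.Lib.MP_5e5727_lc

variable {k : Type u} [Field k]

theorem Tm.eval_map {V A B : Type u} [Ring A] [Algebra k A] [Ring B] [Algebra k B] (f : A →ₐ[k] B)
    (a : V → A) (t : Tm k V) : t.eval (fun v => f (a v)) = f (t.eval a) := by
  induction t with
  | var x => rfl
  | zero => exact (map_zero f).symm
  | one => exact (map_one f).symm
  | add s t hs ht =>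
    show s.eval (fun v => f (a v)) + t.eval (fun v => f (a v)) = f (s.eval a + t.eval a)
    rw [hs, ht, map_add]
  | mul s t hs ht =>
    show s.eval (fun v => f (a v)) * t.eval (fun v => f (a v)) = f (s.eval a * t.eval a)
    rw [hs, ht, map_mul]
  | smul c t ht =>
    show c • t.eval (fun v => f (a v)) = f (c • t.eval a)
    rw [ht, map_smul]

/-- A back-and-forth system for `L_{∞,κ}`. -/
structure BF (k : Type u) [Field k] (A B : Type u) [Ring A] [Algebra k A] [Ring B] [Algebra k B]
    (κ : Cardinal.{u}) (I : (V : Type u) → (V → A) → (V → B) → Prop) : Prop where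
  atomic : ∀ (V : Type u) (a : V → A) (b : V → B), I V a b → ∀ s t : Tm k V,
    s.eval a = t.eval a ↔ s.eval b = t.eval b
  forth : ∀ (V : Type u) (a : V → A) (b : V → B), I V a b → ∀ W : Type u, #W < κ →
    ∀ a' : W → A, ∃ b' : W → B, I (V ⊕ W) (Sum.elim a a') (Sum.elim b b')
  back : ∀ (V : Type u) (a : V → A) (b : V → B), I V a b → ∀ W : Type u, #W < κ →
    ∀ b' : W → B, ∃ a' : W → A, I (V ⊕ W) (Sum.elim a a') (Sum.elim b b')

theorem sat_iff_of_bf {A B : Type u} [Ring A] [Algebra k A] [Ring B] [Algebra k B]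
    {κ : Cardinal.{u}} {I : (V : Type u) → (V → A) → (V → B) → Prop} (h : BF k A B κ I)
    {V : Type u} (φ : Fm k V) (hφ : φ.InL κ) (a : V → A) (b : V → B) (hI : I V a b) :
    φ.Sat A a ↔ φ.Sat B b := by
  induction φ with
  | eq s t => exact h.atomic _ a b hI s t
  | neg φ ih => exact not_congr (ih hφ a b hI)
  | conj ι φ ih => exact forall_congr' fun i => ih i (hφ i) a b hI
  | all W φ ih =>
    obtain ⟨hW, hφ'⟩ := hφ
    constructor
    · intro hA b'
      obtain ⟨a', ha'⟩ := h.back _ a b hI W hW b'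
      exact (ih hφ' _ _ ha').1 (hA a')
    · intro hB a'
      obtain ⟨b', hb'⟩ := h.forth _ a b hI W hW a'
      exact (ih hφ' _ _ hb').2 (hB b')

theorem sat_iso {A B : Type u} [Ring A] [Algebra k A] [Ring B] [Algebra k B] (e : A ≃ₐ[k] B)
    {V : Type u} (φ : Fm k V) (a : V → A) : φ.Sat A a ↔ φ.Sat B (fun v => e (a v)) := by
  induction φ with
  | eq s t =>
    have h1 := Tm.eval_map (e : A →ₐ[k] B) a s
    have h2 := Tm.eval_map (e : A →ₐ[k] B) a t
    show s.eval a = t.eval a ↔ s.eval (fun v => e (a v)) = t.eval (fun v => e (a v))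
    have h1' : s.eval (fun v => e (a v)) = e (s.eval a) := h1
    have h2' : t.eval (fun v => e (a v)) = e (t.eval a) := h2
    rw [h1', h2', e.injective.eq_iff]
  | neg φ ih => exact not_congr (ih a)
  | conj ι φ ih => exact forall_congr' fun i => ih i a
  | all W φ ih =>
    constructor
    · intro hA w'
      have h1 := (ih (Sum.elim a (fun w => e.symm (w' w)))).1 (hA _)
      have h2 : (fun v => e (Sum.elim a (fun w => e.symm (w' w)) v)) =
          Sum.elim (fun v => e (a v)) w' := by
        funext v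
        cases v with
        | inl v => rfl
        | inr w => exact e.apply_symm_apply (w' w)
      rw [h2] at h1
      exact h1
    · intro hB w
      refine (ih (Sum.elim a w)).2 ?_
      have h2 : (fun v => e (Sum.elim a w v)) = Sum.elim (fun v => e (a v)) (fun x => e (w x)) := by
        funext v
        cases v with
        | inl v => rfl
        | inr w => rfl
      rw [h2]
      exact hB _

theorem InL_mono {κ κ' : Cardinal.{u}} (h : κ ≤ κ') {V : Type u} (φ : Fm k V) (hφ : φ.InL κ) :
    φ.InL κ' := by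
  induction φ with
  | eq s t => exact trivial
  | neg φ ih => exact ih hφ
  | conj ι φ ih => exact fun i => ih i (hφ i)
  | all W φ ih => exact ⟨lt_of_lt_of_le hφ.1 h, ih hφ.2⟩

theorem AxiomatizableIn.mono {κ κ' : Cardinal.{u}} (h : κ ≤ κ') (hk : AxiomatizableIn k κ) :
    AxiomatizableIn k κ' := by
  obtain ⟨T, hT, hA⟩ := hk
  exact ⟨T, fun φ hφ => InL_mono h φ (hT φ hφ), hA⟩

end Pool.Agent.Lib.MP_5e5727_lc
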