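import Pool.Agent.Lib.MP_5e5727_lc.FA.MDefs

/-!
# FA-PID: submodules of free modules over a principal ideal domain are free (infinite rank)

Proof.  Well-order `B` (`exists_wellOrder` or `WellOrderingRel`; get `LinearOrder B`,
`WellFoundedLT B`).  For `b : B` let `N_b` be the set of `x ∈ N` with `x c = 0` for all `c > b`, and
`I_b = {x b | x ∈ N_b}`, an ideal of `R`, so `I_b = span {a_b}` (`IsPrincipalIdealRing.principal`);
choose `n_b ∈ N_b` with `n_b b = a_b`.  Let `T = {b | a_b ≠ 0}`.
* `(n_b)_{b ∈ T}` is linearly independent: in `∑ f_b n_b = 0` with `f ≠ 0` look at the coordinate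
  `b₀` = the largest `b` with `f_b ≠ 0`: it is `f_{b₀} a_{b₀} ≠ 0`.
* it spans `N`: well-founded induction on the largest element `b` of the support of `x ∈ N`
  (`x = 0` is clear): `x ∈ N_b`, `x b ≠ 0`, `x b = r a_b`, so `a_b ≠ 0`, `b ∈ T` and `x - r n_b ∈ N`
  has all its support below `b`.
`free_of_injective`: apply it to the range of `f` (`LinearEquiv.ofInjective`).
-/

universe u

open Cardinal

namespace Pool.Agent.Lib.MP_5e5727_lc.FA

variable {R : Type u} [CommRing R] [IsDomain R] [IsPrincipalIdealRing R]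

omit [IsDomain R] in
private theorem pid_data {B : Type u} [LinearOrder B] (N : Submodule R (B →₀ R)) :
    ∃ (a : B → R) (n : B → N), (∀ b, (n b : B →₀ R) ∈ Finsupp.supported R R (Set.Iic b)) ∧
      (∀ b, (n b : B →₀ R) b = a b) ∧
      ∀ b, ∀ x : N, (x : B →₀ R) ∈ Finsupp.supported R R (Set.Iic b) →
        ∃ r : R, (x : B →₀ R) b = r * a b := by
  have h1 : ∀ b, ∃ a : R, Submodule.map (Finsupp.lapply b)
      (N ⊓ Finsupp.supported R R (Set.Iic b)) = Submodule.span R {a} := fun b =>
    (IsPrincipalIdealRing.principal (Submodule.map (Finsupp.lapply b)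
      (N ⊓ Finsupp.supported R R (Set.Iic b)) : Ideal R)).principal
  choose a ha using h1
  have h2 : ∀ b, ∃ x : N, (x : B →₀ R) ∈ Finsupp.supported R R (Set.Iic b) ∧
      (x : B →₀ R) b = a b := by
    intro b
    have h3 : a b ∈ Submodule.map (Finsupp.lapply b)
        (N ⊓ Finsupp.supported R R (Set.Iic b)) := by
      rw [ha b]
      exact Submodule.mem_span_singleton_self _
    obtain ⟨x, hx, hxa⟩ := h3
    exact ⟨⟨x, hx.1⟩, hx.2, hxa⟩
  choose n hn hna using h2
  refine ⟨a, n, hn, hna, fun b x hx => ?_⟩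
  have h3 : (x : B →₀ R) b ∈ Submodule.map (Finsupp.lapply b)
      (N ⊓ Finsupp.supported R R (Set.Iic b)) := ⟨x, ⟨x.2, hx⟩, rfl⟩
  rw [ha b, Submodule.mem_span_singleton] at h3
  obtain ⟨r, hr⟩ := h3
  exact ⟨r, by rw [← hr, smul_eq_mul]⟩

omit [IsDomain R] [IsPrincipalIdealRing R] in
private theorem pid_max {B : Type u} [LinearOrder B] {y : B →₀ R} (hy : y ≠ 0) :
    ∃ c, y c ≠ 0 ∧ y ∈ Finsupp.supported R R (Set.Iic c) := by
  have h1 : y.support.Nonempty := Finsupp.support_nonempty_iff.2 hy
  refine ⟨y.support.max' h1, Finsupp.mem_support_iff.1 (Finset.max'_mem _ h1), ?_⟩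
  rw [Finsupp.mem_supported]
  intro d hd
  exact Finset.le_max' _ _ hd

theorem submodule_basis {B : Type u} (N : Submodule R (B →₀ R)) :
    ∃ (T : Set B), Nonempty (Module.Basis T R N) := by
  classical
  obtain ⟨instL, instW⟩ := exists_wellFoundedLT B
  obtain ⟨a, n, hn, hna, hdiv⟩ := pid_data N
  have hzero : ∀ b c, b < c → (n b : B →₀ R) c = 0 := by
    intro b c hbc
    have h1 := hn b
    rw [Finsupp.mem_supported] at h1
    by_contra h2
    have h3 : c ∈ Set.Iic b := h1 (Finsupp.mem_support_iff.2 h2)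
    exact absurd h3 (not_le.2 hbc)
  have hli : LinearIndependent R (fun b : {b | a b ≠ 0} => (n b : B →₀ R)) := by
    rw [linearIndependent_iff']
    intro s g hg i hi
    by_contra hgi
    have hne : (s.filter fun j => g j ≠ 0).Nonempty := ⟨i, Finset.mem_filter.2 ⟨hi, hgi⟩⟩
    obtain ⟨b₀, hb₁, hb₂⟩ := Finset.exists_max_image (s.filter fun j => g j ≠ 0)
      (fun j => (j : B)) hne
    rw [Finset.mem_filter] at hb₁
    have h2 : ∀ j ∈ s, g j ≠ 0 → (j : B) ≤ b₀ := fun j hj hgj =>
      hb₂ _ (Finset.mem_filter.2 ⟨hj, hgj⟩)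
    have h3 : (∑ j ∈ s, g j • (n j : B →₀ R)) b₀ = 0 := by
      rw [hg]
      rfl
    rw [Finsupp.finsetSum_apply, Finset.sum_eq_single b₀] at h3
    · rw [Finsupp.smul_apply, smul_eq_mul, hna] at h3
      rcases mul_eq_zero.1 h3 with h4 | h4
      · exact hb₁.2 h4
      · exact b₀.2 h4
    · intro j hj hjb
      rw [Finsupp.smul_apply, smul_eq_mul]
      by_cases hgj : g j = 0
      · rw [hgj, zero_mul]
      · have h4 : (j : B) < b₀ := lt_of_le_of_ne (h2 j hj hgj) fun h => hjb (Subtype.ext h)
        rw [hzero j b₀ h4, mul_zero]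
    · intro h4
      exact absurd hb₁.1 h4
  refine ⟨{b | a b ≠ 0}, ⟨Module.Basis.mk (v := fun b : {b | a b ≠ 0} => n b)
    (LinearIndependent.of_comp N.subtype hli) ?_⟩⟩
  · have hspan : ∀ b, ∀ x : N, (x : B →₀ R) ∈ Finsupp.supported R R (Set.Iic b) →
        x ∈ Submodule.span R (Set.range fun b : {b | a b ≠ 0} => n b) := by
      intro b
      induction b using WellFoundedLT.induction with
      | ind b ih =>
        intro x hx
        have key : ∀ y : N, (y : B →₀ R) ∈ Finsupp.supported R R (Set.Iic b) →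
            (y : B →₀ R) b = 0 →
            y ∈ Submodule.span R (Set.range fun b : {b | a b ≠ 0} => n b) := by
          intro y hy hyb
          by_cases hy0 : (y : B →₀ R) = 0
          · have : y = 0 := Subtype.ext hy0
            rw [this]
            exact Submodule.zero_mem _
          · obtain ⟨c, hc, hcs⟩ := pid_max hy0
            rw [Finsupp.mem_supported] at hy
            have h1 : c ≤ b := hy (Finsupp.mem_support_iff.2 hc)
            have h2 : c ≠ b := by
              rintro rfl
              exact hc hyb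
            exact ih c (lt_of_le_of_ne h1 h2) y hcs
        obtain ⟨r, hr⟩ := hdiv b x hx
        by_cases hab : a b = 0
        · exact key x hx (by rw [hr, hab, mul_zero])
        · have h1 : x - r • n b ∈ Submodule.span R (Set.range fun b : {b | a b ≠ 0} => n b) := by
            apply key
            · rw [Submodule.coe_sub, Submodule.coe_smul]
              exact Submodule.sub_mem _ hx (Submodule.smul_mem _ _ (hn b))
            · rw [Submodule.coe_sub, Submodule.coe_smul, Finsupp.sub_apply, Finsupp.smul_apply,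
                hna, smul_eq_mul, hr, sub_self]
          have h2 : r • n b ∈ Submodule.span R (Set.range fun b : {b | a b ≠ 0} => n b) :=
            Submodule.smul_mem _ _ (Submodule.subset_span ⟨⟨b, hab⟩, rfl⟩)
          have h3 := Submodule.add_mem _ h1 h2
          have h4 : x - r • n b + r • n b = x :=
            Subtype.ext (by rw [Submodule.coe_add, Submodule.coe_sub, sub_add_cancel])
          rwa [h4] at h3
    intro x _
    by_cases hx0 : (x : B →₀ R) = 0
    · have : x = 0 := Subtype.ext hx0
      rw [this]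
      exact Submodule.zero_mem _
    · obtain ⟨c, -, hcs⟩ := pid_max hx0
      exact hspan c x hcs

theorem basis_of_injective {B M : Type u} [AddCommGroup M] [Module R M]
    (f : M →ₗ[R] (B →₀ R)) (hf : Function.Injective f) :
    ∃ (T : Set B), Nonempty (Module.Basis T R M) := by
  obtain ⟨T, ⟨bas⟩⟩ := submodule_basis (LinearMap.range f)
  exact ⟨T, ⟨bas.map (LinearEquiv.ofInjective f hf).symm⟩⟩

end Pool.Agent.Lib.MP_5e5727_lc.FA
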