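import Pool.Agent.Lib.MP_5e5727_lc.FA.SI
import Pool.Agent.Lib.MP_5e5727_lc.FA.CL
import Pool.Agent.Lib.MP_5e5727_lc.FA.PID

/-!
# FA-SN: the next module is not embeddable in a free module

Suppose `f : (Gen →₀ R) →ₗ (B →₀ R)` has kernel `span (range rho)`.
For `γ : Λ` let `B_γ = ⋃ g ∈ GenLE γ, (f (single g 1)).support ⊆ B`; `#(GenLE γ) ≤ κ` (`Good.few`,
`#G ≤ κ`), so `#B_γ ≤ κ`.  Let `K_γ = {x | f x ∈ supported B_γ}` (a submodule); `f` induces an
injection of `f(K_γ)` in `supported B_γ ≃ (B_γ →₀ R)`, so by `submodule_basis` the module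
`f(K_γ)` (a submodule of `B_γ →₀ R`) has a basis indexed by a subset of `B_γ`; choose preimages
`x_t ∈ Gen →₀ R` of the basis vectors: at most `κ` many, each with finite support, so there is
`F γ : Λ` (`Good.bdd`) such that all `x_t` are supported in `GenLE (F γ)`.  So
  (*) every `x` with `f x ∈ supported B_γ` lies in `supported (GenLE (F γ)) + ker f`.
Let `s : Λ → Λ` with `s γ > γ` (`Good.bdd`), and apply `exists_closed` to `γ ↦ max (F γ) (s γ)`: a
point `a ∈ S = LS κ Λ Q` with `F γ < a` and `s γ < a` for all `γ < a`.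
Let `B_a = ⋃ γ < a, B_γ`, `π : (B →₀ R) → (B_aᶜ →₀ R)` the restriction (a linear map with kernel
`supported B_a`), `y ∈ G →₀ R`, `h y = π (f (copy a y))`.  Claim: `ker h = span (range E.r)`,
contradiction to `E.nonemb`.
* `⊇`: `copy a (r q) = rho (a, q) + x_{c_a q}`, `f (rho) = 0`, and `c_a q < a`: `f (x_{c_a q})` is
  supported in `B_{c_a q} ⊆ B_a`.
* `⊆`: `h y = 0` means `f (copy a y) ∈ supported B_a`; the support is finite and `a` is a limit
  (`s γ < a`), so it is contained in `B_γ` for some `γ < a` (if the support is empty any `γ < a`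
  will do; `a` has elements below it: if `Q` is empty then ... use `s`: if there is no `γ < a`, then
  `f (copy a y) = 0`, so `copy a y ∈ ker f`, fine).  By (*), `copy a y ∈ supported (GenLE (F γ)) +
  ker f`, and `F γ < a`: so `copy a y ∈ supported (GenLT a) ⊔ span (range rho)`; `ker_copy`.
-/

universe u

open Cardinal

namespace Pool.Agent.Lib.MP_5e5727_lc.FA

variable {R : Type u} [CommRing R] [IsDomain R] [IsPrincipalIdealRing R] {κ : Cardinal.{u}}
  (E : Pres R κ) (Λ : Type u) [LinearOrder Λ]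

/-- the level of a generator -/
private def snLv : Gen E Λ → Λ
  | Sum.inl γ => γ
  | Sum.inr (a, _) => a

omit [IsDomain R] [IsPrincipalIdealRing R] in
private theorem sn_mem (g : Gen E Λ) (γ : Λ) :
    g ∈ GenLE E Λ (γ : WithBot Λ) ↔ snLv E Λ g ≤ γ := by
  rcases g with γ' | ⟨a, g⟩
  · exact WithBot.coe_le_coe
  · exact WithBot.coe_le_coe

omit [IsDomain R] [IsPrincipalIdealRing R] in
private theorem sn_card (hκ : κ.IsRegular) (h : Good κ Λ) (γ : Λ) :
    #(GenLE E Λ (γ : WithBot Λ)) ≤ κ := by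
  have h1 : #(GenLE E Λ (γ : WithBot Λ)) ≤
      #({b : Λ // b ≤ γ} ⊕ ({b : Λ // b ≤ γ} × E.G)) := by
    refine mk_le_of_injective (f := fun g : GenLE E Λ (γ : WithBot Λ) =>
      match g with
      | ⟨Sum.inl γ', hg⟩ => Sum.inl ⟨γ', WithBot.coe_le_coe.1 hg⟩
      | ⟨Sum.inr (a, g), hg⟩ => Sum.inr (⟨(a : Λ), WithBot.coe_le_coe.1 hg⟩, g)) ?_
    rintro ⟨g1 | ⟨a1, g1⟩, h1⟩ ⟨g2 | ⟨a2, g2⟩, h2⟩ h12
    · simp only [Sum.inl.injEq, Subtype.mk.injEq] at h12
      subst h12
      rfl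
    · simp only [reduceCtorEq] at h12
    · simp only [reduceCtorEq] at h12
    · simp only [Sum.inr.injEq, Prod.mk.injEq, Subtype.mk.injEq] at h12
      obtain ⟨h3, h4⟩ := h12
      have h5 : a1 = a2 := Subtype.ext h3
      subst h5
      subst h4
      rfl
  refine h1.trans ?_
  have h2 := h.few γ
  rw [← add_def, ← mul_def]
  refine (add_le_add h2 (mul_le_mul' h2 E.hG)).trans ?_
  rw [mul_eq_self hκ.aleph0_le, add_eq_self hκ.aleph0_le]

/-- the coordinates used by the generators up to `γ` -/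
private def snB {B : Type u} (f : (Gen E Λ →₀ R) →ₗ[R] (B →₀ R)) (γ : Λ) : Set B :=
  {b | ∃ g ∈ GenLE E Λ (γ : WithBot Λ), f (Finsupp.single g 1) b ≠ 0}

omit [IsDomain R] [IsPrincipalIdealRing R] in
private theorem snB_mono {B : Type u} (f : (Gen E Λ →₀ R) →ₗ[R] (B →₀ R)) {γ γ' : Λ}
    (h : γ ≤ γ') : snB E Λ f γ ⊆ snB E Λ f γ' := by
  rintro b ⟨g, hg, hb⟩
  exact ⟨g, (sn_mem E Λ g γ').2 (((sn_mem E Λ g γ).1 hg).trans h), hb⟩

omit [IsDomain R] [IsPrincipalIdealRing R] in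
private theorem snB_card (hκ : κ.IsRegular) (h : Good κ Λ) {B : Type u}
    (f : (Gen E Λ →₀ R) →ₗ[R] (B →₀ R)) (γ : Λ) : #(snB E Λ f γ) ≤ κ := by
  have h1 : snB E Λ f γ ⊆ ⋃ g : GenLE E Λ (γ : WithBot Λ),
      ((f (Finsupp.single (g : Gen E Λ) 1)).support : Set B) := by
    rintro b ⟨g, hg, hb⟩
    rw [Set.mem_iUnion]
    exact ⟨⟨g, hg⟩, Finsupp.mem_support_iff.2 hb⟩
  refine (mk_le_mk_of_subset h1).trans ((mk_iUnion_le _).trans ?_)
  have h2 : (⨆ g : GenLE E Λ (γ : WithBot Λ),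
      #((f (Finsupp.single (g : Gen E Λ) 1)).support : Set B)) ≤ ℵ₀ := by
    refine ciSup_le' fun g => ?_
    exact (lt_aleph0_of_finite _).le
  refine (mul_le_mul' (sn_card E Λ hκ h γ) (h2.trans hκ.aleph0_le)).trans ?_
  rw [mul_eq_self hκ.aleph0_le]

private theorem sn_star (hκ : κ.IsRegular) (h : Good κ Λ) {B : Type u}
    (f : (Gen E Λ →₀ R) →ₗ[R] (B →₀ R)) (γ : Λ) :
    ∃ F : Λ, ∀ x, f x ∈ Finsupp.supported R R (snB E Λ f γ) →
      x ∈ Finsupp.supported R R (GenLE E Λ (F : WithBot Λ)) ⊔ LinearMap.ker f := by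
  classical
  let S := Finsupp.supported R R (snB E Λ f γ)
  let N := Submodule.comap f S
  let g0 : N →ₗ[R] S := (f.comp N.subtype).codRestrict S fun x => x.2
  let g : N →ₗ[R] (snB E Λ f γ →₀ R) :=
    ((Finsupp.supportedEquivFinsupp (R := R) (M := R) (snB E Λ f γ)) : S →ₗ[R] _).comp g0
  obtain ⟨T, ⟨bas⟩⟩ := submodule_basis (LinearMap.range g)
  have hx : ∀ t : T, ∃ x : N, g x = bas t := fun t => (bas t).2
  choose x hx using hx
  have hTc : #T ≤ κ := (mk_set_le T).trans (snB_card E Λ hκ h f γ)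
  let A : Set Λ := ⋃ t : T, ((x t : Gen E Λ →₀ R).support.image (snLv E Λ) : Set Λ)
  have hA : #A ≤ κ := by
    refine (mk_iUnion_le _).trans ?_
    have h2 : (⨆ t : T, #((x t : Gen E Λ →₀ R).support.image (snLv E Λ) : Set Λ)) ≤ ℵ₀ := by
      refine ciSup_le' fun t => ?_
      exact (lt_aleph0_of_finite _).le
    refine (mul_le_mul' hTc (h2.trans hκ.aleph0_le)).trans ?_
    rw [mul_eq_self hκ.aleph0_le]
  obtain ⟨F, hF⟩ := h.bdd A hA
  refine ⟨F, fun y hy => ?_⟩
  have hxs : ∀ t, (x t : Gen E Λ →₀ R) ∈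
      Finsupp.supported R R (GenLE E Λ (F : WithBot Λ)) := by
    intro t
    rw [Finsupp.mem_supported]
    intro g' hg'
    rw [sn_mem]
    refine (hF _ ?_).le
    rw [Set.mem_iUnion]
    exact ⟨t, Finset.mem_coe.2 (Finset.mem_image_of_mem _ hg')⟩
  let y' : N := ⟨y, hy⟩
  let c := bas.repr ⟨g y', ⟨y', rfl⟩⟩
  have hc : (c.sum fun t r => r • bas t) = ⟨g y', ⟨y', rfl⟩⟩ := bas.linearCombination_repr _
  let z : N := c.sum fun t r => r • x t
  have hz : g z = g y' := by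
    have h3 : ((c.sum fun t r => r • bas t : LinearMap.range g) : snB E Λ f γ →₀ R) = g y' :=
      congrArg Subtype.val hc
    rw [← h3]
    simp only [z, Finsupp.sum, map_sum, map_smul, hx]
    rw [Submodule.coe_sum]
    rfl
  have hf : f (z : Gen E Λ →₀ R) = f y := by
    have h4 : g0 z = g0 y' :=
      (Finsupp.supportedEquivFinsupp (R := R) (M := R) (snB E Λ f γ)).injective hz
    exact congrArg Subtype.val h4
  have hzs : (z : Gen E Λ →₀ R) ∈ Finsupp.supported R R (GenLE E Λ (F : WithBot Λ)) := by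
    simp only [z, Finsupp.sum]
    rw [Submodule.coe_sum]
    refine Submodule.sum_mem _ fun t _ => ?_
    rw [Submodule.coe_smul]
    exact Submodule.smul_mem _ _ (hxs t)
  refine Submodule.mem_sup.2 ⟨z, hzs, y - z, ?_, by abel⟩
  rw [LinearMap.mem_ker, map_sub, hf, sub_self]

theorem next_nonemb (hκ : κ.IsRegular) (h : Good κ Λ) (B : Type u)
    (f : (Gen E Λ →₀ R) →ₗ[R] (B →₀ R)) :
    LinearMap.ker f ≠ Submodule.span R (Set.range (rho E Λ)) := by
  classical
  intro hker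
  choose F hF using sn_star E Λ hκ h f
  have hs : ∀ γ : Λ, ∃ δ, γ < δ := by
    intro γ
    obtain ⟨δ, hδ⟩ := h.bdd {γ} (by
      rw [mk_singleton]
      exact one_le_aleph0.trans hκ.aleph0_le)
    exact ⟨δ, hδ γ rfl⟩
  choose s hs using hs
  obtain ⟨a, haS, ha⟩ := exists_closed hκ h E.hQ (fun γ => max (F γ) (s γ))
  let a' : LS κ Λ E.Q := ⟨a, haS⟩
  let Ba : Set B := {b | ∃ γ < a, b ∈ snB E Λ f γ}
  let hh : (E.G →₀ R) →ₗ[R] ((Baᶜ : Set B) →₀ R) :=
    (Finsupp.lsubtypeDomain (Baᶜ)).comp (f.comp (copy E Λ a'))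
  have hh_apply : ∀ y (b : (Baᶜ : Set B)), hh y b = f (copy E Λ a' y) b := fun y b => rfl
  refine E.nonemb _ hh (le_antisymm ?_ ?_)
  · intro y hy
    rw [LinearMap.mem_ker] at hy
    have h1 : ∀ b, f (copy E Λ a' y) b ≠ 0 → b ∈ Ba := by
      intro b hb
      by_contra hcon
      apply hb
      rw [← hh_apply y ⟨b, hcon⟩, hy]
      rfl
    refine ker_copy E Λ hκ.aleph0_le a' y ?_
    rw [← hker]
    by_cases hz : f (copy E Λ a' y) = 0
    · exact Submodule.mem_sup_right (LinearMap.mem_ker.2 hz)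
    · have hne : (f (copy E Λ a' y)).support.Nonempty := Finsupp.support_nonempty_iff.2 hz
      have h2 : ∀ b, ∃ γ : Λ, f (copy E Λ a' y) b ≠ 0 → γ < a ∧ b ∈ snB E Λ f γ := by
        intro b
        by_cases hb : f (copy E Λ a' y) b ≠ 0
        · obtain ⟨γ, h3, h4⟩ := h1 b hb
          exact ⟨γ, fun _ => ⟨h3, h4⟩⟩
        · exact ⟨a, fun h => absurd h hb⟩
      choose γ hγ using h2
      obtain ⟨b0, hb0, hmax⟩ := Finset.exists_max_image (f (copy E Λ a' y)).support γ hne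
      have h3 : f (copy E Λ a' y) ∈ Finsupp.supported R R (snB E Λ f (γ b0)) := by
        rw [Finsupp.mem_supported]
        intro b hb
        exact snB_mono E Λ f (hmax b hb) (hγ b (Finsupp.mem_support_iff.1 hb)).2
      have h4 := hF (γ b0) _ h3
      have h5 : F (γ b0) < a :=
        lt_of_le_of_lt (le_max_left _ _) (ha _ (hγ b0 (Finsupp.mem_support_iff.1 hb0)).1)
      have h7 : GenLE E Λ ((F (γ b0) : Λ) : WithBot Λ) ⊆ GenLT E Λ (a' : Λ) := ?_
      · exact (sup_le_sup (Finsupp.supported_mono (M := R) (R := R) h7)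
          (le_refl (LinearMap.ker f))) h4
      intro g hg
      have h6 := lt_of_le_of_lt ((sn_mem E Λ g _).1 hg) h5
      rcases g with γ' | ⟨b, g⟩
      · exact h6
      · exact h6
  · rw [Submodule.span_le]
    rintro _ ⟨q, rfl⟩
    rw [SetLike.mem_coe, LinearMap.mem_ker]
    have h1 : f (rho E Λ (a', q)) = 0 := by
      rw [← LinearMap.mem_ker, hker]
      exact Submodule.subset_span ⟨_, rfl⟩
    have h2 : copy E Λ a' (E.r q) =
        rho E Λ (a', q) + Finsupp.single (Sum.inl (lad κ a' q)) 1 := by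
      simp only [rho]
      abel
    ext b
    rw [hh_apply, h2, map_add, h1, zero_add, Finsupp.zero_apply]
    by_contra hcon
    exact b.2 ⟨lad κ a' q, (lad_spec κ a').lt q, _, (sn_mem E Λ _ _).2 (le_refl _), hcon⟩

end Pool.Agent.Lib.MP_5e5727_lc.FA
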