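import Pool.Agent.Lib.MP_5e5727_lc.FA.SB

/-!
# FA-SP: small sets of relations of the next module are part of a basis

`J` with `#J < κ⁺`, i.e. `#J ≤ κ`.  `A = Prod.fst '' J`, `β = ⊥`; `exists_adapted` gives the basis
`w`, indexed by `I = Λ ⊕ Σ a, (T a ⊕ D a)`.  Injection `J → I`: `(a, q) ↦ inr ⟨a, inl q⟩` if
`q ∈ T a`, and `inl (c_a q)` otherwise (injective by `rep_inj`); `w` of it is `rho (a, q)` resp.
`- rho (a, q)`.  Change the signs (`Module.Basis.unitsSMul` or `isUnitSMul`) and reindex by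
`I ≃ J ⊕ D`, `D` the complement of the image (`Equiv.Set.sumCompl`, `Equiv.ofInjective`).
-/

universe u

open Cardinal

namespace Pool.Agent.Lib.MP_5e5727_lc.FA

variable {R : Type u} [CommRing R] {κ : Cardinal.{u}} (E : Pres R κ) (Λ : Type u) [LinearOrder Λ]

theorem next_basic (hκ : κ.IsRegular) (h : Good κ Λ) (J : Set (LS κ Λ E.Q × E.Q))
    (hJ : #J < Order.succ κ) :
    ∃ (D : Type u) (b : Module.Basis (J ⊕ D) R (Gen E Λ →₀ R)),
      ∀ j : J, b (Sum.inl j) = rho E Λ j := by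
  classical
  obtain ⟨P⟩ := exists_adapted E Λ hκ h.wf J ⊥ (Prod.fst '' J)
    (Cardinal.mk_image_le.trans (Order.lt_succ_iff.1 hJ)) (fun j hj => ⟨j, hj, rfl⟩)
    (fun a _ => WithBot.bot_lt_coe _)
  set e : J → (Λ ⊕ Σ a, (P.T a ⊕ P.D a)) := fun j =>
    if hq : (j : LS κ Λ E.Q × E.Q).2 ∈ P.T (j : LS κ Λ E.Q × E.Q).1 then
      Sum.inr ⟨(j : LS κ Λ E.Q × E.Q).1, Sum.inl ⟨(j : LS κ Λ E.Q × E.Q).2, hq⟩⟩
    else Sum.inl (lad κ (j : LS κ Λ E.Q × E.Q).1 (j : LS κ Λ E.Q × E.Q).2) with he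
  have he1 : ∀ (a : LS κ Λ E.Q) (q : E.Q) (hj : (a, q) ∈ J) (hq : q ∈ P.T a),
      e ⟨(a, q), hj⟩ = Sum.inr ⟨a, Sum.inl ⟨q, hq⟩⟩ := by
    intro a q hj hq
    simp only [he]
    rw [dif_pos hq]
  have he2 : ∀ (a : LS κ Λ E.Q) (q : E.Q) (hj : (a, q) ∈ J) (hq : q ∉ P.T a),
      e ⟨(a, q), hj⟩ = Sum.inl (lad κ a q) := by
    intro a q hj hq
    simp only [he]
    rw [dif_neg hq]
  have hinj : Function.Injective e := by
    rintro ⟨⟨a, q⟩, hj⟩ ⟨⟨a', q'⟩, hj'⟩ hee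
    by_cases hq : q ∈ P.T a
    · by_cases hq' : q' ∈ P.T a'
      · rw [he1 a q hj hq, he1 a' q' hj' hq'] at hee
        have h1 := Sum.inr_injective hee
        have h2 : a = a' := congrArg Sigma.fst h1
        subst h2
        have h3 := sigma_mk_injective h1
        have h4 := Sum.inl_injective h3
        have h5 : q = q' := congrArg Subtype.val h4
        subst h5
        rfl
      · rw [he1 a q hj hq, he2 a' q' hj' hq'] at hee
        exact absurd hee (by simp)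
    · by_cases hq' : q' ∈ P.T a'
      · rw [he2 a q hj hq, he1 a' q' hj' hq'] at hee
        exact absurd hee (by simp)
      · rw [he2 a q hj hq, he2 a' q' hj' hq'] at hee
        have h1 := Sum.inl_injective hee
        obtain ⟨h2, h3⟩ := P.rep_inj a q a' q' ((P.rep_iff a q).2 ⟨hj, hq⟩)
          ((P.rep_iff a' q').2 ⟨hj', hq'⟩) h1
        subst h2
        subst h3
        rfl
  set s : (Λ ⊕ Σ a, (P.T a ⊕ P.D a)) → Rˣ := fun i =>
    match i with
    | Sum.inl γ => if (∃ a q, P.rep a q ∧ lad κ a q = γ) then -1 else 1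
    | Sum.inr _ => 1 with hs
  refine ⟨((Set.range e)ᶜ : Set _), (P.w.unitsSMul s).reindex
    (((Equiv.ofInjective e hinj).sumCongr (Equiv.refl _)).trans
      (Equiv.Set.sumCompl (Set.range e))).symm, ?_⟩
  rintro ⟨⟨a, q⟩, hj⟩
  rw [Module.Basis.reindex_apply, Equiv.symm_symm]
  have h1 : (((Equiv.ofInjective e hinj).sumCongr (Equiv.refl _)).trans
      (Equiv.Set.sumCompl (Set.range e))) (Sum.inl ⟨(a, q), hj⟩) = e ⟨(a, q), hj⟩ := by
    simp
  rw [h1, Module.Basis.unitsSMul_apply]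
  by_cases hq : q ∈ P.T a
  · rw [he1 a q hj hq]
    have h2 : s (Sum.inr ⟨a, Sum.inl ⟨q, hq⟩⟩) = 1 := rfl
    rw [h2, one_smul]
    exact P.w_rel a ⟨q, hq⟩ hj
  · rw [he2 a q hj hq]
    have hr := (P.rep_iff a q).2 ⟨hj, hq⟩
    have h2 : s (Sum.inl (lad κ a q)) = -1 := by
      simp only [hs]
      rw [if_pos ⟨a, q, hr, rfl⟩]
    rw [h2, P.w_rep a q hr, Units.smul_def]
    simp

theorem next_card (hκ : ℵ₀ ≤ κ) (h : Good κ Λ) :
    #(Gen E Λ) ≤ Order.succ κ ∧ #(LS κ Λ E.Q × E.Q) ≤ Order.succ κ := by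
  have hs : ℵ₀ ≤ Order.succ κ := hκ.trans (Order.le_succ κ)
  have h1 : #(LS κ Λ E.Q) ≤ Order.succ κ := (Cardinal.mk_set_le _).trans h.card.le
  have hp : ∀ X : Type u, #X ≤ κ → #(LS κ Λ E.Q × X) ≤ Order.succ κ := by
    intro X hX
    rw [← Cardinal.mul_def]
    refine (mul_le_mul' h1 (hX.trans (Order.le_succ κ))).trans ?_
    rw [Cardinal.mul_eq_self hs]
  refine ⟨?_, hp _ E.hQ⟩
  show #(Λ ⊕ (LS κ Λ E.Q × E.G)) ≤ Order.succ κ
  rw [← Cardinal.add_def]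
  refine (add_le_add h.card.le (hp _ E.hG)).trans ?_
  rw [Cardinal.add_eq_self hs]

end Pool.Agent.Lib.MP_5e5727_lc.FA
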