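import Pool.Agent.Lib.MP_5e5727_lc.FA.MDefs

/-!
# FA-SI: independence of the relations and the copies

* `r_indep`: the relations `E.r` are linearly independent: a vanishing combination has finite
  support `J`, `#J < κ` (`κ ≥ ℵ₀`), and `E.basic J` says that they are part of a basis.
* `proj a : (Gen →₀ R) →ₗ (G →₀ R)`, `(proj a x) g = x (inr (a, g))` (`Finsupp.comapDomain` /
  `Finsupp.lcomapDomain`); `proj a (copy a y) = y`, `proj a (copy a' y) = 0` for `a ≠ a'`,
  `proj a (single (inl γ) t) = 0`; so `proj a (∑ d_j rho_j) = ∑ q, d_(a,q) r_q`.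
* `coeff_zero`: if `x = linearCombination (rho) d` and `proj a x = 0`, then `d (a, q) = 0` for all
  `q` (`r_indep`).
* `ker_copy`: if `copy a y ∈ span {single g 1 | g ∈ lower} ⊔ span (range rho)`, where `lower` is the
  set of the generators `inl γ` (`γ < a`) and `inr (a', g)` (`a' < a`), then
  `y ∈ span (range E.r)`: write `copy a y = x + linearCombination rho d` with `x` supported on
  `lower`; `proj a x = 0`, so `y = ∑ q, d (a, q) r_q`.
-/

universe u

open Cardinal

namespace Pool.Agent.Lib.MP_5e5727_lc.FA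

variable {R : Type u} [CommRing R] {κ : Cardinal.{u}} (E : Pres R κ) (Λ : Type u) [LinearOrder Λ]

theorem r_indep (hκ : ℵ₀ ≤ κ) : LinearIndependent R E.r := by
  rw [linearIndependent_iff_finset_linearIndependent]
  intro s
  obtain ⟨D, b, hb⟩ := E.basic (s : Set E.Q)
    (lt_of_lt_of_le (Cardinal.lt_aleph0_of_finite _) hκ)
  have h := b.linearIndependent.comp (Sum.inl : ((s : Set E.Q) : Type u) → _) Sum.inl_injective
  have e : (b ∘ (Sum.inl : ((s : Set E.Q) : Type u) → _)) = E.r ∘ (Subtype.val : s → E.Q) := by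
    funext j
    exact hb j
  rw [e] at h
  exact h

/-- the component at `a` -/
noncomputable def proj (a : LS κ Λ E.Q) : (Gen E Λ →₀ R) →ₗ[R] (E.G →₀ R) :=
  Finsupp.lcomapDomain (fun g => (Sum.inr (a, g) : Gen E Λ))
    (fun _ _ h => by simpa using h)

theorem proj_apply (a : LS κ Λ E.Q) (x : Gen E Λ →₀ R) (g : E.G) :
    proj E Λ a x g = x (Sum.inr (a, g)) := rfl

theorem proj_copy_same (a : LS κ Λ E.Q) (y : E.G →₀ R) : proj E Λ a (copy E Λ a y) = y := by
  ext g
  rw [proj_apply]
  have hinj : Function.Injective (fun g => (Sum.inr (a, g) : Gen E Λ)) :=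
    fun _ _ h => by simpa using h
  exact Finsupp.mapDomain_apply hinj y g

theorem proj_copy_ne {a a' : LS κ Λ E.Q} (h : a ≠ a') (y : E.G →₀ R) :
    proj E Λ a (copy E Λ a' y) = 0 := by
  ext g
  rw [proj_apply]
  refine Finsupp.mapDomain_of_notMem_range y _ ?_
  rintro ⟨g', hg'⟩
  have : a' = a ∧ g' = g := by simpa using hg'
  exact h this.1.symm

theorem proj_single_inl (a : LS κ Λ E.Q) (γ : Λ) (t : R) :
    proj E Λ a (Finsupp.single (Sum.inl γ) t) = 0 := by
  ext g
  rw [proj_apply]
  simp

theorem proj_comb (a : LS κ Λ E.Q) (d : (LS κ Λ E.Q × E.Q) →₀ R) :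
    proj E Λ a (Finsupp.linearCombination R (rho E Λ) d) =
      Finsupp.linearCombination R E.r
        (Finsupp.lcomapDomain (R := R) (M := R) (fun q : E.Q => (a, q))
          (fun _ _ h => by simpa using h) d) := by
  have hinj : Function.Injective (fun q : E.Q => (a, q)) := fun _ _ h => by simpa using h
  classical
  have key : (proj E Λ a) ∘ₗ (Finsupp.linearCombination R (rho E Λ)) =
      (Finsupp.linearCombination R E.r) ∘ₗ
        (Finsupp.lcomapDomain (R := R) (M := R) (fun q : E.Q => (a, q)) hinj) := by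
    refine Finsupp.lhom_ext ?_
    rintro ⟨a', q⟩ t
    simp only [LinearMap.comp_apply, Finsupp.linearCombination_single, map_smul]
    by_cases h : a = a'
    · subst h
      have e : Finsupp.lcomapDomain (R := R) (M := R) (fun q : E.Q => (a, q)) hinj
          (Finsupp.single (a, q) t) = Finsupp.single q t := by
        ext q'
        change (Finsupp.single (a, q) t) (a, q') = (Finsupp.single q t) q'
        rw [Finsupp.single_apply, Finsupp.single_apply]
        simp
      rw [e, Finsupp.linearCombination_single]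
      unfold rho
      rw [map_sub, proj_copy_same, proj_single_inl, sub_zero]
    · have e : Finsupp.lcomapDomain (R := R) (M := R) (fun q : E.Q => (a, q)) hinj
          (Finsupp.single (a', q) t) = 0 := by
        ext q'
        change (Finsupp.single (a', q) t) (a, q') = 0
        rw [Finsupp.single_apply, if_neg]
        intro h'
        exact h (Prod.ext_iff.mp h').1.symm
      rw [e, map_zero]
      unfold rho
      rw [map_sub, proj_copy_ne E Λ h, proj_single_inl, sub_zero, smul_zero]
  exact LinearMap.congr_fun key d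

theorem coeff_zero (hκ : ℵ₀ ≤ κ) (d : (LS κ Λ E.Q × E.Q) →₀ R) (a : LS κ Λ E.Q)
    (h : proj E Λ a (Finsupp.linearCombination R (rho E Λ) d) = 0) (q : E.Q) : d (a, q) = 0 := by
  rw [proj_comb] at h
  have h2 := (linearIndependent_iff.mp (r_indep E hκ)) _ h
  exact DFunLike.congr_fun h2 q

/-- The generators below `a`. -/
def GenLT (a : Λ) : Set (Gen E Λ) :=
  {g | match g with
    | Sum.inl γ => γ < a
    | Sum.inr (b, _) => (b : Λ) < a}

theorem ker_copy (hκ : ℵ₀ ≤ κ) (a : LS κ Λ E.Q) (y : E.G →₀ R)
    (h : copy E Λ a y ∈ Finsupp.supported R R (GenLT E Λ (a : Λ)) ⊔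
      Submodule.span R (Set.range (rho E Λ))) :
    y ∈ Submodule.span R (Set.range E.r) := by
  obtain ⟨x, hx, z, hz, hxz⟩ := Submodule.mem_sup.mp h
  obtain ⟨d, rfl⟩ := (Finsupp.mem_span_range_iff_exists_finsupp).mp hz
  have hx0 : proj E Λ a x = 0 := by
    ext g
    rw [proj_apply]
    by_contra hne
    have hmem : (Sum.inr (a, g) : Gen E Λ) ∈ GenLT E Λ (a : Λ) :=
      (Finsupp.mem_supported R x).mp hx (Finsupp.mem_support_iff.mpr hne)
    exact lt_irrefl (a : Λ) hmem
  have e := congrArg (proj E Λ a) hxz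
  rw [map_add, hx0, zero_add, proj_copy_same] at e
  have e2 : (d.sum fun i c => c • rho E Λ i) = Finsupp.linearCombination R (rho E Λ) d := rfl
  rw [e2, proj_comb] at e
  rw [← e]
  exact (Finsupp.mem_span_range_iff_exists_finsupp).mpr ⟨_, rfl⟩

end Pool.Agent.Lib.MP_5e5727_lc.FA
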