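import Pool.Agent.Lib.MP_5e5727_lc.FA.SB
import Pool.Agent.Lib.MP_5e5727_lc.FA.SI

/-!
# FA-SS: the next module is strongly `κ⁺`-free

Write `F = Gen →₀ R`, `mk : F → NextM`, `F_β = supported (GenLE β)`, so `PS β = mk (F_β)`.

`ps_relBasis`.  `β ≤ β'` (`β : WithBot Λ`, `β' : Λ`).  `A = {a ∈ S | β < a ≤ β'}` (`#A ≤ κ` by
`Good.few`), `J = {(a, q) | a ∈ A}`; `exists_adapted` gives `w` on `I = Λ ⊕ Σ a, (T a ⊕ D a)`.
Let `I_β = {inl γ | γ ≤ β} ∪ {inr ⟨a, _⟩ | a ≤ β}` and similarly `I_β'`.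
(1) for `i ∈ I_β'` we have `w i ∈ F_β'`, and for `i ∉ I_β'`, `w i` is supported outside `GenLE β'`
    (for `γ > β'` the index `inl γ` is not replaced as `c_a q < a ≤ β'`; for `a > β'`, `a ∉ A`).
    So by projecting to the coordinates in `GenLE β'`: `F_β' = span {w i | i ∈ I_β'}`.
(2) for `i ∈ I_β`, `w i ∈ F_β` (not replaced by `rep_gt`; `(a, q) ∉ J` for `a ≤ β`); and the
    `w i`, `i ∈ I_β`, span `F_β` (each `single (inl γ)`, `γ ≤ β`, is `w (inl γ)`, and
    `copy a (b_a i)`, `i ∈ T a ⊕ D a`, span `copy a (G →₀ R)`).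
(3) `C` = set of the `i ∈ I_β' \ I_β` which are not of the form `inr ⟨a, inl q⟩` with `(a, q) ∈ J`
    nor `inl (c_a q)` with `rep a q`.  `c i = mk (w i)`.  `PS β' = PS β ⊔ span c`: clear from (1),
    (2), `mk (rho j) = 0`.
(4) independence: let `∑_{i ∈ C} f_i w_i ∈ F_β + span (range rho)`, so
    `∑ f_i w_i = x + ∑ d_j rho_j`, `x ∈ F_β`.  For `a > β'`: `proj a` of all other terms is `0`, so
    `d (a, q) = 0` (`coeff_zero`).  For `a ≤ β`, `rho (a, q) ∈ F_β`.  So `∑_{i ∈ C} f_i w_i =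
    x' + ∑_{j ∈ J} d_j rho_j` with `x' ∈ F_β = span {w i | i ∈ I_β}` and `rho_j = ± w_i` with `i ∉ C`:
    linear independence of `w` gives `f = 0`.
(5) `#C ≤ #I_β' ≤ κ`: `#{γ ≤ β'} ≤ κ`, and for each of the at most `κ` points `a ≤ β'`,
    `#(T a ⊕ D a) ≤ κ` because it indexes a basis of `G →₀ R`, `#G ≤ κ` (`Module.Basis` cardinals:
    `mk_eq_mk_of_basis`, or `Module.Basis.mk_eq_rank`; `R` nontrivial; if `R` is trivial everything
    is trivial - you may assume `[Nontrivial R]` as in the statement).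

`next_stronglyFree`: `𝓕 = range PS` (`β : WithBot Λ`); `PS ⊥ = ⊥`.  Given `PS β` and `X` with
`#X < κ⁺`: every `x ∈ NextM` lies in some `PS γ` (finite support); by `Good.bdd` there is `β'` with
`X ⊆ PS β'` and `β ≤ β'`.
-/

universe u

open Cardinal

namespace Pool.Agent.Lib.MP_5e5727_lc.FA

variable {R : Type u} [CommRing R] [Nontrivial R] {κ : Cardinal.{u}} (E : Pres R κ) (Λ : Type u)
  [LinearOrder Λ]

omit [Nontrivial R] in
private theorem ss_PS_eq (b : WithBot Λ) : PS E Λ b =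
    (Finsupp.supported R R (GenLE E Λ b)).map
      (Submodule.mkQ (Submodule.span R (Set.range (rho E Λ)))) := by
  rw [Finsupp.supported_eq_span_single, Submodule.map_span, ← Set.image_comp]
  rfl

omit [Nontrivial R] in
private theorem ss_copy_mem (a : LS κ Λ E.Q) (y : E.G →₀ R) (s : Set (Gen E Λ))
    (h : ∀ g, Sum.inr (a, g) ∈ s) : copy E Λ a y ∈ Finsupp.supported R R s := by
  classical
  rw [Finsupp.mem_supported]
  intro g hg
  have h1 : g ∈ (Finsupp.mapDomain (fun g => (Sum.inr (a, g) : Gen E Λ)) y).support := hg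
  have h2 := Finsupp.mapDomain_support h1
  rw [Finset.mem_image] at h2
  obtain ⟨g', _, rfl⟩ := h2
  exact h g'

omit [Nontrivial R] in
private theorem ss_copy_le {a : LS κ Λ E.Q} (y : E.G →₀ R) {b : WithBot Λ}
    (h : ((a : Λ) : WithBot Λ) ≤ b) : copy E Λ a y ∈ Finsupp.supported R R (GenLE E Λ b) :=
  ss_copy_mem E Λ a y _ fun _ => h

omit [Nontrivial R] in
private theorem ss_copy_gt {a : LS κ Λ E.Q} (y : E.G →₀ R) {b : WithBot Λ}
    (h : ¬ ((a : Λ) : WithBot Λ) ≤ b) : copy E Λ a y ∈ Finsupp.supported R R (GenLE E Λ b)ᶜ :=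
  ss_copy_mem E Λ a y _ fun _ => h

omit [Nontrivial R] in
private theorem ss_single_le {γ : Λ} {b : WithBot Λ} (h : (γ : WithBot Λ) ≤ b) :
    Finsupp.single (Sum.inl γ : Gen E Λ) (1 : R) ∈ Finsupp.supported R R (GenLE E Λ b) :=
  Finsupp.single_mem_supported R 1 h

omit [Nontrivial R] in
private theorem ss_rho_le {a : LS κ Λ E.Q} (q : E.Q) {b : WithBot Λ}
    (h : ((a : Λ) : WithBot Λ) ≤ b) : rho E Λ (a, q) ∈ Finsupp.supported R R (GenLE E Λ b) := by
  refine Submodule.sub_mem _ (ss_copy_le E Λ _ h) (ss_single_le E Λ ?_)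
  exact (WithBot.coe_le_coe.2 ((lad_spec κ a).lt q).le).trans h

omit [Nontrivial R] in
private theorem ss_proj_supp {a : LS κ Λ E.Q} {b : WithBot Λ} (h : ¬ ((a : Λ) : WithBot Λ) ≤ b)
    {x : Gen E Λ →₀ R} (hx : x ∈ Finsupp.supported R R (GenLE E Λ b)) : proj E Λ a x = 0 := by
  rw [Finsupp.mem_supported'] at hx
  ext g
  exact hx (Sum.inr (a, g)) h

/-- the indices up to `b` -/
private def ssI {T : LS κ Λ E.Q → Set E.Q} {D : LS κ Λ E.Q → Type u} (b : WithBot Λ) :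
    Set (Λ ⊕ Σ a, (T a ⊕ D a)) :=
  {i | match i with
    | Sum.inl γ => (γ : WithBot Λ) ≤ b
    | Sum.inr s => (((s.1 : LS κ Λ E.Q) : Λ) : WithBot Λ) ≤ b}

/-- the replaced indices -/
private def ssR {J : Set (LS κ Λ E.Q × E.Q)} {β : WithBot Λ} (W : Adapted E Λ J β) :
    Set (Λ ⊕ Σ a, (W.T a ⊕ W.D a)) :=
  {i | (∃ a q, W.rep a q ∧ i = Sum.inl (lad κ a q)) ∨
    ∃ (a : LS κ Λ E.Q) (q : W.T a), (a, (q : E.Q)) ∈ J ∧ i = Sum.inr ⟨a, Sum.inl q⟩}

private theorem ss_card_le (hκ : κ.IsRegular) (h : Good κ Λ) (b : Λ)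
    {T : LS κ Λ E.Q → Set E.Q} {D : LS κ Λ E.Q → Type u}
    (bb : ∀ a, Module.Basis (T a ⊕ D a) R (E.G →₀ R)) :
    #(ssI E Λ (T := T) (D := D) (b : WithBot Λ)) ≤ κ := by
  have hℵ := hκ.aleph0_le
  have hTD : ∀ a, #(T a ⊕ D a) ≤ κ := by
    intro a
    have h1 := mk_eq_mk_of_basis' (bb a) (Finsupp.basisSingleOne (ι := E.G) (R := R))
    rw [h1]
    exact E.hG
  have hA : #{a : LS κ Λ E.Q // (a : Λ) ≤ b} ≤ κ := by
    refine le_trans ?_ (h.few b)
    refine Cardinal.mk_le_of_injective (f := fun a => (⟨(a.1 : Λ), a.2⟩ : {b' : Λ // b' ≤ b})) ?_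
    intro a a' haa
    apply Subtype.ext
    apply Subtype.ext
    exact congrArg (fun z : {b' : Λ // b' ≤ b} => (z : Λ)) haa
  have hS : #(Σ a : {a : LS κ Λ E.Q // (a : Λ) ≤ b}, (T a.1 ⊕ D a.1)) ≤ κ := by
    rw [Cardinal.mk_sigma]
    refine (Cardinal.sum_le_sum (fun a : {a : LS κ Λ E.Q // (a : Λ) ≤ b} => #(T a.1 ⊕ D a.1))
      (fun _ => κ) fun a => hTD a.1).trans ?_
    rw [Cardinal.sum_const']
    exact Cardinal.mul_le_of_le hℵ hA le_rfl
  have hsum : #({γ : Λ // γ ≤ b} ⊕ (Σ a : {a : LS κ Λ E.Q // (a : Λ) ≤ b}, (T a.1 ⊕ D a.1))) ≤ κ := by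
    rw [Cardinal.mk_sum, Cardinal.lift_id, Cardinal.lift_id]
    exact Cardinal.add_le_of_le hℵ (h.few b) hS
  refine le_trans ?_ hsum
  refine Cardinal.mk_le_of_surjective
    (f := fun z : ({γ : Λ // γ ≤ b} ⊕ (Σ a : {a : LS κ Λ E.Q // (a : Λ) ≤ b}, (T a.1 ⊕ D a.1))) =>
      (match z with
      | Sum.inl γ => (⟨Sum.inl γ.1, WithBot.coe_le_coe.2 γ.2⟩ :
          ssI E Λ (T := T) (D := D) (b : WithBot Λ))
      | Sum.inr s => ⟨Sum.inr ⟨s.1.1, s.2⟩, WithBot.coe_le_coe.2 s.1.2⟩)) ?_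
  rintro ⟨γ | ⟨a, x⟩, hi⟩
  · exact ⟨Sum.inl ⟨γ, WithBot.coe_le_coe.1 hi⟩, rfl⟩
  · exact ⟨Sum.inr ⟨⟨a, WithBot.coe_le_coe.1 hi⟩, x⟩, rfl⟩

omit [Nontrivial R] in
private theorem ss_w_le {J : Set (LS κ Λ E.Q × E.Q)} {β : WithBot Λ} (W : Adapted E Λ J β)
    {b : WithBot Λ} (hJb : ∀ j ∈ J, (((j.1 : LS κ Λ E.Q) : Λ) : WithBot Λ) ≤ b)
    {i : Λ ⊕ Σ a, (W.T a ⊕ W.D a)} (hi : i ∈ ssI E Λ b) :
    W.w i ∈ Finsupp.supported R R (GenLE E Λ b) := by
  rcases i with γ | ⟨a, q | d⟩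
  · by_cases hrep : ∃ a q, W.rep a q ∧ lad κ a q = γ
    · obtain ⟨a, q, hr, rfl⟩ := hrep
      rw [W.w_rep a q hr]
      exact Submodule.neg_mem _ (ss_rho_le E Λ q (hJb _ ((W.rep_iff a q).1 hr).1))
    · push Not at hrep
      rw [W.w_nrep γ hrep]
      exact ss_single_le E Λ hi
  · by_cases hJ : (a, (q : E.Q)) ∈ J
    · rw [W.w_rel a q hJ]
      exact ss_rho_le E Λ _ hi
    · rw [W.w_nrel a q hJ]
      exact ss_copy_le E Λ _ hi
  · rw [W.w_D a d]
    exact ss_copy_le E Λ _ hi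

omit [Nontrivial R] in
private theorem ss_w_gt {J : Set (LS κ Λ E.Q × E.Q)} {β : WithBot Λ} (W : Adapted E Λ J β)
    {b : WithBot Λ} (hJb : ∀ j ∈ J, (((j.1 : LS κ Λ E.Q) : Λ) : WithBot Λ) ≤ b)
    {i : Λ ⊕ Σ a, (W.T a ⊕ W.D a)} (hi : i ∉ ssI E Λ b) :
    W.w i ∈ Finsupp.supported R R (GenLE E Λ b)ᶜ := by
  rcases i with γ | ⟨a, q | d⟩
  · have hγ : ¬ (γ : WithBot Λ) ≤ b := hi
    have hrep : ∀ a q, W.rep a q → lad κ a q ≠ γ := by
      rintro a q hr rfl
      apply hγ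
      exact (WithBot.coe_le_coe.2 ((lad_spec κ a).lt q).le).trans
        (hJb _ ((W.rep_iff a q).1 hr).1)
    rw [W.w_nrep γ hrep]
    exact Finsupp.single_mem_supported R 1 hγ
  · have ha : ¬ ((a : Λ) : WithBot Λ) ≤ b := hi
    have hJ : (a, (q : E.Q)) ∉ J := fun hJ => ha (hJb _ hJ)
    rw [W.w_nrel a q hJ]
    exact ss_copy_gt E Λ _ ha
  · have ha : ¬ ((a : Λ) : WithBot Λ) ≤ b := hi
    rw [W.w_D a d]
    exact ss_copy_gt E Λ _ ha

omit [Nontrivial R] in
/-- (1) -/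
private theorem ss_F_top {J : Set (LS κ Λ E.Q × E.Q)} {β : WithBot Λ} (W : Adapted E Λ J β)
    {b : WithBot Λ} (hJb : ∀ j ∈ J, (((j.1 : LS κ Λ E.Q) : Λ) : WithBot Λ) ≤ b) :
    Finsupp.supported R R (GenLE E Λ b) = Submodule.span R (W.w '' ssI E Λ b) := by
  have hle : Submodule.span R (W.w '' ssI E Λ b) ≤ Finsupp.supported R R (GenLE E Λ b) := by
    rw [Submodule.span_le]
    rintro _ ⟨i, hi, rfl⟩
    exact ss_w_le E Λ W hJb hi
  refine le_antisymm ?_ hle
  intro x hx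
  have hx1 : x ∈ Submodule.span R (W.w '' ssI E Λ b) ⊔ Submodule.span R (W.w '' (ssI E Λ b)ᶜ) := by
    rw [← Submodule.span_union, ← Set.image_union, Set.union_compl_self, Set.image_univ,
      W.w.span_eq]
    exact Submodule.mem_top
  obtain ⟨y, hy, z, hz, rfl⟩ := Submodule.mem_sup.1 hx1
  have hz1 : z ∈ Finsupp.supported R R (GenLE E Λ b)ᶜ := by
    refine (Submodule.span_le.2 ?_) hz
    rintro _ ⟨i, hi, rfl⟩
    exact ss_w_gt E Λ W hJb hi
  have hz2 : z ∈ Finsupp.supported R R (GenLE E Λ b) := by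
    have := Submodule.sub_mem _ hx (hle hy)
    rwa [add_sub_cancel_left] at this
  have hz0 : z = 0 := by
    have hd := Finsupp.disjoint_supported_supported (M := R) (R := R)
      (disjoint_compl_right (a := GenLE E Λ b))
    exact Submodule.disjoint_def.1 hd z hz2 hz1
  rw [hz0, add_zero]
  exact hy

omit [Nontrivial R] in
/-- (2) -/
private theorem ss_F_bot {J : Set (LS κ Λ E.Q × E.Q)} {β : WithBot Λ} (W : Adapted E Λ J β)
    (hJβ : ∀ j ∈ J, ¬ (((j.1 : LS κ Λ E.Q) : Λ) : WithBot Λ) ≤ β) :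
    Finsupp.supported R R (GenLE E Λ β) ≤ Submodule.span R (W.w '' ssI E Λ β) := by
  rw [Finsupp.supported_eq_span_single, Submodule.span_le]
  rintro _ ⟨γ | ⟨a, g⟩, hg, rfl⟩
  · have hγ : (γ : WithBot Λ) ≤ β := hg
    apply Submodule.subset_span
    refine ⟨Sum.inl γ, hγ, ?_⟩
    apply W.w_nrep γ
    rintro a q hr rfl
    exact absurd (W.rep_gt a q hr) (not_lt.2 hγ)
  · have ha : ((a : Λ) : WithBot Λ) ≤ β := hg
    have h1 : Finsupp.single (Sum.inr (a, g) : Gen E Λ) (1 : R) =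
        copy E Λ a (Finsupp.single g 1) := by
      unfold copy
      rw [Finsupp.lmapDomain_apply, Finsupp.mapDomain_single]
    change Finsupp.single (Sum.inr (a, g) : Gen E Λ) (1 : R) ∈ _
    rw [h1]
    have h2 : Finsupp.single g (1 : R) ∈ Submodule.span R (Set.range (W.b a)) := by
      rw [(W.b a).span_eq]
      exact Submodule.mem_top
    have h3 : copy E Λ a (Finsupp.single g 1) ∈
        (Submodule.span R (Set.range (W.b a))).map (copy E Λ a) := ⟨_, h2, rfl⟩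
    rw [Submodule.map_span] at h3
    refine (Submodule.span_le.2 ?_) h3
    rintro _ ⟨_, ⟨i, rfl⟩, rfl⟩
    apply Submodule.subset_span
    refine ⟨Sum.inr ⟨a, i⟩, ha, ?_⟩
    rcases i with q | d
    · exact W.w_nrel a q fun hJ => hJβ _ hJ ha
    · exact W.w_D a d

omit [Nontrivial R] in
private theorem ss_w_rep_mk {J : Set (LS κ Λ E.Q × E.Q)} {β : WithBot Λ} (W : Adapted E Λ J β)
    {i : Λ ⊕ Σ a, (W.T a ⊕ W.D a)} (hi : i ∈ ssR E Λ W) :
    W.w i ∈ Submodule.span R (Set.range (rho E Λ)) := by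
  rcases hi with ⟨a, q, hr, rfl⟩ | ⟨a, q, hJ, rfl⟩
  · rw [W.w_rep a q hr]
    exact Submodule.neg_mem _ (Submodule.subset_span ⟨_, rfl⟩)
  · rw [W.w_rel a q hJ]
    exact Submodule.subset_span ⟨_, rfl⟩

omit [Nontrivial R] in
private theorem ss_rho_J {J : Set (LS κ Λ E.Q × E.Q)} {β : WithBot Λ} (W : Adapted E Λ J β)
    {a : LS κ Λ E.Q} {q : E.Q} (hJ : (a, q) ∈ J) :
    rho E Λ (a, q) ∈ Submodule.span R (W.w '' ssR E Λ W) := by
  by_cases hq : q ∈ W.T a
  · have h1 := W.w_rel a ⟨q, hq⟩ hJ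
    change _ = rho E Λ (a, q) at h1
    rw [← h1]
    exact Submodule.subset_span ⟨_, Or.inr ⟨a, ⟨q, hq⟩, hJ, rfl⟩, rfl⟩
  · have hr : W.rep a q := (W.rep_iff a q).2 ⟨hJ, hq⟩
    have h1 := W.w_rep a q hr
    have h2 : rho E Λ (a, q) = - W.w (Sum.inl (lad κ a q)) := by rw [h1, neg_neg]
    rw [h2]
    exact Submodule.neg_mem _ (Submodule.subset_span ⟨_, Or.inl ⟨a, q, hr, rfl⟩, rfl⟩)

theorem ps_relBasis (hκ : κ.IsRegular) (h : Good κ Λ) (β : WithBot Λ) (β' : Λ)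
    (hβ : β ≤ (β' : WithBot Λ)) :
    ∃ (T : Type u) (c : T → NextM E Λ), #T < Order.succ κ ∧
      RelBasis R (PS E Λ β) (PS E Λ (β' : WithBot Λ)) c := by
  classical
  have hℵ := hκ.aleph0_le
  obtain ⟨A, hA⟩ : ∃ A : Set (LS κ Λ E.Q), A =
      {a : LS κ Λ E.Q | β < ((a : Λ) : WithBot Λ) ∧ (a : Λ) ≤ β'} :=
    ⟨_, rfl⟩
  have hA' : ∀ a : LS κ Λ E.Q, a ∈ A ↔ (β < ((a : Λ) : WithBot Λ) ∧ (a : Λ) ≤ β') := by
    intro a
    rw [hA]
    rfl
  have hAc : #A ≤ κ := by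
    refine le_trans ?_ (h.few β')
    refine Cardinal.mk_le_of_injective (f := fun a : A => (⟨((a : LS κ Λ E.Q) : Λ),
      ((hA' _).1 a.2).2⟩ : {b' : Λ // b' ≤ β'})) ?_
    intro a a' haa
    apply Subtype.ext
    apply Subtype.ext
    exact congrArg (fun z : {b' : Λ // b' ≤ β'} => (z : Λ)) haa
  obtain ⟨J, hJ⟩ : ∃ J : Set (LS κ Λ E.Q × E.Q), J = {j | j.1 ∈ A} := ⟨_, rfl⟩
  have hJ1 : ∀ j, j ∈ J ↔ j.1 ∈ A := by
    intro j
    rw [hJ]
    rfl
  obtain ⟨W⟩ := exists_adapted E Λ hκ h.wf J β A hAc (fun j hj => (hJ1 j).1 hj)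
    (fun a ha => ((hA' a).1 ha).1)
  have hJb : ∀ j ∈ J, (((j.1 : LS κ Λ E.Q) : Λ) : WithBot Λ) ≤ (β' : WithBot Λ) := by
    intro j hj
    exact WithBot.coe_le_coe.2 ((hA' _).1 ((hJ1 j).1 hj)).2
  have hJβ : ∀ j ∈ J, ¬ (((j.1 : LS κ Λ E.Q) : Λ) : WithBot Λ) ≤ β := by
    intro j hj
    exact not_le.2 ((hA' _).1 ((hJ1 j).1 hj)).1
  obtain ⟨C, hC⟩ : ∃ C : Set (Λ ⊕ Σ a, (W.T a ⊕ W.D a)),
      C = {i | i ∈ ssI E Λ (β' : WithBot Λ) ∧ i ∉ ssI E Λ β ∧ i ∉ ssR E Λ W} := ⟨_, rfl⟩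
  refine ⟨C, fun i => Submodule.Quotient.mk (W.w i), ?_, ?_, ?_⟩
  · rw [Order.lt_succ_iff]
    refine le_trans (Cardinal.mk_le_mk_of_subset ?_) (ss_card_le E Λ hκ h β' W.b)
    intro i hi
    rw [hC] at hi
    exact hi.1
  · -- the sum
    rw [ss_PS_eq, ss_PS_eq]
    have hr : Submodule.span R (Set.range fun i : C =>
        (Submodule.Quotient.mk (W.w i) : NextM E Λ)) =
        (Submodule.span R (W.w '' C)).map
          (Submodule.mkQ (Submodule.span R (Set.range (rho E Λ)))) := by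
      rw [Submodule.map_span, ← Set.image_comp]
      congr 1
      ext z
      constructor
      · rintro ⟨i, rfl⟩
        exact ⟨i, i.2, rfl⟩
      · rintro ⟨i, hi, rfl⟩
        exact ⟨⟨i, hi⟩, rfl⟩
    rw [hr, ← Submodule.map_sup]
    apply le_antisymm
    · rw [ss_F_top E Λ W hJb, Submodule.map_span, Submodule.span_le]
      rintro _ ⟨_, ⟨i, hi, rfl⟩, rfl⟩
      by_cases h1 : i ∈ ssI E Λ β
      · refine ⟨W.w i, Submodule.mem_sup_left ?_, rfl⟩
        rcases i with γ | ⟨a, q | d⟩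
        · have hγ : (γ : WithBot Λ) ≤ β := h1
          rw [W.w_nrep γ (by
            rintro a q hr rfl
            exact absurd (W.rep_gt a q hr) (not_lt.2 hγ))]
          exact ss_single_le E Λ hγ
        · rw [W.w_nrel a q fun hJ' => hJβ _ hJ' h1]
          exact ss_copy_le E Λ _ h1
        · rw [W.w_D a d]
          exact ss_copy_le E Λ _ h1
      · by_cases h2 : i ∈ ssR E Λ W
        · have h3 := ss_w_rep_mk E Λ W h2
          have h4 : Submodule.mkQ (Submodule.span R (Set.range (rho E Λ))) (W.w i) = 0 := by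
            rw [Submodule.mkQ_apply, Submodule.Quotient.mk_eq_zero]
            exact h3
          rw [h4]
          exact Submodule.zero_mem _
        · refine ⟨W.w i, Submodule.mem_sup_right (Submodule.subset_span ⟨i, ?_, rfl⟩), rfl⟩
          rw [hC]
          exact ⟨hi, h1, h2⟩
    · apply Submodule.map_mono
      rw [sup_le_iff]
      constructor
      · apply Finsupp.supported_mono
        rintro (γ | ⟨a, g⟩) hg
        · exact le_trans (show (γ : WithBot Λ) ≤ β from hg) hβ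
        · exact le_trans (show ((a : Λ) : WithBot Λ) ≤ β from hg) hβ
      · rw [Submodule.span_le]
        rintro _ ⟨i, hi, rfl⟩
        rw [hC] at hi
        exact ss_w_le E Λ W hJb hi.1
  · -- independence
    intro f hf
    have hlin : LinearIndependent R (fun i : C => W.w i) :=
      W.w.linearIndependent.comp _ Subtype.val_injective
    rw [linearIndependent_iff] at hlin
    apply hlin
    obtain ⟨y, hy⟩ : ∃ y, y = Finsupp.linearCombination R (fun i : C => W.w i) f := ⟨_, rfl⟩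
    have hyC : y ∈ Submodule.span R (W.w '' C) := by
      rw [hy]
      have h1 : Finsupp.linearCombination R (fun i : C => W.w i) f ∈
          Submodule.span R (Set.range fun i : C => W.w i) := by
        rw [Finsupp.mem_span_range_iff_exists_finsupp]
        exact ⟨f, rfl⟩
      have h2 : Set.range (fun i : C => W.w i) = W.w '' C := by
        rw [Set.image_eq_range]
      rwa [h2] at h1
    have hmk : Finsupp.linearCombination R (fun i : C => (Submodule.Quotient.mk (W.w i) : NextM E Λ)) f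
        = Submodule.mkQ (Submodule.span R (Set.range (rho E Λ))) y := by
      rw [hy, Finsupp.apply_linearCombination]
      rfl
    rw [hmk, ss_PS_eq] at hf
    obtain ⟨x, hx, hxy⟩ := hf
    rw [Submodule.mkQ_apply, Submodule.mkQ_apply, eq_comm, Submodule.Quotient.eq] at hxy
    rw [Finsupp.mem_span_range_iff_exists_finsupp] at hxy
    obtain ⟨d, hd⟩ := hxy
    have hd' : Finsupp.linearCombination R (rho E Λ) d = y - x := hd
    have hyb : y ∈ Finsupp.supported R R (GenLE E Λ (β' : WithBot Λ)) := by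
      refine (Submodule.span_le.2 ?_) hyC
      rintro _ ⟨i, hi, rfl⟩
      rw [hC] at hi
      exact ss_w_le E Λ W hJb hi.1
    have hxb : x ∈ Finsupp.supported R R (GenLE E Λ (β' : WithBot Λ)) := by
      refine Finsupp.supported_mono ?_ hx
      rintro (γ | ⟨a, g⟩) hg
      · exact le_trans (show (γ : WithBot Λ) ≤ β from hg) hβ
      · exact le_trans (show ((a : Λ) : WithBot Λ) ≤ β from hg) hβ
    have hd0 : ∀ (a : LS κ Λ E.Q) (q : E.Q), ¬ ((a : Λ) : WithBot Λ) ≤ (β' : WithBot Λ) → d (a, q) = 0 := by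
      intro a q ha
      refine coeff_zero E Λ hℵ d a ?_ q
      rw [hd', map_sub, ss_proj_supp E Λ ha hyb, ss_proj_supp E Λ ha hxb, sub_zero]
    have hcomp : y - x ∈ Submodule.span R (W.w '' Cᶜ) := by
      rw [← hd', Finsupp.linearCombination_apply]
      refine Submodule.sum_mem _ fun j _ => ?_
      obtain ⟨a, q⟩ := j
      by_cases ha : ((a : Λ) : WithBot Λ) ≤ (β' : WithBot Λ)
      · apply Submodule.smul_mem
        by_cases ha' : ((a : Λ) : WithBot Λ) ≤ β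
        · have h1 := ss_F_bot E Λ W hJβ (ss_rho_le E Λ q ha')
          refine Submodule.span_mono (Set.image_mono ?_) h1
          intro i hi hiC
          rw [hC] at hiC
          exact hiC.2.1 hi
        · have hJ' : (a, q) ∈ J :=
            (hJ1 _).2 ((hA' a).2 ⟨not_le.1 ha', WithBot.coe_le_coe.1 ha⟩)
          refine Submodule.span_mono (Set.image_mono ?_) (ss_rho_J E Λ W hJ')
          intro i hi hiC
          rw [hC] at hiC
          exact hiC.2.2 hi
      · rw [hd0 a q ha]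
        change (0 : R) • rho E Λ (a, q) ∈ _
        rw [zero_smul]
        exact Submodule.zero_mem _
    have hxc : x ∈ Submodule.span R (W.w '' Cᶜ) := by
      refine Submodule.span_mono (Set.image_mono ?_) (ss_F_bot E Λ W hJβ hx)
      intro i hi hiC
      rw [hC] at hiC
      exact hiC.2.1 hi
    have hyc : y ∈ Submodule.span R (W.w '' Cᶜ) := by
      have := Submodule.add_mem _ hcomp hxc
      rwa [sub_add_cancel] at this
    have hdis := W.w.linearIndependent.disjoint_span_image (disjoint_compl_right (a := C))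
    rw [← hy]
    exact Submodule.disjoint_def.1 hdis y hyC hyc

omit [Nontrivial R] in
private theorem ss_mem_PS (hκ : κ.IsRegular) (h : Good κ Λ) (x : NextM E Λ) :
    ∃ γ : Λ, x ∈ PS E Λ (γ : WithBot Λ) := by
  classical
  obtain ⟨y, rfl⟩ := Submodule.Quotient.mk_surjective _ x
  obtain ⟨lev, hlev⟩ : ∃ lev : Gen E Λ → Λ, lev = fun g => (match g with
    | Sum.inl γ => γ
    | Sum.inr (a, _) => ((a : LS κ Λ E.Q) : Λ)) := ⟨_, rfl⟩
  obtain ⟨b, hb⟩ := h.bdd (lev '' (y.support : Set (Gen E Λ))) (by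
    have hfin : (lev '' (y.support : Set (Gen E Λ))).Finite := (Finset.finite_toSet _).image _
    exact (hfin.lt_aleph0).le.trans hκ.aleph0_le)
  refine ⟨b, ?_⟩
  rw [ss_PS_eq]
  refine ⟨y, ?_, rfl⟩
  rw [SetLike.mem_coe, Finsupp.mem_supported]
  rintro (γ | ⟨a, g⟩) hg
  · have := hb _ ⟨_, hg, rfl⟩
    rw [hlev] at this
    exact WithBot.coe_le_coe.2 this.le
  · have := hb _ ⟨_, hg, rfl⟩
    rw [hlev] at this
    exact WithBot.coe_le_coe.2 this.le

omit [Nontrivial R] in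
private theorem ss_PS_mono {b b' : WithBot Λ} (hb : b ≤ b') : PS E Λ b ≤ PS E Λ b' := by
  rw [ss_PS_eq, ss_PS_eq]
  apply Submodule.map_mono
  apply Finsupp.supported_mono
  rintro (γ | ⟨a, g⟩) hg
  · exact le_trans (show (γ : WithBot Λ) ≤ b from hg) hb
  · exact le_trans (show ((a : Λ) : WithBot Λ) ≤ b from hg) hb

theorem next_stronglyFree (hκ : κ.IsRegular) (h : Good κ Λ) :
    StronglyFree R (NextM E Λ) (Order.succ κ) := by
  classical
  refine ⟨Set.range (PS E Λ), ⟨⊥, ?_⟩, ?_⟩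
  · have h1 : GenLE E Λ (⊥ : WithBot Λ) = ∅ := by
      rw [Set.eq_empty_iff_forall_notMem]
      rintro (γ | ⟨a, g⟩) hg
      · exact absurd (show (γ : WithBot Λ) ≤ ⊥ from hg) (WithBot.not_coe_le_bot γ)
      · exact absurd (show ((a : Λ) : WithBot Λ) ≤ ⊥ from hg) (WithBot.not_coe_le_bot _)
    unfold PS
    rw [h1, Set.image_empty, Submodule.span_empty]
  · rintro _ ⟨β, rfl⟩ X hX
    rw [Order.lt_succ_iff] at hX
    choose γ hγ using ss_mem_PS E Λ hκ h
    obtain ⟨b, hb⟩ := h.bdd (γ '' X ∪ {c | (c : WithBot Λ) = β}) (by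
      refine (Cardinal.mk_union_le _ _).trans ?_
      refine Cardinal.add_le_of_le hκ.aleph0_le (Cardinal.mk_image_le.trans hX) ?_
      have hsub : ({c | (c : WithBot Λ) = β} : Set Λ).Subsingleton := by
        intro c hc c' hc'
        exact WithBot.coe_injective ((show (c : WithBot Λ) = β from hc).trans
          (show (c' : WithBot Λ) = β from hc').symm)
      exact (hsub.finite.lt_aleph0).le.trans hκ.aleph0_le)
    have hβb : β ≤ (b : WithBot Λ) := by
      induction β using WithBot.recBotCoe with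
      | bot => exact bot_le
      | coe c => exact WithBot.coe_le_coe.2 (hb c (Or.inr rfl)).le
    refine ⟨PS E Λ (b : WithBot Λ), ⟨_, rfl⟩, ss_PS_mono E Λ hβb, ?_, ?_⟩
    · intro x hx
      exact ss_PS_mono E Λ (WithBot.coe_le_coe.2 (hb _ (Or.inl ⟨x, hx, rfl⟩)).le) (hγ x)
    · exact ps_relBasis E Λ hκ h β b hβb

end Pool.Agent.Lib.MP_5e5727_lc.FA
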