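import Pool.Agent.Lib.MP_5e5727_lc.FA.RED
import Pool.Agent.Lib.MP_5e5727_lc.FA.SP
import Pool.Agent.Lib.MP_5e5727_lc.FA.SS
import Pool.Agent.Lib.MP_5e5727_lc.FA.SN
import Pool.Agent.Lib.MP_5e5727_lc.FA.BA

/-!
# FA-MA: assembly
-/

universe u

open Cardinal Polynomial

namespace Pool.Agent.Lib.MP_5e5727_lc.FA

variable (k : Type u) [Field k]

theorem pres_succ {κ : Cardinal.{u}} (hκ : κ.IsRegular) (E : Pres k[X] κ) :
    Nonempty (Pres k[X] (Order.succ κ)) := by
  obtain ⟨Λ, hΛ, h⟩ := exists_good hκ.aleph0_le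
  exact ⟨{ G := Gen E Λ
           Q := LS κ Λ E.Q × E.Q
           r := rho E Λ
           hG := (next_card E Λ hκ.aleph0_le h).1
           hQ := (next_card E Λ hκ.aleph0_le h).2
           basic := fun J hJ => next_basic E Λ hκ h J hJ
           nonemb := fun B f => next_nonemb E Λ hκ h B f }⟩

theorem isRegular_aleph_nat (n : ℕ) : (Cardinal.aleph.{u} n).IsRegular := by
  cases n with
  | zero => simpa using Cardinal.isRegular_aleph0
  | succ n =>
    rw [Nat.cast_succ]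
    exact Cardinal.isRegular_aleph_add_one (n : Ordinal)

theorem aleph_nat_succ (n : ℕ) :
    Cardinal.aleph.{u} ((n + 1 : ℕ) : Ordinal) = Order.succ (Cardinal.aleph.{u} n) := by
  rw [Nat.cast_succ, ← Order.succ_eq_add_one, Cardinal.aleph_succ]

theorem exists_pres (n : ℕ) : Nonempty (Pres k[X] (Cardinal.aleph.{u} n)) := by
  induction n with
  | zero => simpa using exists_pres_base k
  | succ n ih =>
    obtain ⟨E⟩ := ih
    rw [aleph_nat_succ]
    exact pres_succ k (isRegular_aleph_nat n) E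

theorem exists_module (n : ℕ) : ∃ (M : Type u) (_ : AddCommGroup M) (_ : Module k[X] M),
    StronglyFree k[X] M (Cardinal.aleph.{u} ((n + 1 : ℕ) : Ordinal)) ∧
    ∀ (B : Type u) (f : M →ₗ[k[X]] (B →₀ k[X])), ¬ Function.Injective f := by
  obtain ⟨E⟩ := exists_pres k n
  have hκ := isRegular_aleph_nat.{u} n
  obtain ⟨Λ, hΛ, h⟩ := exists_good hκ.aleph0_le
  refine ⟨NextM E Λ, inferInstance, inferInstance, ?_, ?_⟩
  · rw [aleph_nat_succ]
    exact next_stronglyFree E Λ hκ h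
  · intro B f hf
    apply next_nonemb E Λ hκ h B (f ∘ₗ (Submodule.mkQ _))
    rw [LinearMap.ker_comp, LinearMap.ker_eq_bot.2 hf]
    simp

/-- a non-free algebra equivalent to a free one -/
theorem exists_algebra (n : ℕ) : ∃ (A : Type u) (_ : Ring A) (_ : Algebra k A) (X : Type u),
    ¬ IsFreeAlg k A ∧ ∀ φ : Fm k PEmpty.{u + 1}, φ.InL (Cardinal.aleph.{u} ((n + 1 : ℕ) : Ordinal)) →
      (φ.Sat A PEmpty.elim ↔ φ.Sat (FreeAlgebra k X) PEmpty.elim) := by
  obtain ⟨M, _, _, h1, h2⟩ := exists_module k n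
  obtain ⟨h3, h4⟩ := exists_equivalent (k := k) (Cardinal.aleph0_le_aleph _) h1 h2
    (Cardinal.aleph.{u} ((n + 1 : ℕ) : Ordinal)).out (Cardinal.mk_out _)
  exact ⟨_, inferInstance, inferInstance, _, h3, h4⟩

theorem main (n : ℕ) : ¬ AxiomatizableIn k (Cardinal.aleph.{u} n) := by
  intro h
  obtain ⟨M, _, _, h1, h2⟩ := exists_module k n
  refine not_axiomatizable (Cardinal.aleph0_le_aleph _) h1 h2 (AxiomatizableIn.mono ?_ h)
  apply Cardinal.aleph_le_aleph.2
  exact_mod_cast Nat.le_succ n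

end Pool.Agent.Lib.MP_5e5727_lc.FA
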