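import Pool.Agent.Lib.MP_5e5727_lc.FA.Defs

/-!
# FA-MDefs: modules (definitions)

`R` is a commutative ring (later `k[X]`), all types are in `Type u`.
-/

universe u

open Cardinal

namespace Pool.Agent.Lib.MP_5e5727_lc.FA

section

variable (R : Type u) [CommRing R] {M : Type u} [AddCommGroup M] [Module R M]

/-- `c` is a basis of `P'` relative to `P`. -/
structure RelBasis (P P' : Submodule R M) {T : Type u} (c : T → M) : Prop where
  sup : P' = P ⊔ Submodule.span R (Set.range c)
  indep : ∀ f : T →₀ R, Finsupp.linearCombination R c f ∈ P → f = 0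

variable (M) in
/-- `M` is strongly `lam`-free. -/
def StronglyFree (lam : Cardinal.{u}) : Prop :=
  ∃ 𝓕 : Set (Submodule R M), ⊥ ∈ 𝓕 ∧ ∀ P ∈ 𝓕, ∀ X : Set M, #X < lam →
    ∃ P' ∈ 𝓕, P ≤ P' ∧ X ⊆ P' ∧ ∃ (T : Type u) (c : T → M), #T < lam ∧ RelBasis R P P' c

/-- The properties of a system of frames (`lam`-small partial bases) of `N`. -/
structure FrameSystem (N : Type u) [AddCommGroup N] [Module R N] (lam : Cardinal.{u})
    (Fr : (T : Type u) → (T → N) → Prop) : Prop where
  small : ∀ (T : Type u) (p : T → N), Fr T p → #T < lam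
  inj : ∀ (T : Type u) (p : T → N), Fr T p → Function.Injective (Finsupp.linearCombination R p)
  nil : Fr PEmpty.{u + 1} PEmpty.elim
  ext : ∀ (T : Type u) (p : T → N), Fr T p → ∀ X : Set N, #X < lam →
    ∃ (T' : Type u) (p' : T ⊕ T' → N), Fr (T ⊕ T') p' ∧ (∀ t, p' (Sum.inl t) = p t) ∧
      X ⊆ Submodule.span R (Set.range p')
  stretch : ∀ (T : Type u) (p : T → N), Fr T p → ∀ T' : Type u, #T' < lam →
    ∃ p' : T ⊕ T' → N, Fr (T ⊕ T') p' ∧ ∀ t, p' (Sum.inl t) = p t

/-- `N` has a system of frames. -/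
def Rich (N : Type u) [AddCommGroup N] [Module R N] (lam : Cardinal.{u}) : Prop :=
  ∃ Fr : (T : Type u) → (T → N) → Prop, FrameSystem R N lam Fr

/-- A presentation (generators `G`, relations `r`) of a module which is not embeddable in a free
module, although all sets of fewer than `κ` relations are part of a basis. -/
structure Pres (κ : Cardinal.{u}) where
  G : Type u
  Q : Type u
  r : Q → (G →₀ R)
  hG : #G ≤ κ
  hQ : #Q ≤ κ
  basic : ∀ J : Set Q, #J < κ → ∃ (D : Type u) (b : Module.Basis (J ⊕ D) R (G →₀ R)),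
    ∀ j : J, b (Sum.inl j) = r j
  nonemb : ∀ (B : Type u) (f : (G →₀ R) →ₗ[R] (B →₀ R)),
    LinearMap.ker f ≠ Submodule.span R (Set.range r)

end

section

variable (κ : Cardinal.{u}) {Λ : Type u} [LinearOrder Λ] {Q : Type u}

/-- `c` is a ladder at `a`: an injection of `Q` below `a` with fewer than `κ` values below any
`ξ < a`. -/
structure IsLadder (a : Λ) (c : Q → Λ) : Prop where
  inj : Function.Injective c
  lt : ∀ q, c q < a
  few : ∀ ξ < a, #{q // c q ≤ ξ} < κ

variable (Λ Q) in
/-- The points with a ladder. -/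
def LS : Set Λ := {a | ∃ c : Q → Λ, IsLadder κ a c}

/-- The ladder at a point of `LS`. -/
noncomputable def lad (a : LS κ Λ Q) : Q → Λ := a.2.choose

theorem lad_spec (a : LS κ Λ Q) : IsLadder κ (a : Λ) (lad κ a) := a.2.choose_spec

/-- The properties of the well-ordered set `κ⁺` which are used. -/
structure Good (κ : Cardinal.{u}) (Λ : Type u) [LinearOrder Λ] : Prop where
  wf : WellFoundedLT Λ
  card : #Λ = Order.succ κ
  few : ∀ a : Λ, #{b : Λ // b ≤ a} ≤ κ
  bdd : ∀ A : Set Λ, #A ≤ κ → ∃ b : Λ, ∀ a ∈ A, a < b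

end

section

variable {R : Type u} [CommRing R] {κ : Cardinal.{u}} (E : Pres R κ) (Λ : Type u) [LinearOrder Λ]

/-- The generators of the next module. -/
abbrev Gen : Type u := Λ ⊕ (LS κ Λ E.Q × E.G)

/-- the copy of the old presentation at `a` -/
noncomputable def copy (a : LS κ Λ E.Q) : (E.G →₀ R) →ₗ[R] (Gen E Λ →₀ R) :=
  Finsupp.lmapDomain R R (fun g => (Sum.inr (a, g) : Gen E Λ))

/-- The relations of the next module. -/
noncomputable def rho (j : LS κ Λ E.Q × E.Q) : Gen E Λ →₀ R :=
  copy E Λ j.1 (E.r j.2) - Finsupp.single (Sum.inl (lad κ j.1 j.2)) 1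

/-- The next module. -/
abbrev NextM : Type u := (Gen E Λ →₀ R) ⧸ Submodule.span R (Set.range (rho E Λ))

/-- The generators up to `β`. -/
def GenLE (β : WithBot Λ) : Set (Gen E Λ) :=
  {g | match g with
    | Sum.inl γ => (γ : WithBot Λ) ≤ β
    | Sum.inr (a, _) => ((a : Λ) : WithBot Λ) ≤ β}

/-- The submodule generated by the generators up to `β`. -/
noncomputable def PS (β : WithBot Λ) : Submodule R (NextM E Λ) :=
  Submodule.span R ((fun g => Submodule.Quotient.mk (Finsupp.single g (1 : R))) '' GenLE E Λ β)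

end

end Pool.Agent.Lib.MP_5e5727_lc.FA
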