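import Pool.Agent.Lib.MP_5e5727_lc.FA.AA

/-!
# FA-PR: if the algebra `AA k M` is free, then `M` is a direct summand of a free module

Let `ψ : AA k M ≃ₐ[k] FreeAlgebra k Z`.
1. `aug : AA k M →ₐ[k] k[X]` = `AA.lift X 0`; `ρ = aug ∘ ψ.symm : FreeAlgebra k Z →ₐ[k] k[X]`.
2. Square zero algebras.  For a `k[X]`-module `P` let `Sq P = k[X] × P` with
   `(f, p) * (g, q) = (f g, f(0) • q + g • p)` (left action by the constant coefficient
   `f.coeff 0`, acting through `C`), a `k`-algebra with `algebraMap c = (C c, 0)`.  (Define it as a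
   structure or as a type synonym of `k[X] × P`, and prove the ring axioms by `ext`; or use
   `TrivSqZeroExt`, if you manage the two module structures; or avoid it by using matrices /
   `Module.End k (k × P)`-type representations - see the remark below.)
3. For `P = Z →₀ k[X]`: the algebra homomorphism `FreeAlgebra k Z → Sq P`, `z ↦ (ρ z, single z 1)`;
   its first component is `ρ`, the second one is called `D`: so `D (a b) = (ρ a)(0) • D b +
   (ρ b) • D a`, `D z = single z 1`.
4. For `P = M`: the homomorphism `AA.lift (X, 0) (m ↦ (0, m)) : AA k M → Sq M`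
   (`(0, m) * (X, 0) = (0, X • m)`); first component `aug`, second component `D'`, so
   `D' (inc m) = m`, `D' tt = 0`.
5. `i : M → P`, `i m = D (ψ (inc m))` is `k[X]`-linear: `D (ψ (inc m) * ψ tt) =
   (aug (inc m))(0) • _ + (aug tt) • D (ψ (inc m)) = X • i m`.
6. `L : P →ₗ[k[X]] M`, `L (single z f) = f • D' (ψ.symm z)`.  Then `L (D a) = D' (ψ.symm a)` for all
   `a : FreeAlgebra k Z` (both are derivations with the same values on `z`: the two algebra
   homomorphisms `a ↦ (ρ a, L (D a))` and `a ↦ (aug (ψ.symm a), D' (ψ.symm a))` to `Sq M` agree on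
   generators, `FreeAlgebra.hom_ext`).  So `L (i m) = D' (inc m) = m`.
-/

universe u

open Cardinal Polynomial

namespace Pool.Agent.Lib.MP_5e5727_lc.FA

variable {k : Type u} [Field k] {M : Type u} [AddCommGroup M] [Module k[X] M]

namespace PR

/-- The square zero algebra `k[X] × P`, `(f, p) * (g, q) = (f g, f(0) q + g p)`. -/
def Sq (k : Type u) [Field k] (P : Type u) [AddCommGroup P] [Module k[X] P] : Type u := k[X] × P

variable {P : Type u} [AddCommGroup P] [Module k[X] P]

noncomputable instance : AddCommGroup (Sq k P) := inferInstanceAs (AddCommGroup (k[X] × P))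

/-- the pair -/
def mk (f : k[X]) (p : P) : Sq k P := (f, p)

/-- first component -/
def fs (a : Sq k P) : k[X] := a.1

/-- second component -/
def sn (a : Sq k P) : P := a.2

@[simp] theorem fs_mk (f : k[X]) (p : P) : fs (mk f p) = f := rfl
@[simp] theorem sn_mk (f : k[X]) (p : P) : sn (mk f p) = p := rfl

theorem sq_ext {a b : Sq k P} (h1 : fs a = fs b) (h2 : sn a = sn b) : a = b := Prod.ext h1 h2

@[simp] theorem fs_add (a b : Sq k P) : fs (a + b) = fs a + fs b := rfl
@[simp] theorem sn_add (a b : Sq k P) : sn (a + b) = sn a + sn b := rfl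
@[simp] theorem fs_zero : fs (0 : Sq k P) = 0 := rfl
@[simp] theorem sn_zero : sn (0 : Sq k P) = 0 := rfl

noncomputable instance : Mul (Sq k P) :=
  ⟨fun a b => mk (fs a * fs b) ((C ((fs a).coeff 0) : k[X]) • sn b + fs b • sn a)⟩

noncomputable instance : One (Sq k P) := ⟨mk 1 0⟩

@[simp] theorem fs_mul (a b : Sq k P) : fs (a * b) = fs a * fs b := rfl
@[simp] theorem sn_mul (a b : Sq k P) :
    sn (a * b) = (C ((fs a).coeff 0) : k[X]) • sn b + fs b • sn a := rfl
@[simp] theorem fs_one : fs (1 : Sq k P) = 1 := rfl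
@[simp] theorem sn_one : sn (1 : Sq k P) = 0 := rfl

noncomputable instance : Ring (Sq k P) :=
  { (inferInstance : AddCommGroup (Sq k P)) with
    mul := (· * ·)
    one := 1
    left_distrib := by
      intro a b c
      apply sq_ext
      · simp [mul_add]
      · simp [add_smul]; abel
    right_distrib := by
      intro a b c
      apply sq_ext
      · simp [add_mul]
      · simp [add_smul]; abel
    zero_mul := by
      intro a
      apply sq_ext <;> simp
    mul_zero := by
      intro a
      apply sq_ext <;> simp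
    mul_assoc := by
      intro a b c
      apply sq_ext
      · simp [mul_assoc]
      · simp only [sn_mul, fs_mul, mul_coeff_zero, map_mul, smul_add, smul_smul, add_assoc]
        congr 2
        · rw [mul_comm]
        · rw [mul_comm]
    one_mul := by
      intro a
      apply sq_ext <;> simp
    mul_one := by
      intro a
      apply sq_ext <;> simp }

/-- the embedding of the scalars -/
noncomputable def sc : k →+* Sq k P where
  toFun c := mk (C c) 0
  map_one' := by apply sq_ext <;> simp
  map_mul' a b := by apply sq_ext <;> simp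
  map_zero' := by apply sq_ext <;> simp
  map_add' a b := by apply sq_ext <;> simp

noncomputable instance : Algebra k (Sq k P) :=
  RingHom.toAlgebra' sc (by
    intro c x
    apply sq_ext
    · simp [sc, mul_comm]
    · simp [sc])

theorem smul_def' (c : k) (a : Sq k P) : c • a = mk (C c) 0 * a := rfl

theorem algebraMap_def (c : k) : algebraMap k (Sq k P) c = mk (C c) 0 := rfl

/-- the first component as a homomorphism -/
noncomputable def fsHom : Sq k P →ₐ[k] k[X] where
  toFun := fs
  map_one' := rfl
  map_mul' _ _ := rfl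
  map_zero' := rfl
  map_add' _ _ := rfl
  commutes' _ := rfl

/-- functoriality -/
noncomputable def sqMap {Q : Type u} [AddCommGroup Q] [Module k[X] Q] (L : P →ₗ[k[X]] Q) :
    Sq k P →ₐ[k] Sq k Q where
  toFun a := mk (fs a) (L (sn a))
  map_one' := by apply sq_ext <;> simp
  map_mul' a b := by apply sq_ext <;> simp
  map_zero' := by apply sq_ext <;> simp
  map_add' a b := by apply sq_ext <;> simp
  commutes' c := by apply sq_ext <;> simp [algebraMap_def]

/-- the augmentation -/
noncomputable def aug : AA k M →ₐ[k] k[X] :=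
  AA.lift X 0 (by intro c m; simp) (by intro m; simp)

theorem aug_tt : aug (AA.tt k M) = X := AA.lift_tt _ _ _ _
theorem aug_inc (m : M) : aug (AA.inc k M m) = 0 := AA.lift_inc _ _ _ _ m

/-- the inclusion of the module -/
noncomputable def inr : M →+ Sq k M where
  toFun m := mk 0 m
  map_zero' := rfl
  map_add' a b := by apply sq_ext <;> simp

@[simp] theorem fs_inr (m : M) : fs (inr (k := k) m) = 0 := rfl
@[simp] theorem sn_inr (m : M) : sn (inr (k := k) m) = m := rfl

/-- the universal derivation of `AA k M` -/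
noncomputable def dd : AA k M →ₐ[k] Sq k M :=
  AA.lift (mk X 0) inr
    (by
      intro c m
      rw [smul_def']
      apply sq_ext <;> simp)
    (by
      intro m
      apply sq_ext <;> simp)

theorem dd_tt : dd (AA.tt k M) = mk X 0 := AA.lift_tt _ _ _ _
theorem dd_inc (m : M) : dd (AA.inc k M m) = mk 0 m := AA.lift_inc _ _ _ _ m

theorem fs_dd (a : AA k M) : fs (dd a) = aug a := by
  have : (fsHom.comp dd : AA k M →ₐ[k] k[X]) = aug := by
    apply AA.hom_ext
    · change fs (dd (AA.tt k M)) = _
      rw [dd_tt, aug_tt]; rfl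
    · intro m
      change fs (dd (AA.inc k M m)) = _
      rw [dd_inc, aug_inc]; rfl
  exact congrArg (fun f : AA k M →ₐ[k] k[X] => f a) this

end PR

open PR in
theorem AA.retract_of_free {Z : Type u} (ψ : AA k M ≃ₐ[k] FreeAlgebra k Z) :
    ∃ (i : M →ₗ[k[X]] (Z →₀ k[X])) (L : (Z →₀ k[X]) →ₗ[k[X]] M), ∀ m, L (i m) = m := by
  classical
  let ρ : FreeAlgebra k Z →ₐ[k] k[X] := aug.comp ψ.symm.toAlgHom
  let Φ : FreeAlgebra k Z →ₐ[k] Sq k (Z →₀ k[X]) :=
    FreeAlgebra.lift k (fun z => mk (ρ (FreeAlgebra.ι k z)) (Finsupp.single z 1))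
  have hΦι : ∀ z, Φ (FreeAlgebra.ι k z) = mk (ρ (FreeAlgebra.ι k z)) (Finsupp.single z 1) := by
    intro z
    exact FreeAlgebra.lift_ι_apply _ _
  have hfs : ∀ a, fs (Φ a) = ρ a := by
    intro a
    have : fsHom.comp Φ = ρ := by
      apply FreeAlgebra.hom_ext
      funext z
      change fs (Φ (FreeAlgebra.ι k z)) = _
      rw [hΦι]; rfl
    exact congrArg (fun f : FreeAlgebra k Z →ₐ[k] k[X] => f a) this
  have hρψ : ∀ a : AA k M, ρ (ψ a) = aug a := by
    intro a
    change aug (ψ.symm (ψ a)) = _
    rw [AlgEquiv.symm_apply_apply]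
  let i : M →ₗ[k[X]] (Z →₀ k[X]) :=
    { toFun := fun m => sn (Φ (ψ (AA.inc k M m)))
      map_add' := by
        intro a b
        rw [map_add, map_add, map_add]; rfl
      map_smul' := by
        intro r m
        rw [AA.inc_smul, map_mul, map_mul, sn_mul, hfs, hfs, hρψ, hρψ, aug_inc]
        have h : aug (aeval (AA.tt k M) r) = r := by
          rw [← Polynomial.aeval_algHom_apply, aug_tt, Polynomial.aeval_X_left_apply]
        rw [h]
        simp }
  let L : (Z →₀ k[X]) →ₗ[k[X]] M :=
    Finsupp.linearCombination k[X] (fun z => sn (dd (ψ.symm (FreeAlgebra.ι k z))))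
  refine ⟨i, L, ?_⟩
  intro m
  have key : ∀ a : FreeAlgebra k Z, L (sn (Φ a)) = sn (dd (ψ.symm a)) := by
    intro a
    have : (sqMap L).comp Φ = (dd : AA k M →ₐ[k] Sq k M).comp ψ.symm.toAlgHom := by
      apply FreeAlgebra.hom_ext
      funext z
      change mk (fs (Φ (FreeAlgebra.ι k z))) (L (sn (Φ (FreeAlgebra.ι k z)))) =
        dd (ψ.symm (FreeAlgebra.ι k z))
      apply sq_ext
      · rw [fs_mk, hfs, fs_dd]; rfl
      · rw [sn_mk, hΦι, sn_mk]
        simp [L]
    exact congrArg (fun f : FreeAlgebra k Z →ₐ[k] Sq k M => sn (f a)) this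
  change L (sn (Φ (ψ (AA.inc k M m)))) = m
  rw [key, AlgEquiv.symm_apply_apply, dd_inc]; rfl

end Pool.Agent.Lib.MP_5e5727_lc.FA
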