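import Pool.Agent.Lib.MP_5e5727_lc.FA.MDefs

/-!
# FA-RI: `M × (L →₀ R)` has a system of frames if `M` is strongly `lam`-free and `#L = lam`

Let `𝓕` be the family of `StronglyFree`.  Define, for `p : T → M × (L →₀ R)`: `Fr T p` iff
`#T < lam`, `Finsupp.linearCombination R p` is injective and there are `P ∈ 𝓕`, `Y : Set L`,
`#Y < lam` with `span (range p) = P.prod (Finsupp.supported R R Y)`.
* `small`, `inj`: by definition.
* `nil`: `P = ⊥`, `Y = ∅`.
* `stretch`: `T'` with `#T' < lam`: since `#Y < lam = #L` and `lam` is infinite, `#(Yᶜ) = lam`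
  (`Cardinal.mk_compl_of_infinite`), so there is an injection `e : T' → L` with values outside `Y`;
  `p' (inr t) = (0, single (e t) 1)`; new `Y' = Y ∪ range e`.
* `ext`: `X` with `#X < lam`.  `X₁ = Prod.fst '' X`, so there are `P' ∈ 𝓕`, `P ≤ P'`, `X₁ ⊆ P'` and
  a relative basis `c : T₁ → M` of `P'` over `P`, `#T₁ < lam`.  `Y' = Y ∪ ⋃ x ∈ X, x.2.support`,
  `#Y' < lam` (finite unions over an index set smaller than `lam`, `lam` infinite:
  `Cardinal.mk_biUnion_le`, `#(⋃ ..) ≤ max ℵ₀ #X`; if `lam = ℵ₀` then `X` is finite - or treat both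
  cases by `Cardinal.mk_biUnion_le` ...).  `T' = T₁ ⊕ ↥(Y' \ Y)`, `p' (inr (inl t)) = (c t, 0)`,
  `p' (inr (inr y)) = (0, single y 1)`.  Injectivity: from `∑ f p + ∑ g (c, 0) + ∑ h (0, e_y) = 0`
  the first component gives `∑ g c ∈ P` (as `∑ f p ∈ P × ..`), so `g = 0`; the second component at
  `y ∈ Y' \ Y` gives `h = 0`; then `f = 0` by injectivity for `p`.  Span: `= P' × supported Y'`.
Both `ext` and `stretch` are special cases of one construction (new `P'`, new `Y'`).
-/

universe u

open Cardinal

namespace Pool.Agent.Lib.MP_5e5727_lc.FA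

variable {R : Type u} [CommRing R]

private theorem lc_sumElim {N T S : Type u} [AddCommGroup N] [Module R N] (p : T → N) (q : S → N)
    (g : T ⊕ S →₀ R) : Finsupp.linearCombination R (Sum.elim p q) g =
      Finsupp.linearCombination R p (Finsupp.sumFinsuppLEquivProdFinsupp R g).1 +
        Finsupp.linearCombination R q (Finsupp.sumFinsuppLEquivProdFinsupp R g).2 := by
  have h : Finsupp.linearCombination R (Sum.elim p q) =
      ((Finsupp.linearCombination R p).coprod (Finsupp.linearCombination R q)).comp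
        (Finsupp.sumFinsuppLEquivProdFinsupp R).toLinearMap := by
    refine Finsupp.lhom_ext fun i r => ?_
    rcases i with i | i
    · have e1 : (Finsupp.sumFinsuppLEquivProdFinsupp R (Finsupp.single (Sum.inl i : T ⊕ S) r)) =
          (Finsupp.single i r, 0) := by
        ext j <;> simp [Finsupp.single_apply]
      simp only [LinearMap.coe_comp, LinearEquiv.coe_coe, Function.comp_apply,
        Finsupp.linearCombination_single, Sum.elim_inl, e1, LinearMap.coprod_apply, map_zero,
        add_zero]
    · have e1 : (Finsupp.sumFinsuppLEquivProdFinsupp R (Finsupp.single (Sum.inr i : T ⊕ S) r)) =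
          (0, Finsupp.single i r) := by
        ext j <;> simp [Finsupp.single_apply]
      simp only [LinearMap.coe_comp, LinearEquiv.coe_coe, Function.comp_apply,
        Finsupp.linearCombination_single, Sum.elim_inr, e1, LinearMap.coprod_apply, map_zero,
        zero_add]
  rw [h]
  rfl

/-- adding a family which is independent modulo the span -/
private theorem li_sum {N T S : Type u} [AddCommGroup N] [Module R N] {p : T → N} {q : S → N}
    (hp : Function.Injective (Finsupp.linearCombination R p))
    (hq : ∀ g : S →₀ R, Finsupp.linearCombination R q g ∈ Submodule.span R (Set.range p) → g = 0) :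
    Function.Injective (Finsupp.linearCombination R (Sum.elim p q)) := by
  have h1 : LinearIndependent R p := hp
  have h2 : LinearIndependent R q := by
    rw [linearIndependent_iff]
    intro g hg
    refine hq g ?_
    rw [hg]
    exact zero_mem _
  refine LinearIndependent.sum_type h1 h2 ?_
  rw [Submodule.disjoint_def]
  intro x hx1 hx2
  rw [← Finsupp.range_linearCombination, LinearMap.mem_range] at hx2
  obtain ⟨g, rfl⟩ := hx2
  rw [hq g hx1, map_zero]

/-- the new part of the family -/
private noncomputable def newq {M L T₁ T₂ : Type u} [AddCommGroup M] (R : Type u) [CommRing R]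
    (c : T₁ → M) (e : T₂ → L) : T₁ ⊕ T₂ → M × (L →₀ R) :=
  Sum.elim (fun t => (c t, 0)) (fun y => (0, Finsupp.single (e y) 1))

private theorem newq_indep {M L T₁ T₂ : Type u} [AddCommGroup M] [Module R M]
    {P P' : Submodule R M} {c : T₁ → M} (hc : RelBasis R P P' c) {Y : Set L} {e : T₂ → L}
    (he : Function.Injective e) (hY : ∀ t, e t ∉ Y) (g : T₁ ⊕ T₂ →₀ R)
    (hg : Finsupp.linearCombination R (newq R c e) g ∈ P.prod (Finsupp.supported R R Y)) :
    g = 0 := by
  unfold newq at hg
  rw [lc_sumElim] at hg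
  set g1 := (Finsupp.sumFinsuppLEquivProdFinsupp R g).1 with hg1
  set g2 := (Finsupp.sumFinsuppLEquivProdFinsupp R g).2 with hg2
  have e1 : Finsupp.linearCombination R (fun t => ((c t, 0) : M × (L →₀ R))) g1 =
      (Finsupp.linearCombination R c g1, 0) := by
    have h := Finsupp.apply_linearCombination R (LinearMap.inl R M (L →₀ R)) c g1
    have h2 : (⇑(LinearMap.inl R M (L →₀ R)) ∘ c) = fun t => ((c t, 0) : M × (L →₀ R)) := rfl
    rw [h2] at h
    rw [← h]
    rfl
  have e2 : Finsupp.linearCombination R (fun y => ((0, Finsupp.single (e y) 1) : M × (L →₀ R))) g2 =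
      (0, Finsupp.mapDomain e g2) := by
    have h := Finsupp.apply_linearCombination R (LinearMap.inr R M (L →₀ R))
      (fun y => Finsupp.single (e y) (1 : R)) g2
    have h2 : (⇑(LinearMap.inr R M (L →₀ R)) ∘ fun y => Finsupp.single (e y) (1 : R)) =
      fun y => ((0, Finsupp.single (e y) 1) : M × (L →₀ R)) := rfl
    rw [h2] at h
    rw [← h]
    have h3 : Finsupp.linearCombination R (fun y => Finsupp.single (e y) (1 : R)) g2 =
        Finsupp.mapDomain e g2 := by
      rw [Finsupp.linearCombination_apply, Finsupp.mapDomain]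
      refine Finsupp.sum_congr fun y _ => ?_
      rw [Finsupp.smul_single, smul_eq_mul, mul_one]
    rw [h3]
    rfl
  rw [e1, e2, Submodule.mem_prod] at hg
  obtain ⟨ha, hb⟩ := hg
  simp only [Prod.fst_add, Prod.snd_add, add_zero, zero_add] at ha hb
  have h1 : g1 = 0 := hc.indep g1 ha
  have h2 : g2 = 0 := by
    ext y
    by_contra hy
    have hy' : Finsupp.mapDomain e g2 (e y) ≠ 0 := by
      rw [Finsupp.mapDomain_apply he]
      exact hy
    rw [Finsupp.mem_supported] at hb
    exact hY y (hb (by rw [Finset.mem_coe, Finsupp.mem_support_iff]; exact hy'))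
  have h3 : Finsupp.sumFinsuppLEquivProdFinsupp R g = 0 := Prod.ext h1 h2
  exact (LinearEquiv.map_eq_zero_iff _).1 h3

private theorem newq_span {M L T₁ T₂ : Type u} [AddCommGroup M] [Module R M]
    {P P' : Submodule R M} {c : T₁ → M} (hc : RelBasis R P P' c) (Y : Set L) (e : T₂ → L) :
    P.prod (Finsupp.supported R R Y) ⊔ Submodule.span R (Set.range (newq R c e)) =
      P'.prod (Finsupp.supported R R (Y ∪ Set.range e)) := by
  have h1 : Submodule.span R (Set.range (fun t => ((c t, 0) : M × (L →₀ R)))) =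
      (Submodule.span R (Set.range c)).prod ⊥ := by
    rw [← Submodule.map_inl, Submodule.map_span, ← Set.range_comp]
    rfl
  have h2 : Submodule.span R (Set.range (fun y => ((0, Finsupp.single (e y) 1) : M × (L →₀ R)))) =
      (⊥ : Submodule R M).prod (Finsupp.supported R R (Set.range e)) := by
    rw [← Submodule.map_inr, Finsupp.supported_eq_span_single, Submodule.map_span,
      ← Set.range_comp, ← Set.range_comp]
    rfl
  unfold newq
  rw [Set.Sum.elim_range, Submodule.span_union, h1, h2, Submodule.prod_sup_prod,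
    Submodule.prod_sup_prod, sup_bot_eq, bot_sup_eq, ← hc.sup, Finsupp.supported_union]

private theorem small_support {M L : Type u} {lam : Cardinal.{u}} (hlam : ℵ₀ ≤ lam)
    {X : Set (M × (L →₀ R))} (hX : #X < lam) :
    #(⋃ x ∈ X, ((x.2.support : Finset L) : Set L) : Set L) < lam := by
  rcases hlam.eq_or_lt with h | h
  · subst h
    rw [Cardinal.lt_aleph0_iff_set_finite] at hX ⊢
    exact hX.biUnion fun x _ => x.2.support.finite_toSet
  · refine (Cardinal.mk_biUnion_le _ _).trans_lt ?_
    refine Cardinal.mul_lt_of_lt hlam hX (lt_of_le_of_lt ?_ h)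
    refine ciSup_le' fun x => ?_
    exact (Cardinal.lt_aleph0_of_finite _).le

/-- the frames -/
private def Fr {M : Type u} [AddCommGroup M] [Module R M] (lam : Cardinal.{u})
    (𝓕 : Set (Submodule R M)) (L : Type u) (T : Type u) (p : T → M × (L →₀ R)) : Prop :=
  #T < lam ∧ Function.Injective (Finsupp.linearCombination R p) ∧
    ∃ P ∈ 𝓕, ∃ Y : Set L, #Y < lam ∧
      Submodule.span R (Set.range p) = P.prod (Finsupp.supported R R Y)

theorem rich_prod {M : Type u} [AddCommGroup M] [Module R M] {lam : Cardinal.{u}}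
    (hlam : ℵ₀ ≤ lam) (hM : StronglyFree R M lam) (L : Type u) (hL : #L = lam) :
    Rich R (M × (L →₀ R)) lam := by
  obtain ⟨𝓕, hbot, hF⟩ := hM
  have hpos : 0 < lam := lt_of_lt_of_le Cardinal.aleph0_pos hlam
  refine ⟨Fr lam 𝓕 L, ?_⟩
  refine ⟨fun T p h => h.1, fun T p h => h.2.1, ?_, ?_, ?_⟩
  · refine ⟨?_, ?_, ⊥, hbot, ∅, ?_, ?_⟩
    · rw [Cardinal.mk_eq_zero]
      exact hpos
    · exact Function.injective_of_subsingleton _
    · rw [Cardinal.mk_eq_zero]
      exact hpos
    · rw [Set.range_eq_empty, Submodule.span_empty, Finsupp.supported_empty, Submodule.prod_bot]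
  · rintro T p ⟨hT, hp, P, hP, Y, hY, hs⟩ X hX
    obtain ⟨P', hP', hPP', hXP', T₁, c, hT₁, hc⟩ :=
      hF P hP (Prod.fst '' X) (Cardinal.mk_image_le.trans_lt hX)
    set Z : Set L := ⋃ x ∈ X, ((x.2.support : Finset L) : Set L) with hZ
    have hZc : #Z < lam := small_support hlam hX
    have hT₂ : #(↥(Z \ Y)) < lam :=
      (Cardinal.mk_le_mk_of_subset Set.diff_subset).trans_lt hZc
    refine ⟨T₁ ⊕ ↥(Z \ Y), Sum.elim p (newq R c (Subtype.val : ↥(Z \ Y) → L)), ?_, fun t => rfl, ?_⟩
    · refine ⟨?_, ?_, P', hP', Y ∪ Set.range (Subtype.val : ↥(Z \ Y) → L), ?_, ?_⟩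
      · rw [Cardinal.mk_sum, Cardinal.lift_id, Cardinal.lift_id, Cardinal.mk_sum,
          Cardinal.lift_id, Cardinal.lift_id]
        exact Cardinal.add_lt_of_lt hlam hT (Cardinal.add_lt_of_lt hlam hT₁ hT₂)
      · refine li_sum hp fun g hg => ?_
        rw [hs] at hg
        exact newq_indep hc Subtype.val_injective (fun t => t.2.2) g hg
      · refine (Cardinal.mk_union_le _ _).trans_lt ?_
        exact Cardinal.add_lt_of_lt hlam hY (Cardinal.mk_range_le.trans_lt hT₂)
      · rw [Set.Sum.elim_range, Submodule.span_union, hs, newq_span hc]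
    · rw [Set.Sum.elim_range, Submodule.span_union, hs, newq_span hc]
      intro x hx
      rw [SetLike.mem_coe, Submodule.mem_prod]
      refine ⟨hXP' ⟨x, hx, rfl⟩, ?_⟩
      rw [Finsupp.mem_supported]
      intro y hy
      by_cases hyY : y ∈ Y
      · exact Or.inl hyY
      · right
        rw [Subtype.range_coe]
        refine ⟨?_, hyY⟩
        rw [hZ, Set.mem_iUnion₂]
        exact ⟨x, hx, hy⟩
  · rintro T p ⟨hT, hp, P, hP, Y, hY, hs⟩ T' hT'
    have hinf : Infinite L := by
      rw [Cardinal.infinite_iff, hL]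
      exact hlam
    have hcomp : #(↥(Yᶜ)) = #L := Cardinal.mk_compl_of_infinite Y (by rw [hL]; exact hY)
    have hle : #T' ≤ #(↥(Yᶜ)) := by
      rw [hcomp, hL]
      exact hT'.le
    obtain ⟨ε⟩ := (Cardinal.le_def _ _).1 hle
    set e : T' → L := fun t => (ε t : L) with he
    have hei : Function.Injective e := Subtype.val_injective.comp ε.injective
    have heY : ∀ t, e t ∉ Y := fun t => (ε t).2
    have hc : RelBasis R P P (PEmpty.elim : PEmpty.{u + 1} → M) := by
      refine ⟨?_, fun f _ => Subsingleton.elim _ _⟩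
      rw [Set.range_eq_empty, Submodule.span_empty, sup_bot_eq]
    have hr : Set.range (newq R (PEmpty.elim : PEmpty.{u + 1} → M) e) =
        Set.range (fun y => ((0, Finsupp.single (e y) 1) : M × (L →₀ R))) := by
      unfold newq
      rw [Set.Sum.elim_range, Set.range_eq_empty, Set.empty_union]
    refine ⟨Sum.elim p (fun y => ((0, Finsupp.single (e y) 1) : M × (L →₀ R))), ?_, fun t => rfl⟩
    refine ⟨?_, ?_, P, hP, Y ∪ Set.range e, ?_, ?_⟩
    · rw [Cardinal.mk_sum, Cardinal.lift_id, Cardinal.lift_id]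
      exact Cardinal.add_lt_of_lt hlam hT hT'
    · refine li_sum hp fun g hg => ?_
      rw [hs] at hg
      have h1 : Finsupp.linearCombination R (newq R (PEmpty.elim : PEmpty.{u + 1} → M) e)
          (Finsupp.mapDomain Sum.inr g) =
          Finsupp.linearCombination R (fun y => ((0, Finsupp.single (e y) 1) : M × (L →₀ R))) g := by
        rw [Finsupp.linearCombination_mapDomain]
        rfl
      rw [← h1] at hg
      have h2 := newq_indep hc hei heY _ hg
      exact Finsupp.mapDomain_injective Sum.inr_injective (h2.trans Finsupp.mapDomain_zero.symm)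
    · refine (Cardinal.mk_union_le _ _).trans_lt ?_
      exact Cardinal.add_lt_of_lt hlam hY (Cardinal.mk_range_le.trans_lt hT')
    · rw [Set.Sum.elim_range, Submodule.span_union, hs, ← hr, newq_span hc]

/-- the zero module is strongly free -/
theorem stronglyFree_punit (lam : Cardinal.{u}) (hlam : ℵ₀ ≤ lam) :
    StronglyFree R PUnit.{u + 1} lam := by
  have hpos : 0 < lam := lt_of_lt_of_le Cardinal.aleph0_pos hlam
  refine ⟨Set.univ, Set.mem_univ _, fun P _ X _ => ⟨P, Set.mem_univ _, le_rfl, ?_, PEmpty,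
    PEmpty.elim, ?_, ?_, fun f _ => Subsingleton.elim _ _⟩⟩
  · intro x _
    rw [Subsingleton.elim x 0]
    exact zero_mem P
  · rw [Cardinal.mk_eq_zero]
    exact hpos
  · rw [Set.range_eq_empty, Submodule.span_empty, sup_bot_eq]

end Pool.Agent.Lib.MP_5e5727_lc.FA
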