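import Pool.Agent.Lib.MP_5e5727_lc.FA.BB
import Pool.Agent.Lib.MP_5e5727_lc.FA.FI
import Pool.Agent.Lib.MP_5e5727_lc.FA.PR
import Pool.Agent.Lib.MP_5e5727_lc.FA.PID
import Pool.Agent.Lib.MP_5e5727_lc.FA.RI

/-!
# FA-RED: the reduction to modules

`M` strongly `lam`-free, not embeddable in a free module, `L` a type with `#L = lam`.
`A = AA k (M × (L →₀ k[X]))`, `A' = AA k (PUnit × (L →₀ k[X])) ≃ FreeAlgebra k (Option L)`
(`AA.equiv` of the obvious `PUnit × F ≃ₗ F`, and `AA.free_iso`).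
* `A` and `A'` satisfy the same sentences of `L_{∞,lam}`: `sat_iff_of_rich`, `rich_prod`,
  `stronglyFree_punit`; `A'` and the free algebra: `sat_iso`.
* `A` is not free: `AA.retract_of_free` would embed `M × (L →₀ k[X])`, hence `M`, in a free module.
-/

universe u

open Cardinal Polynomial

namespace Pool.Agent.Lib.MP_5e5727_lc.FA

variable {k : Type u} [Field k]

theorem exists_equivalent {lam : Cardinal.{u}} (hlam : ℵ₀ ≤ lam) {M : Type u} [AddCommGroup M]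
    [Module k[X] M] (h : StronglyFree k[X] M lam)
    (hn : ∀ (B : Type u) (f : M →ₗ[k[X]] (B →₀ k[X])), ¬ Function.Injective f)
    (L : Type u) (hL : #L = lam) :
    ¬ IsFreeAlg k (AA k (M × (L →₀ k[X]))) ∧
    ∀ φ : Fm k PEmpty.{u + 1}, φ.InL lam →
      (φ.Sat (AA k (M × (L →₀ k[X]))) PEmpty.elim ↔
        φ.Sat (FreeAlgebra k (Option L)) PEmpty.elim) := by
  refine ⟨?_, ?_⟩
  · rintro ⟨Z, ⟨ψ⟩⟩
    obtain ⟨i, l, hl⟩ := AA.retract_of_free ψ
    refine hn Z (i ∘ₗ LinearMap.inl k[X] M (L →₀ k[X])) ?_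
    intro a b hab
    have h1 : i (LinearMap.inl k[X] M (L →₀ k[X]) a) =
        i (LinearMap.inl k[X] M (L →₀ k[X]) b) := hab
    have h2 := congrArg l h1
    rw [hl, hl] at h2
    exact LinearMap.inl_injective h2
  · intro φ hφ
    obtain ⟨e⟩ := AA.free_iso (k := k) L
    have e1 : AA k (PUnit.{u + 1} × (L →₀ k[X])) ≃ₐ[k] FreeAlgebra k (Option L) :=
      (AA.equiv (LinearEquiv.uniqueProd (R := k[X]) (M := L →₀ k[X]) (M₂ := PUnit.{u + 1}))).trans e
    rw [sat_iff_of_rich hlam (rich_prod hlam h L hL)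
      (rich_prod hlam (stronglyFree_punit lam hlam) L hL) φ hφ, sat_iso e1 φ PEmpty.elim]
    have h3 : (fun v : PEmpty.{u + 1} => e1 (PEmpty.elim v)) = PEmpty.elim :=
      funext fun v => v.elim
    rw [h3]

theorem not_axiomatizable {lam : Cardinal.{u}} (hlam : ℵ₀ ≤ lam) {M : Type u} [AddCommGroup M]
    [Module k[X] M] (h : StronglyFree k[X] M lam)
    (hn : ∀ (B : Type u) (f : M →ₗ[k[X]] (B →₀ k[X])), ¬ Function.Injective f) :
    ¬ AxiomatizableIn k lam := by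
  rintro ⟨T, hT1, hT2⟩
  obtain ⟨h1, h2⟩ := exists_equivalent hlam h hn lam.out (Cardinal.mk_out lam)
  apply h1
  rw [← hT2]
  intro φ hφ
  rw [h2 φ (hT1 φ hφ)]
  exact (hT2 (FreeAlgebra k (Option lam.out))).2 ⟨Option lam.out, ⟨AlgEquiv.refl⟩⟩ φ hφ

end Pool.Agent.Lib.MP_5e5727_lc.FA
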