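import Pool.Agent.Lib.MP_5e5727_lc.FA.TR
import Pool.Agent.Lib.MP_5e5727_lc.FA.LA

/-!
# FA-SB: the basis of the big free module adapted to a set `J` of relations

`S = LS κ Λ E.Q`, `c_a = lad κ a`, `x_γ = single (inl γ) 1`, `copy a` the embedding of `E.G →₀ R` at
`a`, `rho (a, q) = copy a (r q) - x_{c_a q}`.  `A ⊆ S` with `#A ≤ κ` contains all first components
of `J`, and `β < a` for `a ∈ A`.

Take `T` from `exists_thresholds`.  For every `a` the set `T a` has fewer than `κ` elements, so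
`E.basic (T a)` gives `D a` and a basis of `E.G →₀ R` indexed by `T a ⊕ D a` which extends
`r` on `T a`.  Together with the `x_γ` this gives a basis `v` of `Gen →₀ R` indexed by
`Λ ⊕ Σ a, (T a ⊕ D a)` (via `Gen →₀ R ≃ (Λ →₀ R) × (S × G →₀ R)`, `S × G →₀ R ≃ S →₀ (G →₀ R)`; or
directly: linear independence and span), with `v (inl γ) = x_γ`, `v (inr ⟨a, i⟩) = copy a (b_a i)`.

Triangular change (`tri`): `w i = v i + u i` with
* `i = inl γ`, `γ = c_a q` for some `(a, q) ∈ J`, `q ∉ T a` (unique by `disj` and injectivity of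
  the ladders): `u = -copy a (r q)`, so `w i = - rho (a, q)`;
* `i = inr ⟨a, inl q⟩` with `(a, q) ∈ J`: `u = -x_{c_a q}`, `w i = rho (a, q)`;
* otherwise `u = 0`.
Rank: `rk (inl γ) = (γ, 1)`, `rk (inr ⟨a, inl q⟩) = (c_a q, 2)`, `rk (inr ⟨a, inr d⟩) = ⊥`
(lexicographic order, e.g. `WithBot (Λ ×ₗ ℕ)`).  Condition: `copy a (r q)` (`q ∉ T a`) is a
combination of the `v (inr ⟨a, inl q'⟩)`, `q' ∈ T a`, and `v (inr ⟨a, inr d⟩)`; here
`c_a q' < c_a q` since otherwise `q ∈ T a` (`T a` is downward closed): rank `(c_a q', 2) < (c_a q, 1)`.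
And `x_{c_a q}` has rank `(c_a q, 1) < (c_a q, 2)`.
-/

universe u

open Cardinal

namespace Pool.Agent.Lib.MP_5e5727_lc.FA

variable {R : Type u} [CommRing R] {κ : Cardinal.{u}} (E : Pres R κ) (Λ : Type u) [LinearOrder Λ]

/-- the embedding of the indices at `a` -/
private def sbEmb {S : Type u} {K : S → Type u} (a : S) : K a → (Λ ⊕ Σ a, K a) :=
  fun k => Sum.inr ⟨a, k⟩

private theorem copy_single (a : LS κ Λ E.Q) (g : E.G) (t : R) :
    copy E Λ a (Finsupp.single g t) = Finsupp.single (Sum.inr (a, g) : Gen E Λ) t := by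
  simp only [copy, Finsupp.lmapDomain_apply, Finsupp.mapDomain_single]

private theorem sb_big {K : LS κ Λ E.Q → Type u}
    (b : ∀ a, Module.Basis (K a) R (E.G →₀ R)) :
    ∃ v : Module.Basis (Λ ⊕ Σ a, K a) R (Gen E Λ →₀ R),
      (∀ γ, v (Sum.inl γ) = Finsupp.single (Sum.inl γ) 1) ∧
      (∀ a k, v (Sum.inr ⟨a, k⟩) = copy E Λ a (b a k)) ∧
      ∀ a y, v.repr (copy E Λ a y) = Finsupp.mapDomain (sbEmb Λ a) ((b a).repr y) := by
  classical
  let vf : (Λ ⊕ Σ a, K a) → (Gen E Λ →₀ R) := fun i => match i with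
    | Sum.inl γ => Finsupp.single (Sum.inl γ) 1
    | Sum.inr ⟨a, k⟩ => copy E Λ a (b a k)
  let pf : Gen E Λ → ((Λ ⊕ Σ a, K a) →₀ R) := fun g => match g with
    | Sum.inl γ => Finsupp.single (Sum.inl γ) 1
    | Sum.inr (a, g) => Finsupp.mapDomain (sbEmb Λ a) ((b a).repr (Finsupp.single g 1))
  let Φ : ((Λ ⊕ Σ a, K a) →₀ R) →ₗ[R] (Gen E Λ →₀ R) := Finsupp.linearCombination R vf
  let Ψ : (Gen E Λ →₀ R) →ₗ[R] ((Λ ⊕ Σ a, K a) →₀ R) := Finsupp.linearCombination R pf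
  have hΦ1 : ∀ i, Φ (Finsupp.single i 1) = vf i := fun i => by
    simp only [Φ, Finsupp.linearCombination_single, one_smul]
  have hΨ1 : ∀ g, Ψ (Finsupp.single g 1) = pf g := fun g => by
    simp only [Ψ, Finsupp.linearCombination_single, one_smul]
  have hΨc : ∀ a y, Ψ (copy E Λ a y) = Finsupp.mapDomain (sbEmb Λ a) ((b a).repr y) := by
    intro a y
    have h1 : Ψ.comp (copy E Λ a) =
        (Finsupp.lmapDomain R R (sbEmb Λ a)).comp ((b a).repr : (E.G →₀ R) →ₗ[R] (K a →₀ R)) := by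
      refine Finsupp.lhom_ext' fun g => LinearMap.ext_ring ?_
      rw [LinearMap.comp_apply, LinearMap.comp_apply, LinearMap.comp_apply,
        LinearMap.comp_apply, Finsupp.lsingle_apply, copy_single, hΨ1]
      rfl
    have h2 := LinearMap.congr_fun h1 y
    exact h2
  have hΦc : ∀ a z, Φ (Finsupp.mapDomain (sbEmb Λ a) z) = copy E Λ a ((b a).repr.symm z) := by
    intro a z
    have h1 : Φ.comp (Finsupp.lmapDomain R R (sbEmb Λ a)) =
        (copy E Λ a).comp ((b a).repr.symm : (K a →₀ R) →ₗ[R] (E.G →₀ R)) := by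
      refine Finsupp.lhom_ext' fun k => LinearMap.ext_ring ?_
      rw [LinearMap.comp_apply, LinearMap.comp_apply, LinearMap.comp_apply,
        LinearMap.comp_apply, Finsupp.lsingle_apply, Finsupp.lmapDomain_apply,
        Finsupp.mapDomain_single, hΦ1]
      change copy E Λ a (b a k) = copy E Λ a ((b a).repr.symm (Finsupp.single k 1))
      rw [(b a).repr_symm_single_one]
    have h2 := LinearMap.congr_fun h1 z
    exact h2
  have h12 : Ψ.comp Φ = LinearMap.id := by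
    refine Finsupp.lhom_ext' fun i => LinearMap.ext_ring ?_
    rw [LinearMap.comp_apply, LinearMap.comp_apply, LinearMap.comp_apply, Finsupp.lsingle_apply,
      LinearMap.id_apply, hΦ1]
    rcases i with γ | ⟨a, k⟩
    · exact hΨ1 _
    · change Ψ (copy E Λ a (b a k)) = _
      rw [hΨc, Module.Basis.repr_self, Finsupp.mapDomain_single]
      rfl
  have h21 : Φ.comp Ψ = LinearMap.id := by
    refine Finsupp.lhom_ext' fun g => LinearMap.ext_ring ?_
    rw [LinearMap.comp_apply, LinearMap.comp_apply, LinearMap.comp_apply, Finsupp.lsingle_apply,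
      LinearMap.id_apply, hΨ1]
    rcases g with γ | ⟨a, g⟩
    · exact hΦ1 _
    · change Φ (Finsupp.mapDomain (sbEmb Λ a) ((b a).repr (Finsupp.single g 1))) = _
      rw [hΦc, LinearEquiv.symm_apply_apply, copy_single]
  refine ⟨Module.Basis.ofRepr (LinearEquiv.ofLinearMap Ψ Φ h12 h21), ?_, ?_, ?_⟩
  · intro γ
    rw [← Module.Basis.repr_symm_single_one]
    exact hΦ1 _
  · intro a k
    rw [← Module.Basis.repr_symm_single_one]
    exact hΦ1 _
  · intro a y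
    exact hΨc a y

/-- The data given by the construction. -/
structure Adapted (J : Set (LS κ Λ E.Q × E.Q)) (β : WithBot Λ) where
  T : LS κ Λ E.Q → Set E.Q
  D : LS κ Λ E.Q → Type u
  /-- a basis of `G →₀ R` for every `a` -/
  b : ∀ a, Module.Basis (T a ⊕ D a) R (E.G →₀ R)
  w : Module.Basis (Λ ⊕ Σ a, (T a ⊕ D a)) R (Gen E Λ →₀ R)
  /-- the replaced indices in `Λ` -/
  rep : LS κ Λ E.Q → E.Q → Prop
  rep_iff : ∀ a q, rep a q ↔ (a, q) ∈ J ∧ q ∉ T a
  rep_inj : ∀ a q a' q', rep a q → rep a' q' → lad κ a q = lad κ a' q' → a = a' ∧ q = q'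
  rep_gt : ∀ a q, rep a q → β < ((lad κ a q : Λ) : WithBot Λ)
  w_rep : ∀ a q, rep a q → w (Sum.inl (lad κ a q)) = - rho E Λ (a, q)
  w_nrep : ∀ γ, (∀ a q, rep a q → lad κ a q ≠ γ) →
    w (Sum.inl γ) = Finsupp.single (Sum.inl γ) 1
  w_rel : ∀ a (q : T a), (a, (q : E.Q)) ∈ J → w (Sum.inr ⟨a, Sum.inl q⟩) = rho E Λ (a, (q : E.Q))
  w_nrel : ∀ a (q : T a), (a, (q : E.Q)) ∉ J →
    w (Sum.inr ⟨a, Sum.inl q⟩) = copy E Λ a (b a (Sum.inl q))
  w_D : ∀ a (d : D a), w (Sum.inr ⟨a, Sum.inr d⟩) = copy E Λ a (b a (Sum.inr d))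

theorem exists_adapted (hκ : κ.IsRegular) (hΛ : WellFoundedLT Λ)
    (J : Set (LS κ Λ E.Q × E.Q)) (β : WithBot Λ) (A : Set (LS κ Λ E.Q)) (hA : #A ≤ κ)
    (hJ : ∀ j ∈ J, j.1 ∈ A) (hβ : ∀ a ∈ A, β < ((a : Λ) : WithBot Λ)) :
    Nonempty (Adapted E Λ J β) := by
  classical
  obtain ⟨T, hTc, _, hTd, hTβ, hTdis⟩ := exists_thresholds hκ A hA β hβ
  choose D b hb using fun a => E.basic (T a) (hTc a)
  obtain ⟨v, hv1, hv2, hv3⟩ := sb_big E Λ b
  let rep : LS κ Λ E.Q → E.Q → Prop := fun a q => (a, q) ∈ J ∧ q ∉ T a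
  have hinj : ∀ a q a' q', rep a q → rep a' q' → lad κ a q = lad κ a' q' → a = a' ∧ q = q' := by
    intro a q a' q' h1 h2 h3
    by_cases haa : a = a'
    · subst haa
      exact ⟨rfl, (lad_spec κ a).inj h3⟩
    · exact absurd h3 (hTdis a (hJ _ h1.1) a' (hJ _ h2.1) haa q q' h1.2 h2.2)
  let w' : (Λ ⊕ Σ a, (T a ⊕ D a)) → (Gen E Λ →₀ R) := fun i => match i with
    | Sum.inl γ => if h : ∃ p : LS κ Λ E.Q × E.Q, rep p.1 p.2 ∧ lad κ p.1 p.2 = γ then
        - copy E Λ h.choose.1 (E.r h.choose.2) else 0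
    | Sum.inr ⟨a, Sum.inl q⟩ => if (a, (q : E.Q)) ∈ J then
        - Finsupp.single (Sum.inl (lad κ a q)) 1 else 0
    | Sum.inr ⟨_, Sum.inr _⟩ => 0
  let rk : (Λ ⊕ Σ a, (T a ⊕ D a)) → WithBot (Λ ×ₗ ℕ) := fun i => match i with
    | Sum.inl γ => ((toLex (γ, 1) : Λ ×ₗ ℕ) : WithBot (Λ ×ₗ ℕ))
    | Sum.inr ⟨a, Sum.inl q⟩ => ((toLex (lad κ a q, 2) : Λ ×ₗ ℕ) : WithBot (Λ ×ₗ ℕ))
    | Sum.inr ⟨_, Sum.inr _⟩ => ⊥
  have hu : ∀ i j, v.repr (w' i) j ≠ 0 → rk j < rk i := by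
    intro i j hij
    rcases i with γ | ⟨a, q | d⟩
    · by_cases h : ∃ p : LS κ Λ E.Q × E.Q, rep p.1 p.2 ∧ lad κ p.1 p.2 = γ
      · have hw : w' (Sum.inl γ) = - copy E Λ h.choose.1 (E.r h.choose.2) := dif_pos h
        obtain ⟨hr, hγ⟩ := h.choose_spec
        rw [hw, map_neg, hv3, Finsupp.neg_apply, neg_ne_zero] at hij
        have hj : j ∈ Set.range (sbEmb (K := fun a => T a ⊕ D a) Λ h.choose.1) := by
          by_contra hcon
          exact hij (Finsupp.mapDomain_of_notMem_range _ _ hcon)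
        obtain ⟨k, rfl⟩ := hj
        rcases k with q' | d
        · change ((toLex (lad κ h.choose.1 q', 2) : Λ ×ₗ ℕ) : WithBot (Λ ×ₗ ℕ)) <
            ((toLex (γ, 1) : Λ ×ₗ ℕ) : WithBot (Λ ×ₗ ℕ))
          rw [WithBot.coe_lt_coe, Prod.Lex.toLex_lt_toLex]
          left
          refine lt_of_lt_of_eq (?_ : lad κ h.choose.1 q' < lad κ h.choose.1 h.choose.2) hγ
          by_contra hcon
          exact hr.2 (hTd _ _ q'.2 _ (not_lt.1 hcon))
        · exact WithBot.bot_lt_coe _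
      · have hw : w' (Sum.inl γ) = 0 := dif_neg h
        rw [hw, map_zero, Finsupp.zero_apply] at hij
        exact absurd rfl hij
    · by_cases h : (a, (q : E.Q)) ∈ J
      · have hw : w' (Sum.inr ⟨a, Sum.inl q⟩) = - Finsupp.single (Sum.inl (lad κ a q)) 1 :=
          if_pos h
        rw [hw, map_neg, ← hv1, Module.Basis.repr_self, Finsupp.neg_apply, neg_ne_zero] at hij
        have hj : Sum.inl (lad κ a q) = j := by
          by_contra hcon
          exact hij (Finsupp.single_eq_of_ne (Ne.symm hcon))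
        subst hj
        change ((toLex (lad κ a q, 1) : Λ ×ₗ ℕ) : WithBot (Λ ×ₗ ℕ)) <
            ((toLex (lad κ a q, 2) : Λ ×ₗ ℕ) : WithBot (Λ ×ₗ ℕ))
        rw [WithBot.coe_lt_coe, Prod.Lex.toLex_lt_toLex]
        right
        exact ⟨rfl, by norm_num⟩
      · have hw : w' (Sum.inr ⟨a, Sum.inl q⟩) = 0 := if_neg h
        rw [hw, map_zero, Finsupp.zero_apply] at hij
        exact absurd rfl hij
    · have hw : w' (Sum.inr ⟨a, Sum.inr d⟩) = 0 := rfl
      rw [hw, map_zero, Finsupp.zero_apply] at hij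
      exact absurd rfl hij
  obtain ⟨w, hw⟩ := tri v rk w' hu
  refine ⟨{
    T := T, D := D, b := b, w := w, rep := rep
    rep_iff := fun _ _ => Iff.rfl
    rep_inj := hinj
    rep_gt := ?_
    w_rep := ?_
    w_nrep := ?_
    w_rel := ?_
    w_nrel := ?_
    w_D := ?_ }⟩
  · intro a q h
    by_contra hcon
    exact h.2 (hTβ a (hJ _ h.1) q (not_lt.1 hcon))
  · intro a q h
    have hex : ∃ p : LS κ Λ E.Q × E.Q, rep p.1 p.2 ∧ lad κ p.1 p.2 = lad κ a q :=
      ⟨(a, q), h, rfl⟩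
    have h1 : w' (Sum.inl (lad κ a q)) = - copy E Λ hex.choose.1 (E.r hex.choose.2) :=
      dif_pos hex
    obtain ⟨h2, h3⟩ := hinj _ _ _ _ hex.choose_spec.1 h hex.choose_spec.2
    rw [hw, hv1, h1, h2, h3]
    simp only [rho]
    abel
  · intro γ h
    have h1 : w' (Sum.inl γ) = 0 := dif_neg fun ⟨p, hp, hp2⟩ => h p.1 p.2 hp hp2
    rw [hw, hv1, h1, add_zero]
  · intro a q h
    have h1 : w' (Sum.inr ⟨a, Sum.inl q⟩) = - Finsupp.single (Sum.inl (lad κ a q)) 1 := if_pos h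
    rw [hw, hv2, h1, hb, rho, sub_eq_add_neg]
  · intro a q h
    have h1 : w' (Sum.inr ⟨a, Sum.inl q⟩) = 0 := if_neg h
    rw [hw, hv2, h1, add_zero]
  · intro a d
    have h1 : w' (Sum.inr ⟨a, Sum.inr d⟩) = 0 := rfl
    rw [hw, hv2, h1, add_zero]

end Pool.Agent.Lib.MP_5e5727_lc.FA
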