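import Pool.Agent.Lib.MP_5e5727_lc.FA.MDefs

/-!
# FA-TR: triangular change of basis

`T : F →ₗ F`, `T (v i) = v i + u i` (`v.constr`).
* surjective: `v i ∈ range T` by well-founded induction on `rk i`: `u i` is a combination of
  `v j` with `rk j < rk i`, so `u i ∈ range T`, `v i = T (v i) - u i`.
* injective: let `y ≠ 0`, `i` in the support of `v.repr y` with `rk i` largest
  (`Finset.exists_max_image`).  The `i`-th coordinate of `T y` is `y_i + ∑ j, y_j (u j)_i`, and
  `(u j)_i ≠ 0` implies `rk i < rk j`, impossible for `j` in the support.  So it is `y_i ≠ 0`.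
`w = v.map (LinearEquiv.ofBijective T _)`.
-/

universe u

open Cardinal

namespace Pool.Agent.Lib.MP_5e5727_lc.FA

variable {R : Type u} [CommRing R]

theorem tri {I F : Type u} [AddCommGroup F] [Module R F] (v : Module.Basis I R F) {O : Type*}
    [LinearOrder O] [WellFoundedLT O] (rk : I → O) (w' : I → F)
    (hu : ∀ i j, v.repr (w' i) j ≠ 0 → rk j < rk i) :
    ∃ w : Module.Basis I R F, ∀ i, w i = v i + w' i := by
  classical
  let T : F →ₗ[R] F := v.constr R fun i => v i + w' i
  have hT : ∀ i, T (v i) = v i + w' i := fun i => v.constr_basis R _ i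
  -- surjectivity
  have hr : ∀ o : O, ∀ i, rk i = o → v i ∈ LinearMap.range T := by
    intro o
    induction o using WellFoundedLT.induction with
    | ind o ih =>
      intro i hi
      have h1 : w' i ∈ LinearMap.range T := by
        rw [← v.linearCombination_repr (w' i), Finsupp.linearCombination_apply, Finsupp.sum]
        refine Submodule.sum_mem _ fun j hj => Submodule.smul_mem _ _ ?_
        exact ih (rk j) (hi ▸ hu i j (Finsupp.mem_support_iff.1 hj)) j rfl
      have h2 : v i = T (v i) - w' i := by rw [hT]; abel
      rw [h2]
      exact Submodule.sub_mem _ ⟨v i, rfl⟩ h1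
  have hsur : Function.Surjective T := by
    rw [← LinearMap.range_eq_top, eq_top_iff, ← v.span_eq, Submodule.span_le]
    rintro _ ⟨i, rfl⟩
    exact hr (rk i) i rfl
  have hinj : Function.Injective T := by
    rw [← LinearMap.ker_eq_bot, LinearMap.ker_eq_bot']
    intro y hy
    by_contra hne
    have hs : (v.repr y).support.Nonempty := by
      rw [Finsupp.support_nonempty_iff]
      intro h
      exact hne (v.repr.map_eq_zero_iff.1 h)
    obtain ⟨i, hi, hmax⟩ := Finset.exists_max_image _ rk hs
    have h1 : v.repr (T y) i = (v.repr y) i := by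
      have h2 : T y = (v.repr y).sum fun j a => a • (v j + w' j) := v.constr_apply R _ y
      rw [h2, Finsupp.sum, map_sum, Finsupp.finsetSum_apply, Finset.sum_eq_single i]
      · rw [map_smul, Finsupp.smul_apply, map_add, Finsupp.add_apply, v.repr_self,
          Finsupp.single_eq_same]
        have h3 : v.repr (w' i) i = 0 := by
          by_contra h
          exact lt_irrefl _ (hu i i h)
        rw [h3, add_zero, smul_eq_mul, mul_one]
      · intro j hj hji
        rw [map_smul, Finsupp.smul_apply, map_add, Finsupp.add_apply, v.repr_self,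
          Finsupp.single_eq_of_ne (Ne.symm hji)]
        have h3 : v.repr (w' j) i = 0 := by
          by_contra h
          exact absurd (hu j i h) (not_lt.2 (hmax j hj))
        rw [h3, add_zero, smul_zero]
      · intro h
        exact absurd hi h
    rw [hy, map_zero, Finsupp.zero_apply] at h1
    exact (Finsupp.mem_support_iff.1 hi) h1.symm
  have hbij : Function.Bijective T := ⟨hinj, hsur⟩
  refine ⟨v.map (LinearEquiv.ofBijective T hbij), fun i => ?_⟩
  rw [Module.Basis.map_apply, LinearEquiv.ofBijective_apply, hT]

end Pool.Agent.Lib.MP_5e5727_lc.FA
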